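import Mathlib

/-! Project EA (helper81): local energy of exponential sums whose coefficients have small two point
correlations. -/

set_option autoImplicit false

open Finset Filter Topology MeasureTheory

namespace Pool.Agent.T2h81.EA

/-- the exponential sum -/
noncomputable def F (a : ℕ → ℝ) (R : ℕ) (x : ℝ) : ℂ :=
  ∑ n ∈ Icc 1 R, (a n : ℂ) * Complex.exp (2 * Real.pi * Complex.I * n * x)

lemma F_cont (a : ℕ → ℝ) (R : ℕ) : Continuous (F a R) := by
  unfold F
  fun_prop

lemma exp_per (n : ℕ) (x : ℝ) : Complex.exp (2 * Real.pi * Complex.I * n * ((x + 1 : ℝ) : ℂ)) =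
    Complex.exp (2 * Real.pi * Complex.I * n * x) := by
  have h : (2 * Real.pi * Complex.I * n * ((x + 1 : ℝ) : ℂ) : ℂ) =
      2 * Real.pi * Complex.I * n * x + (n : ℂ) * (2 * Real.pi * Complex.I) := by
    push_cast
    ring
  rw [h, Complex.exp_add, Complex.exp_nat_mul_two_pi_mul_I, mul_one]

lemma F_per (a : ℕ → ℝ) (R : ℕ) : Function.Periodic (F a R) 1 := by
  intro x
  unfold F
  apply Finset.sum_congr rfl
  intro n _
  rw [exp_per]

/-- the integrals of the characters -/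
lemma int_exp (j : ℤ) : ∫ x in (0 : ℝ)..1, Complex.exp (2 * Real.pi * Complex.I * j * x) =
    if j = 0 then 1 else 0 := by
  split_ifs with h
  · subst h
    simp
  · have h0 : (2 * Real.pi * Complex.I * j : ℂ) ≠ 0 := by
      have h1 : (j : ℂ) ≠ 0 := by exact_mod_cast h
      have h2 : (Real.pi : ℂ) ≠ 0 := by exact_mod_cast Real.pi_ne_zero
      exact mul_ne_zero (mul_ne_zero (mul_ne_zero two_ne_zero h2) Complex.I_ne_zero) h1
    rw [integral_exp_mul_complex h0]
    have e1 : (2 * Real.pi * Complex.I * j * ((1 : ℝ) : ℂ) : ℂ) = (j : ℂ) * (2 * Real.pi * Complex.I) := by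
      push_cast
      ring
    have e2 : (2 * Real.pi * Complex.I * j * ((0 : ℝ) : ℂ) : ℂ) = 0 := by
      push_cast
      ring
    rw [e1, e2, Complex.exp_int_mul_two_pi_mul_I, Complex.exp_zero, sub_self, zero_div]

lemma norm_sq (a : ℕ → ℝ) (R : ℕ) (x : ℝ) : ((‖F a R x‖ ^ 2 : ℝ) : ℂ) =
    ∑ m ∈ Icc 1 R, ∑ n ∈ Icc 1 R, ((a m * a n : ℝ) : ℂ) *
      Complex.exp (2 * Real.pi * Complex.I * (((m : ℤ) - n : ℤ) : ℂ) * x) := by
  have h1 : ((‖F a R x‖ ^ 2 : ℝ) : ℂ) = F a R x * (starRingEnd ℂ) (F a R x) := by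
    rw [Complex.mul_conj, Complex.normSq_eq_norm_sq]
  rw [h1]
  unfold F
  rw [map_sum, Finset.sum_mul_sum]
  apply Finset.sum_congr rfl
  intro m _
  apply Finset.sum_congr rfl
  intro n _
  rw [map_mul, Complex.conj_ofReal, ← Complex.exp_conj]
  have e1 : (starRingEnd ℂ) (2 * Real.pi * Complex.I * n * x) = -(2 * Real.pi * Complex.I * n * x) := by
    simp only [map_mul, Complex.conj_ofReal, Complex.conj_I, map_natCast, map_ofNat]
    ring
  rw [e1]
  have e2 : (2 * Real.pi * Complex.I * (((m : ℤ) - n : ℤ) : ℂ) * x : ℂ) =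
      2 * Real.pi * Complex.I * m * x + -(2 * Real.pi * Complex.I * n * x) := by
    push_cast
    ring
  rw [e2, Complex.exp_add]
  push_cast
  ring

/-- the energy against `g` -/
noncomputable def L (a : ℕ → ℝ) (R : ℕ) (g : C(AddCircle (1 : ℝ), ℂ)) : ℂ :=
  ∫ x in (0 : ℝ)..1, g (x : AddCircle (1 : ℝ)) * ((‖F a R x‖ ^ 2 : ℝ) : ℂ)

/-- the mean -/
noncomputable def M (g : C(AddCircle (1 : ℝ), ℂ)) : ℂ := ∫ x in (0 : ℝ)..1, g (x : AddCircle (1 : ℝ))

lemma g_cont (g : C(AddCircle (1 : ℝ), ℂ)) : Continuous (fun x : ℝ => g (x : AddCircle (1 : ℝ))) :=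
  g.continuous.comp (AddCircle.continuous_mk' 1)

lemma gF_cont (a : ℕ → ℝ) (R : ℕ) (g : C(AddCircle (1 : ℝ), ℂ)) :
    Continuous (fun x : ℝ => g (x : AddCircle (1 : ℝ)) * ((‖F a R x‖ ^ 2 : ℝ) : ℂ)) := by
  have h1 := F_cont a R
  have h2 := g_cont g
  fun_prop

lemma L_add (a : ℕ → ℝ) (R : ℕ) (g h : C(AddCircle (1 : ℝ), ℂ)) : L a R (g + h) = L a R g + L a R h := by
  unfold L
  rw [← intervalIntegral.integral_add ((gF_cont a R g).intervalIntegrable _ _)
    ((gF_cont a R h).intervalIntegrable _ _)]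
  apply intervalIntegral.integral_congr
  intro x _
  simp only [ContinuousMap.add_apply]
  ring

lemma L_smul (a : ℕ → ℝ) (R : ℕ) (c : ℂ) (g : C(AddCircle (1 : ℝ), ℂ)) : L a R (c • g) = c * L a R g := by
  unfold L
  rw [← intervalIntegral.integral_const_mul]
  apply intervalIntegral.integral_congr
  intro x _
  simp only [ContinuousMap.smul_apply, smul_eq_mul]
  ring

lemma M_add (g h : C(AddCircle (1 : ℝ), ℂ)) : M (g + h) = M g + M h := by
  unfold M
  rw [← intervalIntegral.integral_add ((g_cont g).intervalIntegrable _ _)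
    ((g_cont h).intervalIntegrable _ _)]
  apply intervalIntegral.integral_congr
  intro x _
  simp only [ContinuousMap.add_apply]

lemma M_smul (c : ℂ) (g : C(AddCircle (1 : ℝ), ℂ)) : M (c • g) = c * M g := by
  unfold M
  rw [← intervalIntegral.integral_const_mul]
  apply intervalIntegral.integral_congr
  intro x _
  simp only [ContinuousMap.smul_apply, smul_eq_mul]

lemma four_apply (k : ℤ) (x : ℝ) : fourier k (x : AddCircle (1 : ℝ)) =
    Complex.exp (2 * Real.pi * Complex.I * k * x) := by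
  rw [fourier_coe_apply]
  congr 1
  push_cast
  ring

lemma M_four (k : ℤ) : M (fourier k) = if k = 0 then 1 else 0 := by
  unfold M
  rw [← int_exp k]
  apply intervalIntegral.integral_congr
  intro x _
  simp only [four_apply]

lemma L_four (a : ℕ → ℝ) (R : ℕ) (k : ℤ) : L a R (fourier k) =
    ((∑ m ∈ Icc 1 R, ∑ n ∈ Icc 1 R, if k + ((m : ℤ) - n) = 0 then a m * a n else 0 : ℝ) : ℂ) := by
  unfold L
  have h1 : ∀ x : ℝ, fourier k (x : AddCircle (1 : ℝ)) * ((‖F a R x‖ ^ 2 : ℝ) : ℂ) =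
      ∑ m ∈ Icc 1 R, ∑ n ∈ Icc 1 R, ((a m * a n : ℝ) : ℂ) *
        Complex.exp (2 * Real.pi * Complex.I * ((k + ((m : ℤ) - n) : ℤ) : ℂ) * x) := by
    intro x
    rw [norm_sq, four_apply, Finset.mul_sum]
    apply Finset.sum_congr rfl
    intro m _
    rw [Finset.mul_sum]
    apply Finset.sum_congr rfl
    intro n _
    have e2 : (2 * Real.pi * Complex.I * ((k + ((m : ℤ) - n) : ℤ) : ℂ) * x : ℂ) =
        2 * Real.pi * Complex.I * k * x + 2 * Real.pi * Complex.I * (((m : ℤ) - n : ℤ) : ℂ) * x := by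
      push_cast
      ring
    rw [e2, Complex.exp_add]
    ring
  have h2 : (∫ x in (0 : ℝ)..1, fourier k (x : AddCircle (1 : ℝ)) * ((‖F a R x‖ ^ 2 : ℝ) : ℂ)) =
      ∫ x in (0 : ℝ)..1, ∑ m ∈ Icc 1 R, ∑ n ∈ Icc 1 R, ((a m * a n : ℝ) : ℂ) *
        Complex.exp (2 * Real.pi * Complex.I * ((k + ((m : ℤ) - n) : ℤ) : ℂ) * x) := by
    apply intervalIntegral.integral_congr
    intro x _
    exact h1 x
  rw [h2, intervalIntegral.integral_finsetSum, Complex.ofReal_sum]
  · apply Finset.sum_congr rfl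
    intro m _
    rw [intervalIntegral.integral_finsetSum, Complex.ofReal_sum]
    · apply Finset.sum_congr rfl
      intro n _
      rw [intervalIntegral.integral_const_mul, int_exp]
      split_ifs <;> simp
    · intro n _
      apply Continuous.intervalIntegrable
      fun_prop
  · intro m _
    apply Continuous.intervalIntegrable
    fun_prop

/-- the two point correlations -/
noncomputable def corr (a : ℕ → ℝ) (h R : ℕ) : ℝ := ∑ n ∈ Icc 1 R, a n * a (n + h)

lemma diag_eq (a : ℕ → ℝ) (R : ℕ) :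
    (∑ m ∈ Icc 1 R, ∑ n ∈ Icc 1 R, if (0 : ℤ) + ((m : ℤ) - n) = 0 then a m * a n else 0 : ℝ) =
      ∑ n ∈ Icc 1 R, a n ^ 2 := by
  apply Finset.sum_congr rfl
  intro m hm
  rw [Finset.sum_eq_single m]
  · rw [if_pos (by ring)]
    ring
  · intro n _ hnm
    rw [if_neg]
    intro h
    apply hnm
    omega
  · intro h
    exact absurd hm h

lemma swap_eq (a : ℕ → ℝ) (R : ℕ) (k : ℤ) :
    (∑ m ∈ Icc 1 R, ∑ n ∈ Icc 1 R, if k + ((m : ℤ) - n) = 0 then a m * a n else 0 : ℝ) =
    (∑ m ∈ Icc 1 R, ∑ n ∈ Icc 1 R, if -k + ((m : ℤ) - n) = 0 then a m * a n else 0 : ℝ) := by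
  rw [Finset.sum_comm]
  apply Finset.sum_congr rfl
  intro m _
  apply Finset.sum_congr rfl
  intro n _
  have : (k + ((n : ℤ) - m) = 0) ↔ (-k + ((m : ℤ) - n) = 0) := by omega
  rw [if_congr this rfl rfl, mul_comm (a n)]

lemma off_le (a : ℕ → ℝ) (ha : ∀ n, |a n| ≤ 1) (R h : ℕ) :
    |(∑ m ∈ Icc 1 R, ∑ n ∈ Icc 1 R, if (h : ℤ) + ((m : ℤ) - n) = 0 then a m * a n else 0 : ℝ)| ≤
      |corr a h R| + h := by
  have h1 : (∑ m ∈ Icc 1 R, ∑ n ∈ Icc 1 R, if (h : ℤ) + ((m : ℤ) - n) = 0 then a m * a n else 0 : ℝ) =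
      ∑ m ∈ Icc 1 R, if m + h ≤ R then a m * a (m + h) else 0 := by
    apply Finset.sum_congr rfl
    intro m hm
    rw [Finset.mem_Icc] at hm
    split_ifs with hR
    · rw [Finset.sum_eq_single (m + h)]
      · rw [if_pos (by push_cast; ring)]
      · intro n _ hnm
        rw [if_neg]
        intro hc
        apply hnm
        omega
      · intro hc
        exfalso
        apply hc
        rw [Finset.mem_Icc]
        omega
    · apply Finset.sum_eq_zero
      intro n hn
      rw [Finset.mem_Icc] at hn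
      rw [if_neg]
      omega
  have h2 : corr a h R - (∑ m ∈ Icc 1 R, if m + h ≤ R then a m * a (m + h) else 0) =
      ∑ m ∈ Icc 1 R, if m + h ≤ R then 0 else a m * a (m + h) := by
    unfold corr
    rw [← Finset.sum_sub_distrib]
    apply Finset.sum_congr rfl
    intro m _
    split_ifs <;> ring
  have h3 : |∑ m ∈ Icc 1 R, if m + h ≤ R then 0 else a m * a (m + h)| ≤ h := by
    refine (Finset.abs_sum_le_sum_abs _ _).trans ?_
    have h4 : ∑ m ∈ Icc 1 R, |if m + h ≤ R then 0 else a m * a (m + h)| ≤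
        ∑ m ∈ Icc 1 R, if m + h ≤ R then (0 : ℝ) else 1 := by
      apply Finset.sum_le_sum
      intro m _
      split_ifs
      · simp
      · rw [abs_mul]
        have := ha m
        have := ha (m + h)
        have := abs_nonneg (a m)
        have := abs_nonneg (a (m + h))
        nlinarith
    refine h4.trans ?_
    rw [Finset.sum_ite, Finset.sum_const_zero, zero_add, Finset.sum_const, nsmul_eq_mul, mul_one]
    have h5 : (Icc 1 R).filter (fun m => ¬ m + h ≤ R) ⊆ Ioc (R - h) R := by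
      intro m hm
      rw [Finset.mem_filter, Finset.mem_Icc] at hm
      rw [Finset.mem_Ioc]
      omega
    have h6 := Finset.card_le_card h5
    rw [Nat.card_Ioc] at h6
    exact_mod_cast (by omega : ((Icc 1 R).filter (fun m => ¬ m + h ≤ R)).card ≤ h)
  rw [h1]
  have h7 : (∑ m ∈ Icc 1 R, if m + h ≤ R then a m * a (m + h) else 0) =
      corr a h R - ∑ m ∈ Icc 1 R, (if m + h ≤ R then 0 else a m * a (m + h)) := by
    rw [← h2]
    ring
  rw [h7]
  exact (abs_sub _ _).trans (by linarith)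

/-- the total energy -/
lemma total (a : ℕ → ℝ) (ha : ∀ n, |a n| ≤ 1) (R : ℕ) : ∫ x in (0 : ℝ)..1, ‖F a R x‖ ^ 2 ≤ R := by
  have h1 := L_four a R 0
  rw [diag_eq] at h1
  unfold L at h1
  have h2 : (∫ x in (0 : ℝ)..1, fourier 0 (x : AddCircle (1 : ℝ)) * ((‖F a R x‖ ^ 2 : ℝ) : ℂ)) =
      ((∫ x in (0 : ℝ)..1, ‖F a R x‖ ^ 2 : ℝ) : ℂ) := by
    rw [← intervalIntegral.integral_ofReal]
    apply intervalIntegral.integral_congr
    intro x _
    simp only [fourier_zero, one_mul]
  rw [h2] at h1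
  have h3 : ∫ x in (0 : ℝ)..1, ‖F a R x‖ ^ 2 = ∑ n ∈ Icc 1 R, a n ^ 2 := by exact_mod_cast h1
  rw [h3]
  calc ∑ n ∈ Icc 1 R, a n ^ 2 ≤ ∑ n ∈ Icc 1 R, (1 : ℝ) := by
        apply Finset.sum_le_sum
        intro n _
        have := ha n
        rw [← sq_abs]
        have := abs_nonneg (a n)
        nlinarith
    _ = R := by simp

lemma L_diff (a : ℕ → ℝ) (ha : ∀ n, |a n| ≤ 1) (R : ℕ) (g h : C(AddCircle (1 : ℝ), ℂ)) :
    ‖L a R g - L a R h‖ ≤ ‖g - h‖ * R := by
  have e1 : L a R g - L a R h = ∫ x in (0 : ℝ)..1, (g - h) (x : AddCircle (1 : ℝ)) *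
      ((‖F a R x‖ ^ 2 : ℝ) : ℂ) := by
    unfold L
    rw [← intervalIntegral.integral_sub ((gF_cont a R g).intervalIntegrable _ _)
      ((gF_cont a R h).intervalIntegrable _ _)]
    apply intervalIntegral.integral_congr
    intro x _
    simp only [ContinuousMap.sub_apply]
    ring
  rw [e1]
  have hc := F_cont a R
  calc ‖∫ x in (0 : ℝ)..1, (g - h) (x : AddCircle (1 : ℝ)) * ((‖F a R x‖ ^ 2 : ℝ) : ℂ)‖
      ≤ ∫ x in (0 : ℝ)..1, ‖(g - h) (x : AddCircle (1 : ℝ)) * ((‖F a R x‖ ^ 2 : ℝ) : ℂ)‖ :=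
        intervalIntegral.norm_integral_le_integral_norm (by norm_num)
    _ ≤ ∫ x in (0 : ℝ)..1, ‖g - h‖ * ‖F a R x‖ ^ 2 := by
        apply intervalIntegral.integral_mono_on (by norm_num)
        · exact (gF_cont a R (g - h)).norm.intervalIntegrable _ _
        · apply Continuous.intervalIntegrable
          fun_prop
        · intro x _
          rw [norm_mul, Complex.norm_real, Real.norm_of_nonneg (by positivity)]
          gcongr
          exact ContinuousMap.norm_coe_le_norm (g - h) _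
    _ = ‖g - h‖ * ∫ x in (0 : ℝ)..1, ‖F a R x‖ ^ 2 := intervalIntegral.integral_const_mul _ _
    _ ≤ _ := by
        gcongr
        exact total a ha R

lemma M_diff (g h : C(AddCircle (1 : ℝ), ℂ)) : ‖M g - M h‖ ≤ ‖g - h‖ := by
  have e1 : M g - M h = ∫ x in (0 : ℝ)..1, (g - h) (x : AddCircle (1 : ℝ)) := by
    unfold M
    rw [← intervalIntegral.integral_sub ((g_cont g).intervalIntegrable _ _)
      ((g_cont h).intervalIntegrable _ _)]
    apply intervalIntegral.integral_congr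
    intro x _
    simp only [ContinuousMap.sub_apply]
  rw [e1]
  have h1 := intervalIntegral.norm_integral_le_of_norm_le_const (a := (0 : ℝ)) (b := 1)
    (f := fun x : ℝ => (g - h) (x : AddCircle (1 : ℝ))) (C := ‖g - h‖)
    (fun x _ => ContinuousMap.norm_coe_le_norm (g - h) _)
  simpa using h1

end Pool.Agent.T2h81.EA
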