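import Pool.Agent.T2h81.EA.A1

/-! Project EA (helper81): limits of the energy along filters, arcs. -/

set_option autoImplicit false

open Finset Filter Topology MeasureTheory

namespace Pool.Agent.T2h81.EA

/-- the two point correlations tend to zero -/
def Small (a : ℕ → ℝ) (𝓕 : Filter ℕ) : Prop :=
  ∀ h : ℕ, 1 ≤ h → Tendsto (fun R : ℕ => corr a h R / R) 𝓕 (𝓝 0)

/-- the mean square of the coefficients -/
def Dens (a : ℕ → ℝ) (D : ℝ) (𝓕 : Filter ℕ) : Prop :=
  Tendsto (fun R : ℕ => (∑ n ∈ Icc 1 R, a n ^ 2) / (R : ℝ)) 𝓕 (𝓝 D)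

section
variable {a : ℕ → ℝ} {D : ℝ} {𝓕 : Filter ℕ}

lemma tend_pos (ha : ∀ n, |a n| ≤ 1) (h𝓕 : 𝓕 ≤ atTop) (hS : Small a 𝓕) (h : ℕ) (hh : 1 ≤ h) :
    Tendsto (fun R : ℕ => L a R (fourier (h : ℤ)) / (R : ℂ)) 𝓕 (𝓝 0) := by
  rw [tendsto_zero_iff_norm_tendsto_zero]
  have h1 : Tendsto (fun R : ℕ => |corr a h R / R| + h / (R : ℝ)) 𝓕 (𝓝 0) := by
    have h2 := (hS h hh).abs
    rw [abs_zero] at h2
    have h3 : Tendsto (fun R : ℕ => (h : ℝ) / (R : ℝ)) 𝓕 (𝓝 0) :=
      (tendsto_const_div_atTop_nhds_zero_nat (h : ℝ)).mono_left h𝓕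
    simpa using h2.add h3
  refine squeeze_zero (fun R => norm_nonneg _) (fun R => ?_) h1
  rw [L_four, norm_div, Complex.norm_real, Complex.norm_natCast, Real.norm_eq_abs]
  have h2 := off_le a ha R h
  rw [abs_div, Nat.abs_cast, ← add_div]
  gcongr

lemma tend_neg (ha : ∀ n, |a n| ≤ 1) (h𝓕 : 𝓕 ≤ atTop) (hS : Small a 𝓕) (h : ℕ) (hh : 1 ≤ h) :
    Tendsto (fun R : ℕ => L a R (fourier (-(h : ℤ))) / (R : ℂ)) 𝓕 (𝓝 0) := by
  refine (tend_pos ha h𝓕 hS h hh).congr fun R => ?_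
  rw [L_four, L_four, swap_eq]

lemma tend_four (ha : ∀ n, |a n| ≤ 1) (h𝓕 : 𝓕 ≤ atTop) (hS : Small a 𝓕) (hD : Dens a D 𝓕) (k : ℤ) :
    Tendsto (fun R : ℕ => L a R (fourier k) / (R : ℂ)) 𝓕 (𝓝 ((D : ℂ) * M (fourier k))) := by
  rw [M_four]
  rcases lt_trichotomy k 0 with hk | hk | hk
  · obtain ⟨h, rfl⟩ : ∃ h : ℕ, k = -(h : ℤ) := ⟨k.natAbs, by omega⟩
    rw [if_neg (by omega), mul_zero]
    exact tend_neg ha h𝓕 hS h (by omega)
  · subst hk
    rw [if_pos rfl, mul_one]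
    have h1 : Tendsto (fun R : ℕ => (((∑ n ∈ Icc 1 R, a n ^ 2) / (R : ℝ) : ℝ) : ℂ)) 𝓕 (𝓝 (D : ℂ)) :=
      (Complex.continuous_ofReal.tendsto D).comp hD
    refine h1.congr fun R => ?_
    rw [L_four, diag_eq, Complex.ofReal_div, Complex.ofReal_natCast]
  · obtain ⟨h, rfl⟩ : ∃ h : ℕ, k = (h : ℤ) := ⟨k.natAbs, by omega⟩
    rw [if_neg (by omega), mul_zero]
    exact tend_pos ha h𝓕 hS h (by omega)

lemma tend_span (ha : ∀ n, |a n| ≤ 1) (h𝓕 : 𝓕 ≤ atTop) (hS : Small a 𝓕) (hD : Dens a D 𝓕)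
    (g : C(AddCircle (1 : ℝ), ℂ)) (hg : g ∈ Submodule.span ℂ (Set.range (@fourier 1))) :
    Tendsto (fun R : ℕ => L a R g / (R : ℂ)) 𝓕 (𝓝 ((D : ℂ) * M g)) := by
  induction hg using Submodule.span_induction with
  | mem x hx =>
    obtain ⟨k, rfl⟩ := hx
    exact tend_four ha h𝓕 hS hD k
  | zero =>
    have e1 : M 0 = 0 := by
      unfold M
      simp
    have e2 : ∀ R, L a R 0 = 0 := by
      intro R
      unfold L
      simp
    simp only [e1, e2, zero_div, mul_zero]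
    exact tendsto_const_nhds
  | add x y _ _ hx hy =>
    have h1 := hx.add hy
    rw [M_add, mul_add]
    refine h1.congr fun R => ?_
    rw [L_add, add_div]
  | smul c x _ hx =>
    have h1 := hx.const_mul c
    rw [M_smul]
    have e1 : (D : ℂ) * (c * M x) = c * (D * M x) := by ring
    rw [e1]
    refine h1.congr fun R => ?_
    rw [L_smul, mul_div_assoc]

/-- all continuous functions -/
lemma tend_all (ha : ∀ n, |a n| ≤ 1) (h𝓕 : 𝓕 ≤ atTop) (hS : Small a 𝓕) (hD : Dens a D 𝓕)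
    (g : C(AddCircle (1 : ℝ), ℂ)) :
    Tendsto (fun R : ℕ => L a R g / (R : ℂ)) 𝓕 (𝓝 ((D : ℂ) * M g)) := by
  have : Fact ((0 : ℝ) < 1) := ⟨by norm_num⟩
  rw [Metric.tendsto_nhds]
  intro ε hε
  have hcl : g ∈ (Submodule.span ℂ (Set.range (@fourier 1))).topologicalClosure := by
    rw [span_fourier_closure_eq_top]
    trivial
  have hD0 : 0 < 3 * (1 + |D|) := by positivity
  obtain ⟨h, hh, hgh⟩ := Metric.mem_closure_iff.1 hcl (ε / (3 * (1 + |D|))) (by positivity)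
  rw [dist_eq_norm] at hgh
  have h1 := Metric.tendsto_nhds.1 (tend_span ha h𝓕 hS hD h hh) (ε / 3) (by positivity)
  have h0 : ∀ᶠ R : ℕ in 𝓕, 1 ≤ R := h𝓕 (eventually_ge_atTop 1)
  filter_upwards [h1, h0] with R hR hR1
  have hR0 : (0 : ℝ) < R := by exact_mod_cast hR1
  rw [dist_eq_norm] at hR ⊢
  have h2 := L_diff a ha R g h
  have h3 := M_diff g h
  have e1 : L a R g / (R : ℂ) - D * M g = (L a R g - L a R h) / R + (L a R h / R - D * M h) +
      D * (M h - M g) := by ring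
  rw [e1]
  have h4 : ‖(L a R g - L a R h) / (R : ℂ)‖ ≤ ε / 3 := by
    rw [norm_div, Complex.norm_natCast, div_le_iff₀ hR0]
    refine h2.trans ?_
    have : ‖g - h‖ ≤ ε / 3 := by
      refine hgh.le.trans ?_
      rw [div_le_div_iff₀ hD0 (by norm_num)]
      have := abs_nonneg D
      nlinarith
    gcongr
  have h5 : ‖(D : ℂ) * (M h - M g)‖ ≤ |D| * (ε / (3 * (1 + |D|))) := by
    rw [norm_mul, Complex.norm_real, Real.norm_eq_abs, norm_sub_rev]
    gcongr
    exact h3.trans hgh.le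
  have h6 : |D| * (ε / (3 * (1 + |D|))) ≤ ε / 3 := by
    rw [mul_div_assoc', div_le_div_iff₀ hD0 (by norm_num)]
    have := abs_nonneg D
    nlinarith
  have h7 := norm_add₃_le (a := (L a R g - L a R h) / (R : ℂ)) (b := L a R h / R - D * M h)
    (c := (D : ℂ) * (M h - M g))
  linarith

end

/-- the bump function -/
noncomputable def bu (c l δ : ℝ) (y : AddCircle (1 : ℝ)) : ℝ :=
  max 0 (min 1 ((l + δ - ‖y - (c : AddCircle (1 : ℝ))‖) / δ))

lemma bu_cont (c l δ : ℝ) : Continuous (bu c l δ) := by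
  unfold bu
  fun_prop

/-- the bump function as a complex valued continuous function -/
noncomputable def bc (c l δ : ℝ) : C(AddCircle (1 : ℝ), ℂ) :=
  ⟨fun y => (bu c l δ y : ℂ), Complex.continuous_ofReal.comp (bu_cont c l δ)⟩

lemma bu_nonneg (c l δ : ℝ) (y : AddCircle (1 : ℝ)) : 0 ≤ bu c l δ y := le_max_left _ _

lemma bu_le (c l δ : ℝ) (y : AddCircle (1 : ℝ)) : bu c l δ y ≤ 1 := by
  unfold bu
  exact max_le (by norm_num) (min_le_left _ _)

lemma nrm {c x : ℝ} (h : |x - c| ≤ 1 / 2) : ‖(x : AddCircle (1 : ℝ)) - (c : AddCircle (1 : ℝ))‖ = |x - c| := by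
  have e1 : (x : AddCircle (1 : ℝ)) - (c : AddCircle (1 : ℝ)) = ((x - c : ℝ) : AddCircle (1 : ℝ)) := by
    rw [AddCircle.coe_sub]
  rw [e1, (AddCircle.norm_coe_eq_abs_iff (1 : ℝ) (by norm_num)).2]
  simpa using h

lemma bu_one {c l δ x : ℝ} (hδ : 0 < δ) (h : |x - c| ≤ 1 / 2) (hx : |x - c| ≤ l) :
    bu c l δ (x : AddCircle (1 : ℝ)) = 1 := by
  unfold bu
  rw [nrm h]
  have h1 : 1 ≤ (l + δ - |x - c|) / δ := by
    rw [le_div_iff₀ hδ]
    linarith
  rw [min_eq_left h1]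
  norm_num

lemma bu_zero {c l δ x : ℝ} (hδ : 0 < δ) (h : |x - c| ≤ 1 / 2) (hx : l + δ ≤ |x - c|) :
    bu c l δ (x : AddCircle (1 : ℝ)) = 0 := by
  unfold bu
  rw [nrm h]
  have h1 : (l + δ - |x - c|) / δ ≤ 0 := by
    apply div_nonpos_of_nonpos_of_nonneg _ hδ.le
    linarith
  have h2 : min 1 ((l + δ - |x - c|) / δ) ≤ 0 := (min_le_right _ _).trans h1
  exact max_eq_left h2

/-- the integral of a periodic function against a bump -/
lemma int_bump {G : ℝ → ℝ} (hG : Continuous G) (hp : Function.Periodic G 1) (h0 : ∀ x, 0 ≤ G x)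
    {c l δ : ℝ} (hδ : 0 < δ) (hl : 0 ≤ l) (hl2 : l + δ ≤ 1 / 2) :
    (∫ x in (c - l)..(c + l), G x) ≤ ∫ x in (0 : ℝ)..1, bu c l δ (x : AddCircle (1 : ℝ)) * G x ∧
    (∫ x in (0 : ℝ)..1, bu c l δ (x : AddCircle (1 : ℝ)) * G x) ≤ ∫ x in (c - (l + δ))..(c + (l + δ)), G x := by
  have hcont : Continuous fun x : ℝ => bu c l δ (x : AddCircle (1 : ℝ)) * G x :=
    ((bu_cont c l δ).comp (AddCircle.continuous_mk' 1)).mul hG
  have hper : Function.Periodic (fun x : ℝ => bu c l δ (x : AddCircle (1 : ℝ)) * G x) 1 := by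
    intro x
    simp only
    rw [hp x, AddCircle.coe_add_period]
  have e1 : (∫ x in (0 : ℝ)..1, bu c l δ (x : AddCircle (1 : ℝ)) * G x) =
      ∫ x in (c - 1 / 2)..(c + 1 / 2), bu c l δ (x : AddCircle (1 : ℝ)) * G x := by
    have h1 := hper.intervalIntegral_add_eq 0 (c - 1 / 2)
    rw [zero_add, show c - 1 / 2 + 1 = c + 1 / 2 by ring] at h1
    exact h1
  have hI : ∀ u v : ℝ, IntervalIntegrable (fun x : ℝ => bu c l δ (x : AddCircle (1 : ℝ)) * G x) volume u v :=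
    fun u v => hcont.intervalIntegrable u v
  constructor
  · rw [e1]
    have h1 : (∫ x in (c - l)..(c + l), G x) = ∫ x in (c - l)..(c + l), bu c l δ (x : AddCircle (1 : ℝ)) * G x := by
      apply intervalIntegral.integral_congr
      intro x hx
      rw [Set.uIcc_of_le (by linarith), Set.mem_Icc] at hx
      have hx2 : |x - c| ≤ l := abs_le.2 ⟨by linarith [hx.1], by linarith [hx.2]⟩
      simp only
      rw [bu_one hδ (by linarith) hx2, one_mul]
    rw [h1]
    apply intervalIntegral.integral_mono_interval (by linarith) (by linarith) (by linarith)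
    · exact Filter.Eventually.of_forall fun x => mul_nonneg (bu_nonneg _ _ _ _) (h0 x)
    · exact hI _ _
  · rw [e1]
    have h2 : (∫ x in (c - 1 / 2)..(c - (l + δ)), bu c l δ (x : AddCircle (1 : ℝ)) * G x) = 0 := by
      rw [← intervalIntegral.integral_zero (a := c - 1 / 2) (b := c - (l + δ)) (μ := volume) (E := ℝ)]
      apply intervalIntegral.integral_congr
      intro x hx
      rw [Set.uIcc_of_le (by linarith), Set.mem_Icc] at hx
      have hx2 : |x - c| ≤ 1 / 2 := abs_le.2 ⟨by linarith [hx.1], by linarith [hx.2]⟩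
      have hx3 : l + δ ≤ |x - c| := by
        rw [abs_of_nonpos (by linarith [hx.2])]
        linarith [hx.2]
      simp only
      rw [bu_zero hδ hx2 hx3, zero_mul]
    have h3 : (∫ x in (c + (l + δ))..(c + 1 / 2), bu c l δ (x : AddCircle (1 : ℝ)) * G x) = 0 := by
      rw [← intervalIntegral.integral_zero (a := c + (l + δ)) (b := c + 1 / 2) (μ := volume) (E := ℝ)]
      apply intervalIntegral.integral_congr
      intro x hx
      rw [Set.uIcc_of_le (by linarith), Set.mem_Icc] at hx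
      have hx2 : |x - c| ≤ 1 / 2 := abs_le.2 ⟨by linarith [hx.1], by linarith [hx.2]⟩
      have hx3 : l + δ ≤ |x - c| := by
        rw [abs_of_nonneg (by linarith [hx.1])]
        linarith [hx.1]
      simp only
      rw [bu_zero hδ hx2 hx3, zero_mul]
    rw [← intervalIntegral.integral_add_adjacent_intervals (hI (c - 1 / 2) (c - (l + δ)))
      (hI (c - (l + δ)) (c + 1 / 2)),
      ← intervalIntegral.integral_add_adjacent_intervals (hI (c - (l + δ)) (c + (l + δ)))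
      (hI (c + (l + δ)) (c + 1 / 2)), h2, h3, zero_add, add_zero]
    apply intervalIntegral.integral_mono_on (by linarith) (hI _ _) (hG.intervalIntegrable _ _)
    intro x _
    have h4 := bu_le c l δ (x : AddCircle (1 : ℝ))
    have h5 := bu_nonneg c l δ (x : AddCircle (1 : ℝ))
    have h6 := h0 x
    nlinarith

end Pool.Agent.T2h81.EA
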