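import Pool.Agent.T2h81.EA.A2

/-! Project EA (helper81): the density of the squarefree numbers, as a mean value of `μ ^ 2`. -/

set_option autoImplicit false

open Finset Filter Topology MeasureTheory

namespace Pool.Agent.T2h81.EA

/-- the Möbius function -/
noncomputable def mu (n : ℕ) : ℝ := ((ArithmeticFunction.moebius n : ℤ) : ℝ)

lemma mu_abs (n : ℕ) : |mu n| ≤ 1 := by
  have := ArithmeticFunction.abs_moebius_le_one (n := n)
  unfold mu
  exact_mod_cast this

lemma mu_zero : mu 0 = 0 := by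
  unfold mu
  simp

/-- (proof from the starting library, `H382R2.SqFree`) -/
lemma mu_sq (n : ℕ) (hn : n ≠ 0) : mu n ^ 2 = ∑ d ∈ Icc 1 n, if d ^ 2 ∣ n then mu d else 0 := by
  obtain ⟨a, b, hab, ha⟩ := Nat.sq_mul_squarefree n
  have hb0 : b ≠ 0 := by rintro rfl; apply hn; rw [← hab]; simp
  have ha0 : a ≠ 0 := by rintro rfl; apply hn; rw [← hab]; simp
  have key : ∀ d : ℕ, d ^ 2 ∣ n ↔ d ∣ b := by
    intro d
    constructor
    · intro h
      have hd0 : d ≠ 0 := by
        rintro rfl
        rw [zero_pow two_ne_zero, zero_dvd_iff] at h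
        exact hn h
      rw [← Nat.factorization_le_iff_dvd (pow_ne_zero _ hd0) hn] at h
      rw [← Nat.factorization_le_iff_dvd hd0 hb0]
      intro p
      have h1 := h p
      rw [← hab, Nat.factorization_mul (pow_ne_zero _ hb0) ha0, Nat.factorization_pow,
        Nat.factorization_pow] at h1
      have h2 := ha.natFactorization_le_one p
      simp only [Finsupp.coe_smul, Finsupp.coe_add, Pi.add_apply, Pi.smul_apply, smul_eq_mul] at h1
      omega
    · intro h
      rw [← hab]
      exact Dvd.dvd.mul_right (pow_dvd_pow_of_dvd h 2) a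
  have h1 : (∑ d ∈ Icc 1 n, if d ^ 2 ∣ n then mu d else 0)
      = ∑ d ∈ b.divisors, mu d := by
    rw [← Finset.sum_filter]
    apply Finset.sum_congr _ (fun _ _ => rfl)
    ext d
    simp only [Finset.mem_filter, Finset.mem_Icc, Nat.mem_divisors, key]
    constructor
    · rintro ⟨-, h⟩; exact ⟨h, hb0⟩
    · rintro ⟨h, -⟩
      refine ⟨⟨Nat.pos_of_dvd_of_pos h (Nat.pos_of_ne_zero hb0), ?_⟩, h⟩
      have h3 : d ≤ b := Nat.le_of_dvd (Nat.pos_of_ne_zero hb0) h
      have h4 : b ∣ n := by rw [← hab]; exact Dvd.dvd.mul_right (dvd_pow_self b two_ne_zero) a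
      exact h3.trans (Nat.le_of_dvd (Nat.pos_of_ne_zero hn) h4)
  rw [h1]
  have h2 : (∑ d ∈ b.divisors, (ArithmeticFunction.moebius d : ℤ)) = if b = 1 then 1 else 0 := by
    have := congrArg (fun f => f b) ArithmeticFunction.moebius_mul_coe_zeta
    simp only [ArithmeticFunction.coe_mul_zeta_apply, ArithmeticFunction.one_apply] at this
    exact this
  have h2' : (∑ d ∈ b.divisors, mu d) = if b = 1 then 1 else 0 := by
    have := congrArg (fun z : ℤ => (z : ℝ)) h2
    unfold mu
    push_cast at this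
    exact this
  rw [h2']
  have h3 : mu n ^ 2 = if Squarefree n then 1 else 0 := by
    have := congrArg (fun z : ℤ => (z : ℝ)) (ArithmeticFunction.moebius_sq (n := n))
    unfold mu
    push_cast at this
    exact this
  rw [h3]
  have h4 : Squarefree n ↔ b = 1 := by
    constructor
    · intro h
      have := h b (by rw [← hab, ← sq]; exact dvd_mul_right _ _)
      exact Nat.isUnit_iff.mp this
    · rintro rfl
      rw [← hab]; simpa using ha
  simp only [h4]

/-- `∑ μ(d)/d² = 6/π²` (proof from the starting library, `H409R2.MkConst`) -/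
lemma mu_hasSum : HasSum (fun d : ℕ => mu d * (1 / (d : ℝ) ^ 2)) (6 / Real.pi ^ 2) := by
  have h2 : (1 : ℝ) < (2 : ℂ).re := by norm_num
  have hs : LSeriesSummable (fun n => ((ArithmeticFunction.moebius n : ℤ) : ℂ)) 2 :=
    ArithmeticFunction.LSeriesSummable_moebius_iff.mpr h2
  have hL := ArithmeticFunction.LSeries_zeta_mul_Lseries_moebius h2
  rw [ArithmeticFunction.LSeries_zeta_eq_riemannZeta h2, riemannZeta_two] at hL
  have hpi : (Real.pi : ℂ) ≠ 0 := by exact_mod_cast Real.pi_ne_zero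
  have hval : LSeries (fun n => ((ArithmeticFunction.moebius n : ℤ) : ℂ)) 2 = 6 / (Real.pi : ℂ) ^ 2 := by
    field_simp
    field_simp at hL
    linear_combination hL
  have hsum := hs.LSeriesHasSum
  rw [hval] at hsum
  have h3 : HasSum (fun d : ℕ => ((mu d * (1 / (d : ℝ) ^ 2) : ℝ) : ℂ)) (((6 / Real.pi ^ 2 : ℝ)) : ℂ) := by
    have e : (((6 / Real.pi ^ 2 : ℝ)) : ℂ) = 6 / (Real.pi : ℂ) ^ 2 := by push_cast; ring
    rw [e]
    unfold LSeriesHasSum at hsum
    refine hsum.congr_fun ?_
    intro d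
    rcases eq_or_ne d 0 with rfl | hd
    · simp [mu]
    · rw [LSeries.term_of_ne_zero hd]
      unfold mu
      push_cast
      rw [show ((d : ℂ) ^ (2 : ℂ)) = (d : ℂ) ^ (2 : ℕ) by norm_cast]
      ring
  exact Complex.hasSum_ofReal.mp h3

/-- the terms -/
noncomputable def ft (X d : ℕ) : ℝ := mu d * ((X / d ^ 2 : ℕ) : ℝ) / X

lemma ft_abs (X d : ℕ) : ‖ft X d‖ ≤ 1 / (d : ℝ) ^ 2 := by
  unfold ft
  rcases Nat.eq_zero_or_pos d with hd | hd
  · subst hd
    rw [mu_zero]
    simp
  have hd' : (0 : ℝ) < d := by exact_mod_cast hd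
  rw [Real.norm_eq_abs, abs_div, abs_mul, Nat.abs_cast, Nat.abs_cast]
  rcases Nat.eq_zero_or_pos X with h0 | h0
  · rw [h0]
    simp
  · have hX : (0 : ℝ) < X := by exact_mod_cast h0
    rw [div_le_iff₀ hX]
    have h1 : ((X / d ^ 2 : ℕ) : ℝ) ≤ X / (d : ℝ) ^ 2 := by
      have := Nat.cast_div_le (α := ℝ) (m := X) (n := d ^ 2)
      push_cast at this
      exact this
    have h2 : 1 / (d : ℝ) ^ 2 * X = 1 * (X / (d : ℝ) ^ 2) := by ring
    rw [h2]
    exact mul_le_mul (mu_abs d) h1 (by positivity) (by norm_num)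

lemma ft_sum (X : ℕ) : ∑' d, ft X d = (∑ n ∈ Icc 1 X, mu n ^ 2) / X := by
  have hz : ∀ d ∉ Icc 1 X, ft X d = 0 := by
    intro d hd
    unfold ft
    rcases Nat.eq_zero_or_pos d with hd0 | hd0
    · subst hd0
      rw [mu_zero]
      simp
    · have h1 : X < d := by
        rw [mem_Icc] at hd
        omega
      have h2 : X / d ^ 2 = 0 := by
        apply Nat.div_eq_of_lt
        nlinarith
      rw [h2]
      simp
  rw [tsum_eq_sum hz, Finset.sum_div]
  have h1 : ∀ n ∈ Icc 1 X, mu n ^ 2 / X = ∑ d ∈ Icc 1 X, if d ^ 2 ∣ n then mu d / X else 0 := by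
    intro n hn
    rw [mem_Icc] at hn
    rw [mu_sq n (by omega), Finset.sum_div]
    have h2 : ∑ d ∈ Icc 1 n, (if d ^ 2 ∣ n then mu d else 0) / (X : ℝ) =
        ∑ d ∈ Icc 1 n, if d ^ 2 ∣ n then mu d / (X : ℝ) else 0 := by
      apply Finset.sum_congr rfl
      intro d _
      split_ifs <;> simp
    rw [h2]
    apply Finset.sum_subset
    · intro d hd
      rw [mem_Icc] at hd ⊢
      omega
    · intro d hd hdn
      rw [mem_Icc] at hd hdn
      rw [if_neg]
      intro h
      have h3 := Nat.le_of_dvd (by omega) h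
      have h4 : n < d := by omega
      nlinarith
  rw [Finset.sum_congr rfl h1, Finset.sum_comm]
  apply Finset.sum_congr rfl
  intro d _
  rw [← Finset.sum_filter, Finset.sum_const, nsmul_eq_mul]
  have h3 : ((Icc 1 X).filter fun n => d ^ 2 ∣ n).card = X / d ^ 2 := by
    rw [← Nat.Ioc_filter_dvd_card_eq_div]
    rfl
  rw [h3]
  unfold ft
  ring

/-- the density of the squarefree numbers -/
theorem mu_dens : Tendsto (fun X : ℕ => (∑ n ∈ Icc 1 X, mu n ^ 2) / (X : ℝ)) atTop (𝓝 (6 / Real.pi ^ 2)) := by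
  have h1 : Tendsto (fun X : ℕ => ∑' d, ft X d) atTop (𝓝 (∑' d : ℕ, mu d * (1 / (d : ℝ) ^ 2))) := by
    refine tendsto_tsum_of_dominated_convergence (bound := fun d : ℕ => 1 / (d : ℝ) ^ 2)
      (Real.summable_one_div_nat_pow.2 (by norm_num)) ?_ ?_
    · intro d
      rcases Nat.eq_zero_or_pos d with hd | hd
      · subst hd
        unfold ft
        simp [mu_zero]
      have hd' : (0 : ℝ) < d := by exact_mod_cast hd
      have h2 : Tendsto (fun X : ℕ => ((X / d ^ 2 : ℕ) : ℝ) / X) atTop (𝓝 (1 / (d : ℝ) ^ 2)) := by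
        rw [tendsto_iff_dist_tendsto_zero]
        refine squeeze_zero' (Eventually.of_forall fun X => dist_nonneg)
          (g := fun X : ℕ => 1 / (X : ℝ)) ?_ tendsto_one_div_atTop_nhds_zero_nat
        filter_upwards [eventually_gt_atTop 0] with X hX
        have hX' : (0 : ℝ) < X := by exact_mod_cast hX
        rw [Real.dist_eq]
        have h4 : ((X / d ^ 2 : ℕ) : ℝ) / X - 1 / (d : ℝ) ^ 2 =
            (((X / d ^ 2 : ℕ) : ℝ) - X / (d : ℝ) ^ 2) / X := by
          field_simp
        rw [h4, abs_div, Nat.abs_cast]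
        gcongr
        have h5 : ((X / d ^ 2 : ℕ) : ℝ) ≤ X / (d : ℝ) ^ 2 := by
          have := Nat.cast_div_le (α := ℝ) (m := X) (n := d ^ 2)
          push_cast at this
          exact this
        have h6 : (X : ℝ) / (d : ℝ) ^ 2 ≤ ((X / d ^ 2 : ℕ) : ℝ) + 1 := by
          rw [div_le_iff₀ (by positivity)]
          have h7 : X < d ^ 2 * (X / d ^ 2 + 1) := Nat.lt_mul_div_succ X (by positivity)
          have h8 : (X : ℝ) < (d : ℝ) ^ 2 * (((X / d ^ 2 : ℕ) : ℝ) + 1) := by exact_mod_cast h7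
          linarith
        rw [abs_le]
        constructor <;> linarith
      have h5 := h2.const_mul (mu d)
      refine h5.congr fun X => ?_
      unfold ft
      ring
    · exact Eventually.of_forall fun X d => ft_abs X d
  rw [mu_hasSum.tsum_eq] at h1
  refine h1.congr fun X => ?_
  rw [ft_sum]

end Pool.Agent.T2h81.EA
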