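import Pool.Agent.T2h81.EA.A2

/-! Project EA (helper81): the square of the sum has no local mean. -/

set_option autoImplicit false

open Finset Filter Topology MeasureTheory

namespace Pool.Agent.T2h81.EA

/-- functionals which vanish at the characters in the limit -/
lemma tend_gen {𝓕 : Filter ℕ} (h𝓕 : 𝓕 ≤ atTop) (Λ : ℕ → C(AddCircle (1 : ℝ), ℂ) → ℂ)
    (hadd : ∀ R g h, Λ R (g + h) = Λ R g + Λ R h) (hsm : ∀ R c g, Λ R (c • g) = c * Λ R g)
    (hb : ∀ R g, ‖Λ R g‖ ≤ ‖g‖ * R)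
    (hk : ∀ k : ℤ, Tendsto (fun R : ℕ => Λ R (fourier k) / (R : ℂ)) 𝓕 (𝓝 0))
    (g : C(AddCircle (1 : ℝ), ℂ)) : Tendsto (fun R : ℕ => Λ R g / (R : ℂ)) 𝓕 (𝓝 0) := by
  have : Fact ((0 : ℝ) < 1) := ⟨by norm_num⟩
  have hz : ∀ R, Λ R 0 = 0 := by
    intro R
    have h1 := hb R 0
    rw [norm_zero, zero_mul] at h1
    exact norm_le_zero_iff.1 h1
  have hsub : ∀ R (g h : C(AddCircle (1 : ℝ), ℂ)), Λ R g - Λ R h = Λ R (g - h) := by
    intro R g h
    have h1 := hadd R (g - h) h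
    rw [sub_add_cancel] at h1
    rw [h1]
    ring
  have hspan : ∀ h ∈ Submodule.span ℂ (Set.range (@fourier 1)),
      Tendsto (fun R : ℕ => Λ R h / (R : ℂ)) 𝓕 (𝓝 0) := by
    intro h hh
    induction hh using Submodule.span_induction with
    | mem x hx =>
      obtain ⟨k, rfl⟩ := hx
      exact hk k
    | zero =>
      simp only [hz, zero_div]
      exact tendsto_const_nhds
    | add x y _ _ hx hy =>
      have h1 := hx.add hy
      rw [add_zero] at h1
      refine h1.congr fun R => ?_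
      rw [hadd, add_div]
    | smul c x _ hx =>
      have h1 := hx.const_mul c
      rw [mul_zero] at h1
      refine h1.congr fun R => ?_
      rw [hsm, mul_div_assoc]
  rw [Metric.tendsto_nhds]
  intro ε hε
  have hcl : g ∈ (Submodule.span ℂ (Set.range (@fourier 1))).topologicalClosure := by
    rw [span_fourier_closure_eq_top]
    trivial
  obtain ⟨h, hh, hgh⟩ := Metric.mem_closure_iff.1 hcl (ε / 2) (by positivity)
  rw [dist_eq_norm] at hgh
  have h1 := Metric.tendsto_nhds.1 (hspan h hh) (ε / 2) (by positivity)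
  have h0 : ∀ᶠ R : ℕ in 𝓕, 1 ≤ R := h𝓕 (eventually_ge_atTop 1)
  filter_upwards [h1, h0] with R hR hR1
  have hR0 : (0 : ℝ) < R := by exact_mod_cast hR1
  rw [dist_zero_right] at hR ⊢
  have e1 : Λ R g / (R : ℂ) = (Λ R g - Λ R h) / R + Λ R h / R := by ring
  rw [e1]
  have h4 : ‖(Λ R g - Λ R h) / (R : ℂ)‖ ≤ ε / 2 := by
    rw [norm_div, Complex.norm_natCast, div_le_iff₀ hR0, hsub]
    exact (hb R _).trans (by gcongr)
  have h7 := norm_add_le ((Λ R g - Λ R h) / (R : ℂ)) (Λ R h / R)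
  linarith

/-- the integral of the square against `g` -/
noncomputable def L2 (a : ℕ → ℝ) (R : ℕ) (g : C(AddCircle (1 : ℝ), ℂ)) : ℂ :=
  ∫ x in (0 : ℝ)..1, g (x : AddCircle (1 : ℝ)) * F a R x ^ 2

lemma gF2_cont (a : ℕ → ℝ) (R : ℕ) (g : C(AddCircle (1 : ℝ), ℂ)) :
    Continuous (fun x : ℝ => g (x : AddCircle (1 : ℝ)) * F a R x ^ 2) := by
  have h1 := F_cont a R
  have h2 := g_cont g
  fun_prop

lemma L2_add (a : ℕ → ℝ) (R : ℕ) (g h : C(AddCircle (1 : ℝ), ℂ)) : L2 a R (g + h) = L2 a R g + L2 a R h := by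
  unfold L2
  rw [← intervalIntegral.integral_add ((gF2_cont a R g).intervalIntegrable _ _)
    ((gF2_cont a R h).intervalIntegrable _ _)]
  apply intervalIntegral.integral_congr
  intro x _
  simp only [ContinuousMap.add_apply]
  ring

lemma L2_smul (a : ℕ → ℝ) (R : ℕ) (c : ℂ) (g : C(AddCircle (1 : ℝ), ℂ)) : L2 a R (c • g) = c * L2 a R g := by
  unfold L2
  rw [← intervalIntegral.integral_const_mul]
  apply intervalIntegral.integral_congr
  intro x _
  simp only [ContinuousMap.smul_apply, smul_eq_mul]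
  ring

lemma L2_le (a : ℕ → ℝ) (ha : ∀ n, |a n| ≤ 1) (R : ℕ) (g : C(AddCircle (1 : ℝ), ℂ)) :
    ‖L2 a R g‖ ≤ ‖g‖ * R := by
  have hc := F_cont a R
  unfold L2
  calc ‖∫ x in (0 : ℝ)..1, g (x : AddCircle (1 : ℝ)) * F a R x ^ 2‖
      ≤ ∫ x in (0 : ℝ)..1, ‖g (x : AddCircle (1 : ℝ)) * F a R x ^ 2‖ :=
        intervalIntegral.norm_integral_le_integral_norm (by norm_num)
    _ ≤ ∫ x in (0 : ℝ)..1, ‖g‖ * ‖F a R x‖ ^ 2 := by
        apply intervalIntegral.integral_mono_on (by norm_num)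
        · exact (gF2_cont a R g).norm.intervalIntegrable _ _
        · apply Continuous.intervalIntegrable
          fun_prop
        · intro x _
          rw [norm_mul, norm_pow]
          gcongr
          exact ContinuousMap.norm_coe_le_norm g _
    _ = ‖g‖ * ∫ x in (0 : ℝ)..1, ‖F a R x‖ ^ 2 := intervalIntegral.integral_const_mul _ _
    _ ≤ _ := by
        gcongr
        exact total a ha R

lemma sq_eq (a : ℕ → ℝ) (R : ℕ) (x : ℝ) : F a R x ^ 2 =
    ∑ m ∈ Icc 1 R, ∑ n ∈ Icc 1 R, ((a m * a n : ℝ) : ℂ) *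
      Complex.exp (2 * Real.pi * Complex.I * (((m : ℤ) + n : ℤ) : ℂ) * x) := by
  rw [sq]
  unfold F
  rw [Finset.sum_mul_sum]
  apply Finset.sum_congr rfl
  intro m _
  apply Finset.sum_congr rfl
  intro n _
  have e2 : (2 * Real.pi * Complex.I * (((m : ℤ) + n : ℤ) : ℂ) * x : ℂ) =
      2 * Real.pi * Complex.I * m * x + 2 * Real.pi * Complex.I * n * x := by
    push_cast
    ring
  rw [e2, Complex.exp_add]
  push_cast
  ring

lemma L2_four (a : ℕ → ℝ) (R : ℕ) (k : ℤ) : L2 a R (fourier k) =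
    ((∑ m ∈ Icc 1 R, ∑ n ∈ Icc 1 R, if k + ((m : ℤ) + n) = 0 then a m * a n else 0 : ℝ) : ℂ) := by
  unfold L2
  have h1 : ∀ x : ℝ, fourier k (x : AddCircle (1 : ℝ)) * F a R x ^ 2 =
      ∑ m ∈ Icc 1 R, ∑ n ∈ Icc 1 R, ((a m * a n : ℝ) : ℂ) *
        Complex.exp (2 * Real.pi * Complex.I * ((k + ((m : ℤ) + n) : ℤ) : ℂ) * x) := by
    intro x
    rw [sq_eq, four_apply, Finset.mul_sum]
    apply Finset.sum_congr rfl
    intro m _
    rw [Finset.mul_sum]
    apply Finset.sum_congr rfl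
    intro n _
    have e2 : (2 * Real.pi * Complex.I * ((k + ((m : ℤ) + n) : ℤ) : ℂ) * x : ℂ) =
        2 * Real.pi * Complex.I * k * x + 2 * Real.pi * Complex.I * (((m : ℤ) + n : ℤ) : ℂ) * x := by
      push_cast
      ring
    rw [e2, Complex.exp_add]
    ring
  have h2 : (∫ x in (0 : ℝ)..1, fourier k (x : AddCircle (1 : ℝ)) * F a R x ^ 2) =
      ∫ x in (0 : ℝ)..1, ∑ m ∈ Icc 1 R, ∑ n ∈ Icc 1 R, ((a m * a n : ℝ) : ℂ) *
        Complex.exp (2 * Real.pi * Complex.I * ((k + ((m : ℤ) + n) : ℤ) : ℂ) * x) := by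
    apply intervalIntegral.integral_congr
    intro x _
    exact h1 x
  rw [h2, intervalIntegral.integral_finsetSum, Complex.ofReal_sum]
  · apply Finset.sum_congr rfl
    intro m _
    rw [intervalIntegral.integral_finsetSum, Complex.ofReal_sum]
    · apply Finset.sum_congr rfl
      intro n _
      rw [intervalIntegral.integral_const_mul, int_exp]
      split_ifs <;> simp
    · intro n _
      apply Continuous.intervalIntegrable
      fun_prop
  · intro m _
    apply Continuous.intervalIntegrable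
    fun_prop

lemma L2_four_le (a : ℕ → ℝ) (ha : ∀ n, |a n| ≤ 1) (R : ℕ) (k : ℤ) : ‖L2 a R (fourier k)‖ ≤ k.natAbs := by
  rw [L2_four, Complex.norm_real, Real.norm_eq_abs]
  refine (Finset.abs_sum_le_sum_abs _ _).trans ?_
  have h1 : ∀ m ∈ Icc 1 R, |∑ n ∈ Icc 1 R, if k + ((m : ℤ) + n) = 0 then a m * a n else 0| ≤
      if m ≤ k.natAbs then (1 : ℝ) else 0 := by
    intro m _
    by_cases hm : ∃ n ∈ Icc 1 R, k + ((m : ℤ) + n) = 0
    · obtain ⟨n, hn, hmn⟩ := hm
      rw [if_pos (by omega), Finset.sum_eq_single n]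
      · rw [if_pos hmn, abs_mul]
        have := ha m
        have := ha n
        have := abs_nonneg (a m)
        have := abs_nonneg (a n)
        nlinarith
      · intro b _ hbn
        rw [if_neg]
        intro h
        apply hbn
        omega
      · intro h
        exact absurd hn h
    · rw [Finset.sum_eq_zero]
      · rw [abs_zero]
        split_ifs <;> norm_num
      · intro n hn
        rw [if_neg]
        intro h
        exact hm ⟨n, hn, h⟩
  refine (Finset.sum_le_sum h1).trans ?_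
  rw [← Finset.sum_filter, Finset.sum_const, nsmul_eq_mul, mul_one]
  have h5 : (Icc 1 R).filter (fun m => m ≤ k.natAbs) ⊆ Icc 1 k.natAbs := by
    intro m hm
    rw [Finset.mem_filter, Finset.mem_Icc] at hm
    rw [Finset.mem_Icc]
    omega
  have h6 := Finset.card_le_card h5
  rw [Nat.card_Icc] at h6
  exact_mod_cast (by omega : ((Icc 1 R).filter (fun m => m ≤ k.natAbs)).card ≤ k.natAbs)

lemma L2_tend {a : ℕ → ℝ} (ha : ∀ n, |a n| ≤ 1) {𝓕 : Filter ℕ} (h𝓕 : 𝓕 ≤ atTop)
    (g : C(AddCircle (1 : ℝ), ℂ)) : Tendsto (fun R : ℕ => L2 a R g / (R : ℂ)) 𝓕 (𝓝 0) := by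
  refine tend_gen h𝓕 (L2 a) (L2_add a) (L2_smul a) (L2_le a ha) (fun k => ?_) g
  rw [tendsto_zero_iff_norm_tendsto_zero]
  refine squeeze_zero (fun R => norm_nonneg _) (fun R => ?_)
    ((tendsto_const_div_atTop_nhds_zero_nat (k.natAbs : ℝ)).mono_left h𝓕)
  rw [norm_div, Complex.norm_natCast]
  gcongr
  exact L2_four_le a ha R k

section
variable {a : ℕ → ℝ} {D : ℝ} {𝓕 : Filter ℕ}

lemma bump_sq (ha : ∀ n, |a n| ≤ 1) (h𝓕 : 𝓕 ≤ atTop) (c l δ : ℝ) :
    Tendsto (fun R : ℕ => (∫ x in (0 : ℝ)..1, bu c l δ (x : AddCircle (1 : ℝ)) * (F a R x ^ 2).re) / (R : ℝ))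
      𝓕 (𝓝 0) ∧
    Tendsto (fun R : ℕ => (∫ x in (0 : ℝ)..1, bu c l δ (x : AddCircle (1 : ℝ)) * (F a R x ^ 2).im) / (R : ℝ))
      𝓕 (𝓝 0) := by
  have h1 := L2_tend ha h𝓕 (bc c l δ)
  have hI : ∀ R : ℕ, IntervalIntegrable (fun x : ℝ => bc c l δ (x : AddCircle (1 : ℝ)) * F a R x ^ 2)
      volume 0 1 := fun R => (gF2_cont a R (bc c l δ)).intervalIntegrable _ _
  have e1 : ∀ R : ℕ, (L2 a R (bc c l δ)).re =
      ∫ x in (0 : ℝ)..1, bu c l δ (x : AddCircle (1 : ℝ)) * (F a R x ^ 2).re := by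
    intro R
    unfold L2
    have h2 := Complex.reCLM.intervalIntegral_comp_comm (hI R)
    simp only [Complex.reCLM_apply] at h2
    rw [← h2]
    apply intervalIntegral.integral_congr
    intro x _
    simp only [bc, ContinuousMap.coe_mk, Complex.re_ofReal_mul]
  have e2 : ∀ R : ℕ, (L2 a R (bc c l δ)).im =
      ∫ x in (0 : ℝ)..1, bu c l δ (x : AddCircle (1 : ℝ)) * (F a R x ^ 2).im := by
    intro R
    unfold L2
    have h2 := Complex.imCLM.intervalIntegral_comp_comm (hI R)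
    simp only [Complex.imCLM_apply] at h2
    rw [← h2]
    apply intervalIntegral.integral_congr
    intro x _
    simp only [bc, ContinuousMap.coe_mk, Complex.im_ofReal_mul]
  have hre : ∀ R : ℕ, (L2 a R (bc c l δ) / (R : ℂ)).re = (L2 a R (bc c l δ)).re / (R : ℝ) := by
    intro R
    exact Complex.div_natCast_re _ _
  have him : ∀ R : ℕ, (L2 a R (bc c l δ) / (R : ℂ)).im = (L2 a R (bc c l δ)).im / (R : ℝ) := by
    intro R
    exact Complex.div_natCast_im _ _
  constructor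
  · have h2 := (Complex.continuous_re.tendsto _).comp h1
    rw [Complex.zero_re] at h2
    refine h2.congr fun R => ?_
    simp only [Function.comp]
    rw [hre, e1]
  · have h2 := (Complex.continuous_im.tendsto _).comp h1
    rw [Complex.zero_im] at h2
    refine h2.congr fun R => ?_
    simp only [Function.comp]
    rw [him, e2]

end

end Pool.Agent.T2h81.EA
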