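import Pool.Agent.T2h81.EA.B1

/-! Project EA (helper81): from bump functions to all arcs, uniformly. -/

set_option autoImplicit false

open Finset Filter Topology MeasureTheory

namespace Pool.Agent.T2h81.EA

/-- continuous, periodic, nonnegative -/
structure Nice (g : ℝ → ℝ) : Prop where
  cont : Continuous g
  per : Function.Periodic g 1
  nonneg : ∀ x, 0 ≤ g x

/-- the integral over an interval -/
noncomputable def En (g : ℝ → ℝ) (α β : ℝ) : ℝ := ∫ x in α..β, g x

section
variable {g : ℝ → ℝ} (hg : Nice g)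
include hg

lemma En_add (α β γ : ℝ) : En g α β + En g β γ = En g α γ :=
  intervalIntegral.integral_add_adjacent_intervals (hg.cont.intervalIntegrable _ _)
    (hg.cont.intervalIntegrable _ _)

lemma En_nonneg {α β : ℝ} (h : α ≤ β) : 0 ≤ En g α β :=
  intervalIntegral.integral_nonneg h fun x _ => hg.nonneg x

lemma En_mono {α β γ δ : ℝ} (h1 : γ ≤ α) (h3 : β ≤ δ) :
    En g α β ≤ En g γ δ := by
  have e1 := En_add hg γ α δ
  have e2 := En_add hg α β δ
  have e3 := En_nonneg hg h1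
  have e4 := En_nonneg hg h3
  linarith

lemma En_shift (α β : ℝ) (k : ℤ) : En g (α + k) (β + k) = En g α β := by
  unfold En
  rw [← intervalIntegral.integral_comp_add_right g (k : ℝ)]
  apply intervalIntegral.integral_congr
  intro x _
  have h := hg.per.int_mul k x
  simp only [mul_one] at h
  exact h

end

/-- the limits of the integrals against bump functions -/
def Bump (G : ℕ → ℝ → ℝ) (D : ℝ) (𝓕 : Filter ℕ) : Prop := ∀ c l δ : ℝ, Tendsto (fun R : ℕ =>
  (∫ x in (0 : ℝ)..1, bu c l δ (x : AddCircle (1 : ℝ)) * G R x) / (R : ℝ)) 𝓕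
  (𝓝 (D * ∫ x in (0 : ℝ)..1, bu c l δ (x : AddCircle (1 : ℝ))))

section
variable {G : ℕ → ℝ → ℝ} {D : ℝ} {𝓕 : Filter ℕ}

/-- one arc -/
lemma one_arc (hG : ∀ R, Nice (G R)) (hB : Bump G D 𝓕) (h𝓕 : 𝓕 ≤ atTop) (hD0 : 0 ≤ D)
    (c l : ℝ) (hl : 0 < l) (hl2 : l < 1 / 2) (η : ℝ) (hη : 0 < η) :
    ∀ᶠ R : ℕ in 𝓕, |En (G R) (c - l) (c + l) - D * (2 * l) * R| ≤ η * R := by
  obtain ⟨δ, hδ, hδl, hδl2, hδη⟩ : ∃ δ : ℝ, 0 < δ ∧ δ ≤ l ∧ l + δ ≤ 1 / 2 ∧ D * (2 * δ) ≤ η / 2 := by
    refine ⟨min (min l (1 / 2 - l)) (η / (4 * (D + 1))), ?_, ?_, ?_, ?_⟩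
    · apply lt_min (lt_min hl (by linarith)) (by positivity)
    · exact (min_le_left _ _).trans (min_le_left _ _)
    · have := (min_le_left (min l (1 / 2 - l)) (η / (4 * (D + 1)))).trans (min_le_right _ _)
      linarith
    · have h1 : min (min l (1 / 2 - l)) (η / (4 * (D + 1))) ≤ η / (4 * (D + 1)) := min_le_right _ _
      have h2 : D * (2 * (η / (4 * (D + 1)))) ≤ η / 2 := by
        rw [show D * (2 * (η / (4 * (D + 1)))) = (η / 2) * (D / (D + 1)) by field_simp; ring]
        have : D / (D + 1) ≤ 1 := by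
          rw [div_le_one (by linarith)]
          linarith
        nlinarith
      nlinarith
  have hc1 : Continuous fun _ : ℝ => (1 : ℝ) := continuous_const
  have hp1 : Function.Periodic (fun _ : ℝ => (1 : ℝ)) 1 := fun _ => rfl
  -- upper
  have u1 := int_bump hc1 hp1 (fun _ => by norm_num) (c := c) (l := l) (δ := δ) hδ hl.le hδl2
  have u2 := int_bump hc1 hp1 (fun _ => by norm_num) (c := c) (l := l - δ) (δ := δ) hδ (by linarith)
    (by linarith)
  simp only [mul_one, intervalIntegral.integral_const, smul_eq_mul] at u1 u2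
  have t1 := hB c l δ
  have t2 := hB c (l - δ) δ
  have v1 := t1.eventually_le_const (u := D * (2 * l) + η) (by nlinarith [u1.2])
  have v2 := t2.eventually_const_le (u := D * (2 * l) - η) (by nlinarith [u2.1])
  filter_upwards [v1, v2, h𝓕 (eventually_ge_atTop 1)] with R h1 h2 h3
  have hR0 : (0 : ℝ) < R := by exact_mod_cast h3
  rw [div_le_iff₀ hR0] at h1
  rw [le_div_iff₀ hR0] at h2
  have w1 := (int_bump (hG R).cont (hG R).per (hG R).nonneg (c := c) (l := l) (δ := δ) hδ
    hl.le hδl2).1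
  have w2 := (int_bump (hG R).cont (hG R).per (hG R).nonneg (c := c) (l := l - δ) (δ := δ) hδ
    (by linarith) (by linarith)).2
  rw [show l - δ + δ = l by ring] at w2
  unfold En
  rw [abs_le]
  constructor <;> nlinarith

/-- cells -/
lemma cells (hG : ∀ R, Nice (G R)) (hB : Bump G D 𝓕) (h𝓕 : 𝓕 ≤ atTop) (hD0 : 0 ≤ D)
    (N : ℕ) (hN : 2 ≤ N) (η : ℝ) (hη : 0 < η) :
    ∀ᶠ R : ℕ in 𝓕, ∀ j : ℤ, |En (G R) (j / N) ((j + 1) / N) - D / N * R| ≤ η * R := by
  have hN0 : (0 : ℝ) < N := by exact_mod_cast (by omega : 0 < N)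
  have h1 : ∀ᶠ R : ℕ in 𝓕, ∀ i ∈ Finset.range N,
      |En (G R) ((i : ℝ) / N) ((i + 1) / N) - D / N * R| ≤ η * R := by
    rw [Filter.eventually_all_finset]
    intro i _
    have hN1 : (1 : ℝ) / (2 * N) < 1 / 2 := by
      rw [div_lt_div_iff₀ (by positivity) (by norm_num)]
      have : (2 : ℝ) ≤ N := by exact_mod_cast hN
      linarith
    have h2 := one_arc hG hB h𝓕 hD0 ((2 * i + 1) / (2 * N)) (1 / (2 * N)) (by positivity) hN1 η hη
    filter_upwards [h2] with R hR
    have e1 : ((2 * i + 1) / (2 * N) - 1 / (2 * N) : ℝ) = i / N := by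
      field_simp
      ring
    have e2 : ((2 * i + 1) / (2 * N) + 1 / (2 * N) : ℝ) = (i + 1) / N := by
      field_simp
      ring
    have e3 : D * (2 * (1 / (2 * (N : ℝ)))) = D / N := by
      field_simp
    rw [e1, e2, e3] at hR
    exact hR
  filter_upwards [h1] with R hR j
  have hNz : (0 : ℤ) < N := by exact_mod_cast (by omega : 0 < N)
  obtain ⟨i, hi⟩ : ∃ i : ℕ, j % N = i := ⟨(j % N).toNat, by
    have := Int.emod_nonneg j hNz.ne'
    omega⟩
  have hiN : i < N := by
    have := Int.emod_lt_of_pos j hNz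
    omega
  have h2 := hR i (Finset.mem_range.2 hiN)
  have e0 : (j : ℝ) = i + N * (j / N : ℤ) := by
    have := Int.emod_add_mul_ediv j N
    rw [hi] at this
    exact_mod_cast this.symm
  have e1 : (j : ℝ) / N = i / N + (j / N : ℤ) := by
    rw [e0]
    field_simp
  have e2 : ((j : ℝ) + 1) / N = (i + 1) / N + (j / N : ℤ) := by
    rw [e0]
    field_simp
    ring
  rw [e1, e2, En_shift (hG R)]
  exact h2

lemma many {R : ℕ} (hg : Nice (G R)) {N : ℕ} {η : ℝ} (h : ∀ j : ℤ, |En (G R) (j / N) ((j + 1) / N) - D / N * R| ≤ η * R)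
    (j : ℤ) (m : ℕ) : |En (G R) (j / N) ((j + m) / N) - m * (D / N) * R| ≤ m * η * R := by
  induction m with
  | zero =>
    simp [En]
  | succ m ih =>
    have h1 := h (j + m)
    have h2 := En_add hg ((j : ℝ) / N) ((j + m) / N) ((j + m + 1) / N)
    push_cast at h1 ih ⊢
    rw [show (j : ℝ) + (m + 1) = j + m + 1 by ring, ← h2]
    rw [abs_le] at *
    constructor <;> nlinarith [h1.1, h1.2, ih.1, ih.2]

/-- **all arcs** -/
theorem arcs (hG : ∀ R, Nice (G R)) (hB : Bump G D 𝓕) (h𝓕 : 𝓕 ≤ atTop) (hD0 : 0 ≤ D)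
    (ε : ℝ) (hε : 0 < ε) :
    ∀ᶠ R : ℕ in 𝓕, ∀ α β : ℝ, α ≤ β → β ≤ α + 1 → |En (G R) α β - D * (β - α) * R| ≤ ε * R := by
  obtain ⟨N, hN2, hN⟩ : ∃ N : ℕ, 2 ≤ N ∧ D * (2 / N) ≤ ε / 2 := by
    obtain ⟨N, hN⟩ := exists_nat_gt (4 * D / ε)
    refine ⟨N + 2, by omega, ?_⟩
    rw [div_lt_iff₀ hε] at hN
    push_cast
    rw [mul_div_assoc', div_le_div_iff₀ (by positivity) (by norm_num)]
    nlinarith
  have hN0 : (0 : ℝ) < N := by exact_mod_cast (by omega : 0 < N)
  filter_upwards [cells hG hB h𝓕 hD0 N hN2 (ε / (2 * (N + 3))) (by positivity)] with R hR α β hαβ hβ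
  have hm := many (hG R) hR
  set η : ℝ := ε / (2 * (N + 3)) with hη
  have hη0 : 0 < η := by positivity
  have hηN : (N + 3) * η = ε / 2 := by
    rw [hη]
    field_simp
  set j0 : ℤ := ⌊(N : ℝ) * α⌋ with hj0
  set j1 : ℤ := ⌊(N : ℝ) * β⌋ with hj1
  have a1 : (j0 : ℝ) ≤ N * α := Int.floor_le _
  have a2 : N * α < j0 + 1 := Int.lt_floor_add_one _
  have b1 : (j1 : ℝ) ≤ N * β := Int.floor_le _
  have b2 : N * β < j1 + 1 := Int.lt_floor_add_one _
  have hj : j0 ≤ j1 := Int.floor_le_floor (by gcongr)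
  have hR0 : (0 : ℝ) ≤ R := Nat.cast_nonneg _
  have hDN : D / N * 2 ≤ ε / 2 := by
    rw [show D / N * 2 = D * (2 / N) by ring]
    exact hN
  have hDN0 : 0 ≤ D / N := by positivity
  -- the number of cells
  obtain ⟨m, hm1⟩ : ∃ m : ℕ, j1 - j0 = m := ⟨(j1 - j0).toNat, by omega⟩
  have hmr : (j1 : ℝ) - j0 = m := by exact_mod_cast hm1
  have hmN : (m : ℝ) ≤ N + 1 := by
    have : (m : ℝ) < N + 1 + 1 := by nlinarith
    have h2 : m < N + 1 + 1 := by exact_mod_cast this
    exact_mod_cast (by omega : m ≤ N + 1)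
  have up : En (G R) α β ≤ (D * (β - α) + ε) * R := by
    have h1 : En (G R) α β ≤ En (G R) (j0 / N) ((j0 + (m + 1 : ℕ)) / N) := by
      apply En_mono (hG R)
      · rw [div_le_iff₀ hN0]
        linarith
      · rw [le_div_iff₀ hN0]
        push_cast
        nlinarith
    have h2 := (abs_le.1 (hm j0 (m + 1))).2
    push_cast at h1 h2
    have h3 : (m + 1) * (D / N) ≤ D * (β - α) + D / N * 2 := by
      have : (m : ℝ) ≤ N * (β - α) + 1 := by nlinarith
      have h4 : (m + 1) * (D / N) ≤ (N * (β - α) + 2) * (D / N) :=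
        mul_le_mul_of_nonneg_right (by linarith) hDN0
      refine h4.trans (le_of_eq ?_)
      field_simp
    have h5 : (m + 1) * η ≤ ε / 2 := by
      rw [← hηN]
      exact mul_le_mul_of_nonneg_right (by linarith) hη0.le
    have h6 : ((m + 1) * (D / N) + (m + 1) * η) * R ≤ (D * (β - α) + ε) * R :=
      mul_le_mul_of_nonneg_right (by linarith) hR0
    linarith
  have lo : (D * (β - α) - ε) * R ≤ En (G R) α β := by
    rcases Nat.eq_zero_or_pos m with h0 | h0
    · have h1 : N * (β - α) ≤ 1 := by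
        rw [h0] at hmr
        push_cast at hmr
        nlinarith
      have h2 : D * (β - α) ≤ D / N * 2 := by
        have : D * (β - α) = D / N * (N * (β - α)) := by field_simp
        rw [this]
        gcongr
        linarith
      have h3 : (D * (β - α) - ε) * R ≤ 0 := by
        apply mul_nonpos_of_nonpos_of_nonneg _ hR0
        linarith
      exact h3.trans (En_nonneg (hG R) hαβ)
    · obtain ⟨m', rfl⟩ : ∃ m' : ℕ, m = m' + 1 := ⟨m - 1, by omega⟩
      push_cast at hmr hmN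
      have h1 : En (G R) ((j0 + 1 : ℤ) / N) (((j0 + 1 : ℤ) + (m' : ℕ)) / N) ≤ En (G R) α β := by
        apply En_mono (hG R)
        · rw [le_div_iff₀ hN0]
          push_cast
          linarith
        · rw [div_le_iff₀ hN0]
          push_cast
          linarith
      have h2 := (abs_le.1 (hm (j0 + 1) m')).1
      push_cast at h1 h2
      have h3 : D * (β - α) - D / N * 2 ≤ m' * (D / N) := by
        have : N * (β - α) - 2 ≤ (m' : ℝ) := by nlinarith
        have h4 : (N * (β - α) - 2) * (D / N) ≤ m' * (D / N) :=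
          mul_le_mul_of_nonneg_right this hDN0
        refine le_trans (le_of_eq ?_) h4
        field_simp
      have h5 : m' * η ≤ ε / 2 := by
        rw [← hηN]
        exact mul_le_mul_of_nonneg_right (by linarith) hη0.le
      have h6 : (D * (β - α) - ε) * R ≤ (m' * (D / N) - m' * η) * R :=
        mul_le_mul_of_nonneg_right (by linarith) hR0
      linarith
  rw [abs_le]
  constructor <;> linarith

end

end Pool.Agent.T2h81.EA
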