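import Pool.Agent.T2h81.EA.B2

/-! Project EA (helper81): local Parseval for all directions. -/

set_option autoImplicit false

open Finset Filter Topology MeasureTheory

namespace Pool.Agent.T2h81.EA

section
variable {a : ℕ → ℝ} {D : ℝ} {𝓕 : Filter ℕ}

lemma bump_norm (ha : ∀ n, |a n| ≤ 1) (h𝓕 : 𝓕 ≤ atTop) (hS : Small a 𝓕) (hD : Dens a D 𝓕)
    (c l δ : ℝ) : Tendsto (fun R : ℕ =>
      (∫ x in (0 : ℝ)..1, bu c l δ (x : AddCircle (1 : ℝ)) * ‖F a R x‖ ^ 2) / (R : ℝ)) 𝓕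
      (𝓝 (D * ∫ x in (0 : ℝ)..1, bu c l δ (x : AddCircle (1 : ℝ)))) := by
  have h1 := tend_all ha h𝓕 hS hD (bc c l δ)
  have h2 := (Complex.continuous_re.tendsto _).comp h1
  have e1 : ((D : ℂ) * M (bc c l δ)).re = D * ∫ x in (0 : ℝ)..1, bu c l δ (x : AddCircle (1 : ℝ)) := by
    have e2 : M (bc c l δ) = ((∫ x in (0 : ℝ)..1, bu c l δ (x : AddCircle (1 : ℝ)) : ℝ) : ℂ) := by
      unfold M
      rw [← intervalIntegral.integral_ofReal]
      rfl
    rw [e2, ← Complex.ofReal_mul, Complex.ofReal_re]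
  rw [e1] at h2
  refine h2.congr fun R => ?_
  have e3 : L a R (bc c l δ) =
      ((∫ x in (0 : ℝ)..1, bu c l δ (x : AddCircle (1 : ℝ)) * ‖F a R x‖ ^ 2 : ℝ) : ℂ) := by
    unfold L
    rw [← intervalIntegral.integral_ofReal]
    apply intervalIntegral.integral_congr
    intro x _
    simp only [bc, ContinuousMap.coe_mk]
    push_cast
    ring
  simp only [Function.comp]
  rw [e3, ← Complex.ofReal_natCast, ← Complex.ofReal_div, Complex.ofReal_re]

/-- combinations of `|F|²`, `Re F²`, `Im F²` -/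
lemma bump_comb (ha : ∀ n, |a n| ≤ 1) (h𝓕 : 𝓕 ≤ atTop) (hS : Small a 𝓕) (hD : Dens a D 𝓕)
    (u v : ℝ) : Bump (fun R x => 1 / 2 * ‖F a R x‖ ^ 2 + (u * (F a R x ^ 2).re + v * (F a R x ^ 2).im))
      (D / 2) 𝓕 := by
  intro c l δ
  have h1 := (bump_norm ha h𝓕 hS hD c l δ).const_mul (1 / 2)
  obtain ⟨h2, h3⟩ := bump_sq ha h𝓕 c l δ
  have h4 := h1.add ((h2.const_mul u).add (h3.const_mul v))
  have e : (1 / 2 * (D * ∫ x in (0 : ℝ)..1, bu c l δ (x : AddCircle (1 : ℝ)))) + (u * 0 + v * 0) =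
      D / 2 * ∫ x in (0 : ℝ)..1, bu c l δ (x : AddCircle (1 : ℝ)) := by ring
  rw [e] at h4
  refine h4.congr fun R => ?_
  have hbu : Continuous fun x : ℝ => bu c l δ (x : AddCircle (1 : ℝ)) :=
    (bu_cont c l δ).comp (AddCircle.continuous_mk' 1)
  have hF := F_cont a R
  have i1 : IntervalIntegrable (fun x : ℝ => bu c l δ (x : AddCircle (1 : ℝ)) * ‖F a R x‖ ^ 2) volume 0 1 := by
    apply Continuous.intervalIntegrable
    fun_prop
  have hre : Continuous fun x : ℝ => (F a R x ^ 2).re := Complex.continuous_re.comp (hF.pow 2)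
  have him : Continuous fun x : ℝ => (F a R x ^ 2).im := Complex.continuous_im.comp (hF.pow 2)
  have i2 : IntervalIntegrable (fun x : ℝ => bu c l δ (x : AddCircle (1 : ℝ)) * (F a R x ^ 2).re) volume 0 1 :=
    (hbu.mul hre).intervalIntegrable _ _
  have i3 : IntervalIntegrable (fun x : ℝ => bu c l δ (x : AddCircle (1 : ℝ)) * (F a R x ^ 2).im) volume 0 1 :=
    (hbu.mul him).intervalIntegrable _ _
  have e2 : (∫ x in (0 : ℝ)..1, bu c l δ (x : AddCircle (1 : ℝ)) *
      (1 / 2 * ‖F a R x‖ ^ 2 + (u * (F a R x ^ 2).re + v * (F a R x ^ 2).im))) =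
      1 / 2 * (∫ x in (0 : ℝ)..1, bu c l δ (x : AddCircle (1 : ℝ)) * ‖F a R x‖ ^ 2) +
      (u * (∫ x in (0 : ℝ)..1, bu c l δ (x : AddCircle (1 : ℝ)) * (F a R x ^ 2).re) +
      v * (∫ x in (0 : ℝ)..1, bu c l δ (x : AddCircle (1 : ℝ)) * (F a R x ^ 2).im)) := by
    rw [← intervalIntegral.integral_const_mul, ← intervalIntegral.integral_const_mul,
      ← intervalIntegral.integral_const_mul, ← intervalIntegral.integral_add (i2.const_mul u) (i3.const_mul v),
      ← intervalIntegral.integral_add (i1.const_mul (1 / 2)) ((i2.const_mul u).add (i3.const_mul v))]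
    apply intervalIntegral.integral_congr
    intro x _
    ring
  simp only
  rw [e2]
  ring

lemma sq_re_im (z : ℂ) : ‖z‖ ^ 2 = z.re ^ 2 + z.im ^ 2 ∧ (z ^ 2).re = z.re ^ 2 - z.im ^ 2 ∧
    (z ^ 2).im = 2 * (z.re * z.im) := by
  refine ⟨?_, ?_, ?_⟩
  · rw [← Complex.normSq_eq_norm_sq, Complex.normSq_apply]
    ring
  · rw [sq, Complex.mul_re]
    ring
  · rw [sq, Complex.mul_im]
    ring

/-- the square of a real part, in a direction -/
noncomputable def dir (a : ℕ → ℝ) (w : ℂ) (R : ℕ) (x : ℝ) : ℝ := (w * F a R x).re ^ 2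

lemma dir_nice (a : ℕ → ℝ) (w : ℂ) (R : ℕ) : Nice (dir a w R) where
  cont := by
    have := F_cont a R
    unfold dir
    exact (Complex.continuous_re.comp (continuous_const.mul this)).pow 2
  per := by
    intro x
    unfold dir
    rw [F_per a R x]
  nonneg := fun x => by
    unfold dir
    positivity

/-- local Parseval in all directions -/
def Equi (a : ℕ → ℝ) (D ε : ℝ) (R : ℕ) : Prop := ∀ w : ℂ, ‖w‖ = 1 → ∀ α β : ℝ, α ≤ β → β ≤ α + 1 →
  |En (dir a w R) α β - D / 2 * (β - α) * R| ≤ ε * R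

lemma dir_bump (ha : ∀ n, |a n| ≤ 1) (h𝓕 : 𝓕 ≤ atTop) (hS : Small a 𝓕) (hD : Dens a D 𝓕)
    (w : ℂ) (hw : ‖w‖ = 1) : Bump (dir a w) (D / 2) 𝓕 := by
  have h1 := bump_comb ha h𝓕 hS hD ((w ^ 2).re / 2) (-(w ^ 2).im / 2)
  have e : (fun (R : ℕ) (x : ℝ) => 1 / 2 * ‖F a R x‖ ^ 2 +
      ((w ^ 2).re / 2 * (F a R x ^ 2).re + -(w ^ 2).im / 2 * (F a R x ^ 2).im)) = dir a w := by
    funext R x
    unfold dir
    obtain ⟨e1, e2, e3⟩ := sq_re_im (F a R x)
    obtain ⟨f1, f2, f3⟩ := sq_re_im w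
    rw [hw] at f1
    rw [e1, e2, e3, f2, f3, Complex.mul_re]
    have f4 : w.im ^ 2 = 1 - w.re ^ 2 := by linarith
    have f5 : w.re ^ 2 = 1 - w.im ^ 2 := by linarith
    set p := w.re
    set q := w.im
    set r := (F a R x).re
    set s := (F a R x).im
    have : p ^ 2 + q ^ 2 = 1 := by linarith
    linear_combination (-(1 / 2) * (r ^ 2 + s ^ 2)) * this
  rw [e] at h1
  exact h1

theorem equi (ha : ∀ n, |a n| ≤ 1) (h𝓕 : 𝓕 ≤ atTop) (hS : Small a 𝓕) (hD : Dens a D 𝓕) (hD0 : 0 ≤ D)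
    (ε : ℝ) (hε : 0 < ε) : ∀ᶠ R : ℕ in 𝓕, Equi a D ε R := by
  -- three directions
  set w₀ : ℂ := ⟨1 / Real.sqrt 2, -(1 / Real.sqrt 2)⟩ with hw₀
  have hs2 : (1 / Real.sqrt 2) ^ 2 = 1 / 2 := by
    rw [div_pow, Real.sq_sqrt (by norm_num)]
    norm_num
  have hw0 : ‖w₀‖ = 1 := by
    have h1 := (sq_re_im w₀).1
    have h2 : ‖w₀‖ ^ 2 = 1 := by
      rw [h1, hw₀]
      simp only [neg_sq]
      rw [hs2]
      norm_num
    have h3 := norm_nonneg w₀
    nlinarith
  have hI : ‖Complex.I‖ = 1 := Complex.norm_I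
  have h1 := arcs (dir_nice a 1) (dir_bump ha h𝓕 hS hD 1 (by simp)) h𝓕 (by positivity) (ε / 6) (by positivity)
  have h2 := arcs (dir_nice a Complex.I) (dir_bump ha h𝓕 hS hD Complex.I hI) h𝓕 (by positivity) (ε / 6)
    (by positivity)
  have h3 := arcs (dir_nice a w₀) (dir_bump ha h𝓕 hS hD w₀ hw0) h𝓕 (by positivity) (ε / 6) (by positivity)
  filter_upwards [h1, h2, h3] with R k1 k2 k3 w hw α β hαβ hβ
  have m1 := k1 α β hαβ hβ
  have m2 := k2 α β hαβ hβ
  have m3 := k3 α β hαβ hβ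
  have hF := F_cont a R
  have c1 := (dir_nice a 1 R).cont
  have c2 := (dir_nice a Complex.I R).cont
  have c3 := (dir_nice a w₀ R).cont
  set p := w.re with hp
  set q := w.im with hq
  have hpq : p ^ 2 + q ^ 2 = 1 := by
    have := (sq_re_im w).1
    rw [hw] at this
    linarith
  have e : En (dir a w R) α β = (p ^ 2 + p * q) * En (dir a 1 R) α β +
      ((q ^ 2 + p * q) * En (dir a Complex.I R) α β + (-(2 * (p * q))) * En (dir a w₀ R) α β) := by
    unfold En
    rw [← intervalIntegral.integral_const_mul, ← intervalIntegral.integral_const_mul,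
      ← intervalIntegral.integral_const_mul,
      ← intervalIntegral.integral_add ((c2.intervalIntegrable _ _).const_mul _)
        ((c3.intervalIntegrable _ _).const_mul _),
      ← intervalIntegral.integral_add ((c1.intervalIntegrable _ _).const_mul _)
        (((c2.intervalIntegrable _ _).const_mul _).add ((c3.intervalIntegrable _ _).const_mul _))]
    apply intervalIntegral.integral_congr
    intro x _
    show dir a w R x = (p ^ 2 + p * q) * dir a 1 R x + ((q ^ 2 + p * q) * dir a Complex.I R x +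
      (-(2 * (p * q))) * dir a w₀ R x)
    unfold dir
    rw [one_mul, Complex.I_mul_re, Complex.mul_re, Complex.mul_re]
    have e1 : w₀.re = 1 / Real.sqrt 2 := rfl
    have e2 : w₀.im = -(1 / Real.sqrt 2) := rfl
    rw [e1, e2, ← hp, ← hq]
    set r := (F a R x).re
    set s := (F a R x).im
    set t := 1 / Real.sqrt 2
    linear_combination (2 * p * q * (r + s) ^ 2) * hs2
  rw [e]
  have hR0 : (0 : ℝ) ≤ R := Nat.cast_nonneg _
  have b1 : |p ^ 2 + p * q| ≤ 2 := by rw [abs_le]; constructor <;> nlinarith [sq_nonneg (p + q), sq_nonneg (p - q)]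
  have b2 : |q ^ 2 + p * q| ≤ 2 := by rw [abs_le]; constructor <;> nlinarith [sq_nonneg (p + q), sq_nonneg (p - q)]
  have b3 : |-(2 * (p * q))| ≤ 1 := by rw [abs_le]; constructor <;> nlinarith [sq_nonneg (p + q), sq_nonneg (p - q)]
  set A := En (dir a 1 R) α β with hA
  set B := En (dir a Complex.I R) α β with hB
  set C := En (dir a w₀ R) α β with hC
  set X := D / 2 * (β - α) * R with hX
  have e2 : (p ^ 2 + p * q) * A + ((q ^ 2 + p * q) * B + (-(2 * (p * q))) * C) - X =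
      (p ^ 2 + p * q) * (A - X) + ((q ^ 2 + p * q) * (B - X) + (-(2 * (p * q))) * (C - X)) := by
    linear_combination X * hpq
  rw [e2]
  have n1 : |(p ^ 2 + p * q) * (A - X)| ≤ 2 * (ε / 6 * R) := by
    rw [abs_mul]
    exact mul_le_mul b1 m1 (abs_nonneg _) (by norm_num)
  have n2 : |(q ^ 2 + p * q) * (B - X)| ≤ 2 * (ε / 6 * R) := by
    rw [abs_mul]
    exact mul_le_mul b2 m2 (abs_nonneg _) (by norm_num)
  have n3 : |(-(2 * (p * q))) * (C - X)| ≤ 1 * (ε / 6 * R) := by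
    rw [abs_mul]
    exact mul_le_mul b3 m3 (abs_nonneg _) (by norm_num)
  have n4 := abs_add_three ((p ^ 2 + p * q) * (A - X)) ((q ^ 2 + p * q) * (B - X)) ((-(2 * (p * q))) * (C - X))
  rw [← add_assoc]
  nlinarith

end

end Pool.Agent.T2h81.EA
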