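import Pool.Agent.T2h81.EA.B3
import Pool.Agent.T2h81.EA.A4
import Pool.Agent.N806.HG.Ban3

/-! Project EA (helper81): the Möbius function. -/

set_option autoImplicit false

open Finset Filter Topology MeasureTheory

namespace Pool.Agent.T2h81.EA

lemma mu_eq (n : ℕ) : mu n = Pool.Agent.N806.HG.mu n := rfl

lemma corr_range (h R : ℕ) : corr mu h R =
    (∑ n ∈ Finset.range R, Pool.Agent.N806.HG.mu n * Pool.Agent.N806.HG.mu (n + h)) +
      mu R * mu (R + h) := by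
  unfold corr
  have h1 : ∑ n ∈ Finset.range (R + 1), mu n * mu (n + h) =
      (∑ n ∈ Finset.range R, mu n * mu (n + h)) + mu R * mu (R + h) := Finset.sum_range_succ _ _
  have h2 : ∑ n ∈ Icc 1 R, mu n * mu (n + h) = ∑ n ∈ Finset.range (R + 1), mu n * mu (n + h) := by
    apply Finset.sum_subset
    · intro n hn
      rw [Finset.mem_Icc] at hn
      rw [Finset.mem_range]
      omega
    · intro n hn hn2
      rw [Finset.mem_range] at hn
      rw [Finset.mem_Icc] at hn2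
      have : n = 0 := by omega
      subst this
      rw [mu_zero, zero_mul]
  rw [h2, h1]
  rfl

lemma mm_le (R h : ℕ) : |mu R * mu (R + h)| ≤ 1 := by
  rw [abs_mul]
  have := mu_abs R
  have := mu_abs (R + h)
  have := abs_nonneg (mu R)
  have := abs_nonneg (mu (R + h))
  nlinarith

/-- along the good scales the correlations tend to zero -/
lemma small_good {E : Set ℕ} (hE : Pool.Agent.N806.HG.Chow E) (K : ℝ) (hK : 0 ≤ K) :
    Small mu (atTop ⊓ 𝓟 {R : ℕ | ∃ T : ℕ, T ∉ E ∧ T ≤ R ∧ (R : ℝ) ≤ Real.exp K * T}) := by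
  intro h hh
  rw [Metric.tendsto_nhds]
  intro ε hε
  rw [eventually_inf_principal]
  obtain ⟨T0, hT0⟩ := hE h hh K (ε / 2) hK (by positivity)
  have h1 : Tendsto (fun R : ℕ => (R : ℝ)) atTop atTop := tendsto_natCast_atTop_atTop
  filter_upwards [h1.eventually_gt_atTop (Real.exp K * T0), h1.eventually_gt_atTop (2 / ε),
    eventually_ge_atTop 1] with R hR1 hR2 hR3
  rintro ⟨T, hT1, hT2, hT3⟩
  have hR0 : (0 : ℝ) < R := by exact_mod_cast hR3
  have hTT : T0 ≤ T := by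
    have h2 : Real.exp K * T0 < Real.exp K * T := lt_of_lt_of_le hR1 hT3
    have h3 : (T0 : ℝ) < T := lt_of_mul_lt_mul_left h2 (Real.exp_pos K).le
    exact_mod_cast h3.le
  have h2 := hT0 T hTT hT1 R hT2 hT3
  rw [Real.dist_eq, sub_zero, abs_div, Nat.abs_cast, div_lt_iff₀ hR0, corr_range]
  refine lt_of_le_of_lt (abs_add_le _ _) ?_
  have h3 := mm_le R h
  have h4 : 2 < ε * R := by
    rw [div_lt_iff₀ hε] at hR2
    linarith
  nlinarith

/-- **local Parseval** at almost all scales -/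
theorem equi_good {E : Set ℕ} (hE : Pool.Agent.N806.HG.Chow E) (K : ℝ) (hK : 0 ≤ K) (ε : ℝ) (hε : 0 < ε) :
    ∃ T0 : ℕ, ∀ T : ℕ, T0 ≤ T → T ∉ E → ∀ R : ℕ, T ≤ R → (R : ℝ) ≤ Real.exp K * T →
      Equi mu (6 / Real.pi ^ 2) ε R := by
  have h1 := equi mu_abs inf_le_left (small_good hE K hK)
    (show Dens mu (6 / Real.pi ^ 2) _ from mu_dens.mono_left inf_le_left) (by positivity) ε hε
  rw [eventually_inf_principal] at h1
  obtain ⟨T0, hT0⟩ := eventually_atTop.1 h1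
  exact ⟨T0, fun T hT hTE R hR1 hR2 => hT0 R (hT.trans hR1) ⟨T, hTE, hR1, hR2⟩⟩

/-- the finite form -/
theorem equi_fin (ε : ℝ) (hε : 0 < ε) : ∃ (H : ℕ) (η : ℝ) (R0 : ℕ), 0 < η ∧ ∀ R : ℕ, R0 ≤ R →
    (∀ h : ℕ, 1 ≤ h → h ≤ H → |corr mu h R| ≤ η * R) → Equi mu (6 / Real.pi ^ 2) ε R := by
  by_contra hcon
  push Not at hcon
  choose f hf1 hf2 hf3 using fun n : ℕ => hcon n (1 / ((n : ℝ) + 1)) n (by positivity)
  have hfT : Tendsto f atTop atTop := tendsto_atTop_mono hf1 tendsto_id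
  have hS : Small mu (map f atTop) := by
    intro h hh
    rw [tendsto_map'_iff]
    have h1 : Tendsto (fun n : ℕ => 1 / ((n : ℝ) + 1)) atTop (𝓝 0) := tendsto_one_div_add_atTop_nhds_zero_nat
    rw [tendsto_zero_iff_abs_tendsto_zero]
    refine squeeze_zero' (Eventually.of_forall fun n => abs_nonneg _) ?_ h1
    filter_upwards [eventually_ge_atTop h, eventually_ge_atTop 1] with n hn hn1
    have h2 := hf2 n h hh hn
    have h3 : (0 : ℝ) < f n := by exact_mod_cast lt_of_lt_of_le (by omega : 0 < n) (hf1 n)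
    simp only [Function.comp]
    rw [abs_div, Nat.abs_cast, div_le_iff₀ h3]
    exact h2
  have h1 := equi mu_abs hfT hS
    (show Dens mu (6 / Real.pi ^ 2) _ from mu_dens.mono_left hfT) (by positivity) ε hε
  rw [eventually_map] at h1
  obtain ⟨n, hn⟩ := h1.exists
  exact hf3 n hn

/-- **local Parseval** at some scales of every long window -/
theorem equi_win (K ε : ℝ) (hε : 0 < ε) : ∃ B T0 : ℕ, 1 ≤ B ∧ ∀ T : ℕ, T0 ≤ T →
    ∃ T' : ℕ, T < T' ∧ T' ≤ B * T ∧ ∀ R : ℕ, T' ≤ R → (R : ℝ) ≤ Real.exp K * T' →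
      Equi mu (6 / Real.pi ^ 2) ε R := by
  obtain ⟨H, η, R0, hη, hfin⟩ := equi_fin ε hε
  obtain ⟨B, T0, hB, h⟩ := Pool.Agent.N806.HG.Ban.chow_ban H K (η / 2) (by positivity)
  obtain ⟨n0, hn0⟩ := exists_nat_gt (2 / η)
  refine ⟨B, T0 + R0 + n0, hB, fun T hT => ?_⟩
  obtain ⟨T', h1, h2, h3⟩ := h T (by omega)
  refine ⟨T', h1, h2, fun R hR1 hR2 => hfin R (by omega) fun g hg1 hg2 => ?_⟩
  have h4 := h3 g hg1 hg2 R hR1 hR2
  rw [corr_range]
  refine (abs_add_le _ _).trans ?_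
  have h5 := mm_le R g
  have h6 : (n0 : ℝ) ≤ R := by exact_mod_cast (by omega : n0 ≤ R)
  have h7 : 1 ≤ η / 2 * R := by
    rw [div_lt_iff₀ hη] at hn0
    nlinarith
  linarith

/-- local Parseval for the absolute value -/
lemma Equi.norm {a : ℕ → ℝ} {D ε : ℝ} {R : ℕ} (h : Equi a D ε R) {α β : ℝ} (hαβ : α ≤ β) (hβ : β ≤ α + 1) :
    |(∫ x in α..β, ‖F a R x‖ ^ 2) - D * (β - α) * R| ≤ 2 * ε * R := by
  have h1 := h 1 (by simp) α β hαβ hβ
  have h2 := h Complex.I Complex.norm_I α β hαβ hβ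
  have e : (∫ x in α..β, ‖F a R x‖ ^ 2) = En (dir a 1 R) α β + En (dir a Complex.I R) α β := by
    unfold En
    rw [← intervalIntegral.integral_add ((dir_nice a 1 R).cont.intervalIntegrable _ _)
      ((dir_nice a Complex.I R).cont.intervalIntegrable _ _)]
    apply intervalIntegral.integral_congr
    intro x _
    simp only
    unfold dir
    rw [one_mul, Complex.I_mul_re, (sq_re_im (F a R x)).1]
    ring
  rw [e]
  rw [abs_le] at *
  constructor <;> nlinarith [h1.1, h1.2, h2.1, h2.2]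

/-- large values on an interval -/
lemma large_of {g : ℝ → ℝ} (hg : Continuous g) (h0 : ∀ x, 0 ≤ g x) {α β D ε c : ℝ} {R : ℕ} (hαβ : α < β)
    (hR : 1 ≤ R) (h : |(∫ x in α..β, g x ^ 2) - D * (β - α) * R| ≤ ε * R)
    (hce : ε < (D - c ^ 2) * (β - α)) : ∃ x ∈ Set.Ioo α β, c * Real.sqrt R < g x := by
  by_contra hcon
  push Not at hcon
  have hR0 : (0 : ℝ) < R := by exact_mod_cast hR
  have h1 : (∫ x in α..β, g x ^ 2) ≤ ∫ _x in α..β, c ^ 2 * R := by
    apply intervalIntegral.integral_mono_on_of_le_Ioo hαβ.le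
    · exact (hg.pow 2).intervalIntegrable _ _
    · exact continuous_const.intervalIntegrable _ _
    · intro x hx
      have h2 := hcon x hx
      have h3 : g x ^ 2 ≤ (c * Real.sqrt R) ^ 2 := by
        have := h0 x
        gcongr
      rwa [mul_pow, Real.sq_sqrt hR0.le] at h3
  rw [intervalIntegral.integral_const, smul_eq_mul] at h1
  have h2 := (abs_le.1 h).1
  have h3 : ε * R < (D - c ^ 2) * (β - α) * R := mul_lt_mul_of_pos_right hce hR0
  nlinarith

/-- generic points -/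
lemma gen_resid {G : ℕ → ℝ → ℝ} (hc : ∀ R, Continuous (G R)) (φ : ℕ → ℝ)
    (h : ∀ u v : ℝ, u < v → ∀ N : ℕ, ∃ R : ℕ, N ≤ R ∧ ∃ x ∈ Set.Ioo u v, φ R < G R x) :
    ∀ᶠ x in residual ℝ, ∃ᶠ R : ℕ in atTop, φ R < G R x := by
  have h1 : ∀ N : ℕ, ∀ᶠ x in residual ℝ, ∃ R : ℕ, N ≤ R ∧ φ R < G R x := by
    intro N
    have ho : IsOpen {x : ℝ | ∃ R : ℕ, N ≤ R ∧ φ R < G R x} := by
      have e : {x : ℝ | ∃ R : ℕ, N ≤ R ∧ φ R < G R x} = ⋃ R : ℕ, ⋃ _ : N ≤ R, {x : ℝ | φ R < G R x} := by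
        ext x
        simp only [Set.mem_ofPred_eq, Set.mem_iUnion, exists_prop]
      rw [e]
      refine isOpen_iUnion fun R => isOpen_iUnion fun _ => ?_
      exact isOpen_lt continuous_const (hc R)
    have hd : Dense {x : ℝ | ∃ R : ℕ, N ≤ R ∧ φ R < G R x} := by
      rw [dense_iff_exists_between]
      intro u v huv
      obtain ⟨R, hR, x, hx, hx2⟩ := h u v huv N
      exact ⟨x, ⟨R, hR, hx2⟩, hx.1, hx.2⟩
    exact residual_of_dense_open ho hd
  have h2 := eventually_countable_forall.2 h1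
  filter_upwards [h2] with x hx
  rw [Filter.frequently_atTop]
  intro N
  obtain ⟨R, h3, h4⟩ := hx N
  exact ⟨R, h3, h4⟩

end Pool.Agent.T2h81.EA
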