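import Pool.Agent.T2h81.EA.A1

/-! Project EA (helper81): a maximal large sieve inequality. -/

set_option autoImplicit false

open Finset Filter Topology MeasureTheory

namespace Pool.Agent.T2h81.EA

/-- general exponential sums -/
noncomputable def Q (b : ℕ → ℂ) (s : Finset ℕ) (x : ℝ) : ℂ :=
  ∑ n ∈ s, b n * Complex.exp (2 * Real.pi * Complex.I * n * x)

lemma Q_cont (b : ℕ → ℂ) (s : Finset ℕ) : Continuous (Q b s) := by
  unfold Q
  fun_prop

lemma Q_norm_sq (b : ℕ → ℂ) (s : Finset ℕ) (x : ℝ) : ((‖Q b s x‖ ^ 2 : ℝ) : ℂ) =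
    ∑ m ∈ s, ∑ n ∈ s, (b m * (starRingEnd ℂ) (b n)) *
      Complex.exp (2 * Real.pi * Complex.I * (((m : ℤ) - n : ℤ) : ℂ) * x) := by
  have h1 : ((‖Q b s x‖ ^ 2 : ℝ) : ℂ) = Q b s x * (starRingEnd ℂ) (Q b s x) := by
    rw [Complex.mul_conj, Complex.normSq_eq_norm_sq]
  rw [h1]
  unfold Q
  rw [map_sum, Finset.sum_mul_sum]
  apply Finset.sum_congr rfl
  intro m _
  apply Finset.sum_congr rfl
  intro n _
  rw [map_mul, ← Complex.exp_conj]
  have e1 : (starRingEnd ℂ) (2 * Real.pi * Complex.I * n * x) = -(2 * Real.pi * Complex.I * n * x) := by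
    simp only [map_mul, Complex.conj_ofReal, Complex.conj_I, map_natCast, map_ofNat]
    ring
  rw [e1]
  have e2 : (2 * Real.pi * Complex.I * (((m : ℤ) - n : ℤ) : ℂ) * x : ℂ) =
      2 * Real.pi * Complex.I * m * x + -(2 * Real.pi * Complex.I * n * x) := by
    push_cast
    ring
  rw [e2, Complex.exp_add]
  ring

/-- Parseval -/
lemma Q_int (b : ℕ → ℂ) (s : Finset ℕ) : ∫ x in (0 : ℝ)..1, ‖Q b s x‖ ^ 2 = ∑ n ∈ s, ‖b n‖ ^ 2 := by
  have h1 : ((∫ x in (0 : ℝ)..1, ‖Q b s x‖ ^ 2 : ℝ) : ℂ) = ((∑ n ∈ s, ‖b n‖ ^ 2 : ℝ) : ℂ) := by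
    rw [← intervalIntegral.integral_ofReal]
    have h2 : (∫ x in (0 : ℝ)..1, ((‖Q b s x‖ ^ 2 : ℝ) : ℂ)) =
        ∫ x in (0 : ℝ)..1, ∑ m ∈ s, ∑ n ∈ s, (b m * (starRingEnd ℂ) (b n)) *
          Complex.exp (2 * Real.pi * Complex.I * (((m : ℤ) - n : ℤ) : ℂ) * x) := by
      apply intervalIntegral.integral_congr
      intro x _
      exact Q_norm_sq b s x
    rw [h2, intervalIntegral.integral_finsetSum, Complex.ofReal_sum]
    · apply Finset.sum_congr rfl
      intro m hm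
      rw [intervalIntegral.integral_finsetSum]
      · rw [Finset.sum_eq_single m]
        · rw [intervalIntegral.integral_const_mul, int_exp, if_pos (sub_self _), mul_one, Complex.mul_conj,
            Complex.normSq_eq_norm_sq]
        · intro n _ hnm
          rw [intervalIntegral.integral_const_mul, int_exp, if_neg (by omega), mul_zero]
        · intro h
          exact absurd hm h
      · intro n _
        apply Continuous.intervalIntegrable
        fun_prop
    · intro m _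
      apply Continuous.intervalIntegrable
      fun_prop
  exact_mod_cast h1

lemma Q_deriv (b : ℕ → ℂ) (s : Finset ℕ) (x : ℝ) :
    HasDerivAt (Q b s) (Q (fun n => b n * (2 * Real.pi * Complex.I * n)) s x) x := by
  unfold Q
  apply HasDerivAt.fun_sum
  intro n _
  have h1 : HasDerivAt (fun y : ℝ => (2 * Real.pi * Complex.I * n * y : ℂ)) (2 * Real.pi * Complex.I * n) x := by
    have h2 := (hasDerivAt_id x).ofReal_comp.const_mul (2 * Real.pi * Complex.I * n : ℂ)
    simpa using h2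
  have h3 := (h1.cexp).const_mul (b n)
  have e : b n * (2 * Real.pi * Complex.I * n) * Complex.exp (2 * Real.pi * Complex.I * n * x) =
      b n * (Complex.exp (2 * Real.pi * Complex.I * n * x) * (2 * Real.pi * Complex.I * n)) := by ring
  rw [e]
  exact h3

/-- the value at a point of an interval -/
lemma sob {f f' : ℝ → ℂ} (hf : ∀ x, HasDerivAt f (f' x) x) (hf' : Continuous f') {α δ x : ℝ} (hδ : 0 < δ)
    (hx : x ∈ Set.Icc α (α + δ)) : ‖f x‖ ^ 2 ≤ δ⁻¹ * (∫ y in α..(α + δ), ‖f y‖ ^ 2) +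
      ∫ y in α..(α + δ), 2 * (‖f y‖ * ‖f' y‖) := by
  have hfc : Continuous f := continuous_iff_continuousAt.2 fun x => (hf x).continuousAt
  set g' : ℝ → ℝ := fun y => 2 * inner ℝ (f y) (f' y) with hg'
  have hd : ∀ y, HasDerivAt (fun y => ‖f y‖ ^ 2) (g' y) y := fun y => (hf y).norm_sq
  have hgc : Continuous g' := by
    rw [hg']
    fun_prop
  have hKc : Continuous fun y => 2 * (‖f y‖ * ‖f' y‖) := by fun_prop
  have hle : ∀ y, |g' y| ≤ 2 * (‖f y‖ * ‖f' y‖) := by
    intro y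
    rw [hg']
    simp only
    rw [abs_mul, abs_of_pos (by norm_num : (0 : ℝ) < 2)]
    exact mul_le_mul_of_nonneg_left (abs_real_inner_le_norm _ _) (by norm_num)
  set K := ∫ y in α..(α + δ), 2 * (‖f y‖ * ‖f' y‖) with hK
  have h1 : ∀ y ∈ Set.Icc α (α + δ), ‖f x‖ ^ 2 ≤ ‖f y‖ ^ 2 + K := by
    intro y hy
    have h2 : ∫ t in y..x, g' t = ‖f x‖ ^ 2 - ‖f y‖ ^ 2 :=
      intervalIntegral.integral_eq_sub_of_hasDerivAt (fun t _ => hd t) (hgc.intervalIntegrable _ _)
    have h3 : |∫ t in y..x, g' t| ≤ K := by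
      refine (intervalIntegral.norm_integral_le_abs_integral_norm (f := g') (a := y) (b := x)).trans ?_
      have h4 : ∀ u v : ℝ, α ≤ u → u ≤ v → v ≤ α + δ → (∫ t in u..v, ‖g' t‖) ≤ K := by
        intro u v hu huv hv
        have h5 : (∫ t in u..v, ‖g' t‖) ≤ ∫ t in u..v, 2 * (‖f t‖ * ‖f' t‖) := by
          apply intervalIntegral.integral_mono_on huv (hgc.norm.intervalIntegrable _ _)
            (hKc.intervalIntegrable _ _)
          intro t _
          exact hle t
        refine h5.trans ?_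
        rw [hK]
        apply intervalIntegral.integral_mono_interval hu huv hv
        · exact Filter.Eventually.of_forall fun t => by
            show (0 : ℝ) ≤ 2 * (‖f t‖ * ‖f' t‖)
            positivity
        · exact hKc.intervalIntegrable _ _
      rcases le_total y x with h | h
      · rw [abs_of_nonneg (intervalIntegral.integral_nonneg h fun t _ => norm_nonneg _)]
        exact h4 y x hy.1 h hx.2
      · rw [intervalIntegral.integral_symm, abs_neg,
          abs_of_nonneg (intervalIntegral.integral_nonneg h fun t _ => norm_nonneg _)]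
        exact h4 x y hx.1 h hy.2
    rw [h2] at h3
    have := (abs_le.1 h3).2
    linarith
  have h2 : (∫ _y in α..(α + δ), ‖f x‖ ^ 2) ≤ ∫ y in α..(α + δ), (‖f y‖ ^ 2 + K) := by
    apply intervalIntegral.integral_mono_on (by linarith)
    · exact continuous_const.intervalIntegrable _ _
    · apply Continuous.intervalIntegrable
      fun_prop
    · exact h1
  have e2 : (∫ y in α..(α + δ), (‖f y‖ ^ 2 + K)) = (∫ y in α..(α + δ), ‖f y‖ ^ 2) + ∫ _y in α..(α + δ), K :=
    intervalIntegral.integral_add ((hfc.norm.pow 2).intervalIntegrable _ _)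
      (continuous_const.intervalIntegrable _ _)
  rw [e2, intervalIntegral.integral_const, intervalIntegral.integral_const, smul_eq_mul, smul_eq_mul,
    add_sub_cancel_left] at h2
  have h3 : δ⁻¹ * (δ * ‖f x‖ ^ 2) ≤ δ⁻¹ * ((∫ y in α..(α + δ), ‖f y‖ ^ 2) + δ * K) :=
    mul_le_mul_of_nonneg_left h2 (by positivity)
  rw [← mul_assoc, inv_mul_cancel₀ hδ.ne', one_mul, mul_add, ← mul_assoc δ⁻¹ δ K, inv_mul_cancel₀ hδ.ne',
    one_mul] at h3
  exact h3

/-- **large sieve** for one point in each cell -/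
theorem large_sieve (b : ℕ → ℂ) (s : Finset ℕ) (X : ℕ) (hX : 1 ≤ X) (hs : ∀ n ∈ s, n ≤ X) (x : ℕ → ℝ)
    (hx : ∀ j < X, x j ∈ Set.Icc ((j : ℝ) / X) ((j + 1) / X)) :
    ∑ j ∈ Finset.range X, ‖Q b s (x j)‖ ^ 2 ≤ 14 * X * ∑ n ∈ s, ‖b n‖ ^ 2 := by
  have hX0 : (0 : ℝ) < X := by exact_mod_cast hX
  set b' : ℕ → ℂ := fun n => b n * (2 * Real.pi * Complex.I * n) with hb'
  have hc := Q_cont b s
  have hc' := Q_cont b' s
  set κ : ℝ := 2 * Real.pi * X with hκ
  have hκ0 : 0 < κ := by positivity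
  have h1 : ∀ j ∈ Finset.range X, ‖Q b s (x j)‖ ^ 2 ≤
      ∫ y in ((j : ℝ) / X)..(((j + 1 : ℕ) : ℝ) / X), ((X + κ) * ‖Q b s y‖ ^ 2 + κ⁻¹ * ‖Q b' s y‖ ^ 2) := by
    intro j hj
    rw [Finset.mem_range] at hj
    have e1 : ((j + 1 : ℕ) : ℝ) / X = j / X + 1 / X := by
      push_cast
      rw [add_div]
    have h2 := sob (f := Q b s) (f' := Q b' s) (Q_deriv b s) hc' (α := (j : ℝ) / X) (δ := 1 / X) (x := x j)
      (by positivity) (by
        have := hx j hj
        rwa [add_div] at this)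
    rw [e1]
    refine h2.trans ?_
    rw [← intervalIntegral.integral_const_mul, ← intervalIntegral.integral_add]
    · apply intervalIntegral.integral_mono_on (by linarith [one_div_pos.2 hX0])
      · apply Continuous.intervalIntegrable
        fun_prop
      · apply Continuous.intervalIntegrable
        fun_prop
      · intro y _
        rw [one_div, inv_inv]
        have h3 : 2 * (‖Q b s y‖ * ‖Q b' s y‖) ≤ κ * ‖Q b s y‖ ^ 2 + κ⁻¹ * ‖Q b' s y‖ ^ 2 := by
          have h4 : 0 ≤ κ⁻¹ * (κ * ‖Q b s y‖ - ‖Q b' s y‖) ^ 2 := by positivity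
          have h5 : κ⁻¹ * (κ * ‖Q b s y‖ - ‖Q b' s y‖) ^ 2 =
              κ * ‖Q b s y‖ ^ 2 + κ⁻¹ * ‖Q b' s y‖ ^ 2 - 2 * (‖Q b s y‖ * ‖Q b' s y‖) := by
            field_simp
            ring
          linarith
        nlinarith
    · apply Continuous.intervalIntegrable
      fun_prop
    · apply Continuous.intervalIntegrable
      fun_prop
  refine (Finset.sum_le_sum h1).trans ?_
  rw [intervalIntegral.sum_integral_adjacent_intervals (a := fun j : ℕ => (j : ℝ) / X)
    (f := fun y => (X + κ) * ‖Q b s y‖ ^ 2 + κ⁻¹ * ‖Q b' s y‖ ^ 2) (n := X)]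
  · have e0 : ((0 : ℕ) : ℝ) / (X : ℝ) = 0 := by simp
    have e1 : (X : ℝ) / (X : ℝ) = 1 := div_self hX0.ne'
    simp only [e0, e1]
    rw [intervalIntegral.integral_add, intervalIntegral.integral_const_mul, intervalIntegral.integral_const_mul,
      Q_int, Q_int]
    · have h2 : ∑ n ∈ s, ‖b' n‖ ^ 2 ≤ κ ^ 2 * ∑ n ∈ s, ‖b n‖ ^ 2 := by
        rw [Finset.mul_sum]
        apply Finset.sum_le_sum
        intro n hn
        have h3 : ‖b' n‖ = ‖b n‖ * (2 * Real.pi * n) := by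
          rw [hb']
          simp only [norm_mul, Complex.norm_I, Complex.norm_natCast, Complex.norm_ofNat, Complex.norm_real,
            Real.norm_of_nonneg Real.pi_pos.le, mul_one]
        have h4 : (n : ℝ) ≤ X := by exact_mod_cast hs n hn
        have h5 : 2 * Real.pi * n ≤ κ := by
          rw [hκ]
          gcongr
        rw [h3, mul_pow, mul_comm]
        gcongr
      set W := ∑ n ∈ s, ‖b n‖ ^ 2 with hW
      have hW0 : 0 ≤ W := Finset.sum_nonneg fun n _ => by positivity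
      have h6 : κ⁻¹ * ∑ n ∈ s, ‖b' n‖ ^ 2 ≤ κ * W := by
        calc κ⁻¹ * ∑ n ∈ s, ‖b' n‖ ^ 2 ≤ κ⁻¹ * (κ ^ 2 * W) := by gcongr
          _ = κ * W := by
            field_simp
      have h7 : (X : ℝ) + κ + κ ≤ 14 * X := by
        rw [hκ]
        have := Real.pi_lt_d2
        nlinarith
      nlinarith
    · apply Continuous.intervalIntegrable
      fun_prop
    · apply Continuous.intervalIntegrable
      fun_prop
  · intro k _
    apply Continuous.intervalIntegrable
    fun_prop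

/-- the sums of squares of all dyadic blocks -/
noncomputable def DD (b : ℕ → ℂ) (x : ℝ) : ℕ → ℕ → ℝ
  | 0, u => ‖Q b (Ioc u (u + 1)) x‖ ^ 2
  | k + 1, u => DD b x k u + DD b x k (u + 2 ^ k) + ‖Q b (Ioc u (u + 2 ^ (k + 1))) x‖ ^ 2

lemma DD_nonneg (b : ℕ → ℂ) (x : ℝ) (k u : ℕ) : 0 ≤ DD b x k u := by
  induction k generalizing u with
  | zero =>
    unfold DD
    positivity
  | succ k ih =>
    unfold DD
    have := ih u
    have := ih (u + 2 ^ k)
    positivity

lemma top_le (b : ℕ → ℂ) (x : ℝ) (k u : ℕ) : ‖Q b (Ioc u (u + 2 ^ k)) x‖ ^ 2 ≤ DD b x k u := by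
  cases k with
  | zero =>
    unfold DD
    rw [pow_zero]
  | succ k =>
    unfold DD
    have := DD_nonneg b x k u
    have := DD_nonneg b x k (u + 2 ^ k)
    linarith

lemma Q_split (b : ℕ → ℂ) (x : ℝ) {u v w : ℕ} (h1 : u ≤ v) (h2 : v ≤ w) :
    Q b (Ioc u w) x = Q b (Ioc u v) x + Q b (Ioc v w) x := by
  unfold Q
  rw [← Finset.sum_union]
  · rw [Finset.Ioc_union_Ioc_eq_Ioc h1 h2]
  · rw [Finset.disjoint_left]
    intro n hn hn2
    rw [Finset.mem_Ioc] at hn hn2
    omega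

/-- the maximal inequality -/
lemma max_le (b : ℕ → ℂ) (x : ℝ) (k : ℕ) : ∀ u v : ℕ, u ≤ v → v ≤ u + 2 ^ k →
    ‖Q b (Ioc u v) x‖ ^ 2 ≤ (k + 1) * DD b x k u := by
  induction k with
  | zero =>
    intro u v h1 h2
    rw [pow_zero] at h2
    rcases Nat.eq_or_lt_of_le h1 with h | h
    · subst h
      have := DD_nonneg b x 0 u
      simp only [Finset.Ioc_self, Q, Finset.sum_empty, norm_zero]
      simpa using this
    · have h3 : v = u + 1 := by omega
      subst h3
      have := top_le b x 0 u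
      rw [pow_zero] at this
      simpa using this
  | succ k ih =>
    intro u v h1 h2
    have p0 := DD_nonneg b x k u
    have p1 := DD_nonneg b x k (u + 2 ^ k)
    have e : DD b x (k + 1) u = DD b x k u + DD b x k (u + 2 ^ k) + ‖Q b (Ioc u (u + 2 ^ (k + 1))) x‖ ^ 2 := rfl
    have p2 : 0 ≤ ‖Q b (Ioc u (u + 2 ^ (k + 1))) x‖ ^ 2 := by positivity
    have hk0 : (0 : ℝ) ≤ k := Nat.cast_nonneg _
    push_cast
    rcases le_total v (u + 2 ^ k) with h | h
    · have h3 := ih u v h1 h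
      rw [e]
      nlinarith
    · have h3 := ih (u + 2 ^ k) v h (by rw [pow_succ] at h2; omega)
      have h4 := top_le b x k u
      rw [Q_split b x (Nat.le_add_right u (2 ^ k)) h]
      set A := Q b (Ioc u (u + 2 ^ k)) x with hA
      set B := Q b (Ioc (u + 2 ^ k) v) x with hB
      have h5 : ‖A + B‖ ^ 2 ≤ (‖A‖ + ‖B‖) ^ 2 := by
        gcongr
        exact norm_add_le A B
      have hk1 : (0 : ℝ) < k + 1 := by linarith
      have h6 : (‖A‖ + ‖B‖) ^ 2 ≤ (k + 2) * (‖A‖ ^ 2 + ‖B‖ ^ 2 / (k + 1)) := by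
        have h7 : (k + 2) * (‖A‖ ^ 2 + ‖B‖ ^ 2 / (k + 1)) - (‖A‖ + ‖B‖) ^ 2 =
            ((k + 1) * ‖A‖ - ‖B‖) ^ 2 / (k + 1) := by
          field_simp
          ring
        have h8 : 0 ≤ ((k + 1) * ‖A‖ - ‖B‖) ^ 2 / (k + 1) := by positivity
        linarith
      have h7 : ‖B‖ ^ 2 / (k + 1) ≤ DD b x k (u + 2 ^ k) := by
        rw [div_le_iff₀ hk1]
        linarith
      rw [e]
      have h8 : (k + 2) * (‖A‖ ^ 2 + ‖B‖ ^ 2 / (k + 1)) ≤ (k + 2) * (DD b x k u + DD b x k (u + 2 ^ k)) := by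
        gcongr
      nlinarith

/-- the sum over the cells -/
lemma DD_sum (b : ℕ → ℂ) (hb : ∀ n, ‖b n‖ ≤ 1) (X : ℕ) (hX : 1 ≤ X) (x : ℕ → ℝ)
    (hx : ∀ j < X, x j ∈ Set.Icc ((j : ℝ) / X) ((j + 1) / X)) (k : ℕ) : ∀ u : ℕ, u + 2 ^ k ≤ X →
    ∑ j ∈ Finset.range X, DD b (x j) k u ≤ 14 * X * ((k + 1) * 2 ^ k) := by
  have hX0 : (0 : ℝ) < X := by exact_mod_cast hX
  have hblock : ∀ u l : ℕ, u + l ≤ X → ∑ j ∈ Finset.range X, ‖Q b (Ioc u (u + l)) (x j)‖ ^ 2 ≤ 14 * X * l := by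
    intro u l hul
    refine (large_sieve b (Ioc u (u + l)) X hX (fun n hn => ?_) x hx).trans ?_
    · rw [Finset.mem_Ioc] at hn
      omega
    · gcongr
      calc ∑ n ∈ Ioc u (u + l), ‖b n‖ ^ 2 ≤ ∑ n ∈ Ioc u (u + l), (1 : ℝ) := by
            apply Finset.sum_le_sum
            intro n _
            have := hb n
            have := norm_nonneg (b n)
            nlinarith
        _ = l := by
            rw [Finset.sum_const, Nat.card_Ioc, nsmul_eq_mul, mul_one]
            congr 1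
            omega
  induction k with
  | zero =>
    intro u hu
    unfold DD
    have := hblock u 1 (by simpa using hu)
    simpa using this
  | succ k ih =>
    intro u hu
    have e : ∀ j, DD b (x j) (k + 1) u = DD b (x j) k u + DD b (x j) k (u + 2 ^ k) +
        ‖Q b (Ioc u (u + 2 ^ (k + 1))) (x j)‖ ^ 2 := fun j => rfl
    have h2 : (2 : ℕ) ^ (k + 1) = 2 ^ k + 2 ^ k := by ring
    simp only [e, Finset.sum_add_distrib]
    have hu' : u + (2 ^ k + 2 ^ k) ≤ X := by rw [← h2]; exact hu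
    have h4 := ih (u + 2 ^ k) (by rw [add_assoc]; exact hu')
    have h3 := ih u ((Nat.add_le_add_left (Nat.le_add_right _ _) u).trans hu')
    have h5 := hblock u (2 ^ (k + 1)) hu
    push_cast at h5 ⊢
    have h6 : (14 * (X : ℝ) * (((k : ℝ) + 1) * 2 ^ k)) + 14 * X * ((k + 1) * 2 ^ k) + 14 * X * 2 ^ (k + 1) =
        14 * X * ((k + 1 + 1) * 2 ^ (k + 1)) := by
      rw [pow_succ]
      ring
    linarith

/-- **maximal large sieve** -/
theorem max_sieve (b : ℕ → ℂ) (hb : ∀ n, ‖b n‖ ≤ 1) (k : ℕ) (x : ℕ → ℝ) (R : ℕ → ℕ)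
    (hx : ∀ j : ℕ, j < 2 ^ k → x j ∈ Set.Icc ((j : ℝ) / 2 ^ k) ((j + 1) / 2 ^ k))
    (hR : ∀ j : ℕ, j < 2 ^ k → R j ≤ 2 ^ k) :
    ∑ j ∈ Finset.range (2 ^ k), ‖Q b (Ioc 0 (R j)) (x j)‖ ^ 2 ≤ 14 * (k + 1) ^ 2 * (2 ^ k) ^ 2 := by
  have h1 := DD_sum b hb (2 ^ k) Nat.one_le_two_pow x (by
    intro j hj
    push_cast
    exact hx j hj) k 0 (by omega)
  push_cast at h1
  have h2 : ∑ j ∈ Finset.range (2 ^ k), ‖Q b (Ioc 0 (R j)) (x j)‖ ^ 2 ≤
      ∑ j ∈ Finset.range (2 ^ k), (k + 1) * DD b (x j) k 0 := by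
    apply Finset.sum_le_sum
    intro j hj
    rw [Finset.mem_range] at hj
    exact max_le b (x j) k 0 (R j) (Nat.zero_le _) (by
      have := hR j hj
      omega)
  rw [← Finset.mul_sum] at h2
  refine h2.trans ?_
  have hk : (0 : ℝ) ≤ k + 1 := by positivity
  calc ((k : ℝ) + 1) * ∑ j ∈ Finset.range (2 ^ k), DD b (x j) k 0 ≤ (k + 1) * (14 * 2 ^ k * ((k + 1) * 2 ^ k)) := by
        gcongr
    _ = _ := by ring

end Pool.Agent.T2h81.EA
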