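import Pool.Agent.T2h81.EA.C1
import Pool.Agent.N220.CF.A

/-! Project EA (helper81): the points with large exponential sums, dimension and measures. -/

set_option autoImplicit false

open Finset Filter Topology MeasureTheory
open scoped ENNReal

namespace Pool.Agent.T2h81.EA

/-- the absolute value of the partial sums -/
noncomputable def V (b : ℕ → ℂ) (R : ℕ) (x : ℝ) : ℝ := ‖Q b (Ioc 0 R) x‖

/-- the cells -/
def cell (k j : ℕ) : Set ℝ := Set.Icc ((j : ℝ) / 2 ^ k) ((j + 1) / 2 ^ k)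

open Classical in
/-- the cells with a point where some sum of length at most `2 ^ k` is larger than `A` -/
noncomputable def bad (b : ℕ → ℂ) (k : ℕ) (A : ℝ) : Finset ℕ :=
  (Finset.range (2 ^ k)).filter fun j => ∃ x ∈ cell k j, ∃ R : ℕ, R ≤ 2 ^ k ∧ A < V b R x

/-- **the number of the bad cells** -/
theorem bad_card (b : ℕ → ℂ) (hb : ∀ n, ‖b n‖ ≤ 1) (k : ℕ) (A : ℝ) (hA : 0 ≤ A) :
    ((bad b k A).card : ℝ) * A ^ 2 ≤ 14 * (k + 1) ^ 2 * (2 ^ k) ^ 2 := by
  classical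
  have h1 : ∀ j ∈ bad b k A, ∃ x ∈ cell k j, ∃ R : ℕ, R ≤ 2 ^ k ∧ A < V b R x := by
    intro j hj
    unfold bad at hj
    rw [Finset.mem_filter] at hj
    exact hj.2
  choose! x hx R hR hV using h1
  have h2 := max_sieve b hb k (fun j => if j ∈ bad b k A then x j else (j : ℝ) / 2 ^ k)
    (fun j => if j ∈ bad b k A then R j else 0) (by
      intro j _
      split_ifs with h
      · exact hx j h
      · refine ⟨le_rfl, ?_⟩
        gcongr
        linarith) (by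
      intro j _
      split_ifs with h
      · exact hR j h
      · exact Nat.zero_le _)
  refine le_trans ?_ h2
  have h3 : bad b k A ⊆ Finset.range (2 ^ k) := Finset.filter_subset _ _
  calc ((bad b k A).card : ℝ) * A ^ 2 = ∑ _j ∈ bad b k A, A ^ 2 := by
        rw [Finset.sum_const, nsmul_eq_mul]
    _ ≤ ∑ j ∈ bad b k A, ‖Q b (Ioc 0 (if j ∈ bad b k A then R j else 0))
          (if j ∈ bad b k A then x j else (j : ℝ) / 2 ^ k)‖ ^ 2 := by
        apply Finset.sum_le_sum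
        intro j hj
        rw [if_pos hj, if_pos hj]
        have := (hV j hj).le
        unfold V at this
        gcongr
    _ ≤ _ := Finset.sum_le_sum_of_subset_of_nonneg h3 fun _ _ _ => by positivity

/-- `V_R(x) = O(R ^ a)` -/
def Bd (b : ℕ → ℂ) (a : ℝ) (x : ℝ) : Prop := ∃ C : ℝ, ∀ R : ℕ, V b R x ≤ C * (R : ℝ) ^ a

/-- the threshold -/
noncomputable def thr (a : ℝ) (k : ℕ) : ℝ := ((2 : ℝ) ^ k) ^ a

lemma thr_nonneg (a : ℝ) (k : ℕ) : 0 ≤ thr a k := by
  unfold thr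
  positivity

/-- the bad cells of level `k + 1` -/
noncomputable def BB (b : ℕ → ℂ) (a : ℝ) (k : ℕ) : Finset ℕ := bad b (k + 1) (thr a k)

lemma BB_card (b : ℕ → ℂ) (hb : ∀ n, ‖b n‖ ≤ 1) (a : ℝ) (k : ℕ) :
    ((BB b a k).card : ℝ) ≤ 56 * (k + 2) ^ 2 * ((2 : ℝ) ^ k) ^ (2 - 2 * a) := by
  have h1 := bad_card b hb (k + 1) (thr a k) (thr_nonneg a k)
  have h2 : (0 : ℝ) < (2 : ℝ) ^ k := by positivity
  have h3 : thr a k ^ 2 * ((2 : ℝ) ^ k) ^ (2 - 2 * a) = ((2 : ℝ) ^ k) ^ 2 := by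
    unfold thr
    rw [← Real.rpow_natCast (((2 : ℝ) ^ k) ^ a) 2, ← Real.rpow_mul h2.le, ← Real.rpow_add h2,
      ← Real.rpow_natCast ((2 : ℝ) ^ k) 2]
    congr 1
    push_cast
    ring
  have h4 : 0 < thr a k ^ 2 := by
    unfold thr
    positivity
  have h5 : thr a k ^ 2 * ((BB b a k).card : ℝ) ≤
      thr a k ^ 2 * (56 * (k + 2) ^ 2 * ((2 : ℝ) ^ k) ^ (2 - 2 * a)) := by
    calc thr a k ^ 2 * ((BB b a k).card : ℝ) = ((bad b (k + 1) (thr a k)).card : ℝ) * thr a k ^ 2 := by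
          unfold BB
          ring
      _ ≤ 14 * (((k + 1 : ℕ) : ℝ) + 1) ^ 2 * (2 ^ (k + 1)) ^ 2 := h1
      _ = 56 * (k + 2) ^ 2 * ((2 : ℝ) ^ k) ^ 2 := by
          push_cast
          rw [pow_succ (2 : ℝ) k]
          ring
      _ = 56 * (k + 2) ^ 2 * (thr a k ^ 2 * ((2 : ℝ) ^ k) ^ (2 - 2 * a)) := by rw [h3]
      _ = _ := by ring
  exact le_of_mul_le_mul_left h5 h4

lemma V_le (b : ℕ → ℂ) (hb : ∀ n, ‖b n‖ ≤ 1) (R : ℕ) (x : ℝ) : V b R x ≤ R := by
  unfold V Q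
  refine (norm_sum_le _ _).trans ?_
  calc ∑ n ∈ Ioc 0 R, ‖b n * Complex.exp (2 * Real.pi * Complex.I * n * x)‖ ≤ ∑ n ∈ Ioc 0 R, (1 : ℝ) := by
        apply Finset.sum_le_sum
        intro n _
        rw [norm_mul]
        have e : (2 * Real.pi * Complex.I * n * x : ℂ) = ((2 * Real.pi * n * x : ℝ) : ℂ) * Complex.I := by
          push_cast
          ring
        rw [e, Complex.norm_exp_ofReal_mul_I, mul_one]
        exact hb n
    _ = R := by simp

/-- the points with large sums are in infinitely many bad cells -/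
lemma often (b : ℕ → ℂ) (hb : ∀ n, ‖b n‖ ≤ 1) (a : ℝ) (ha : 0 ≤ a) (x : ℝ) (hx0 : 0 ≤ x) (hx1 : x ≤ 1)
    (h : ¬ Bd b a x) (K : ℕ) : ∃ k : ℕ, K ≤ k ∧ ∃ j ∈ BB b a k, x ∈ cell (k + 1) j := by
  classical
  unfold Bd at h
  push Not at h
  obtain ⟨R, hR⟩ := h ((2 : ℝ) ^ K)
  have hK1 : (1 : ℝ) ≤ (2 : ℝ) ^ K := one_le_pow₀ (by norm_num)
  have hVR := V_le b hb R x
  have hR1 : 1 ≤ R := by
    by_contra hc
    have h0 : R = 0 := by omega
    subst h0
    have h1 : V b 0 x = 0 := by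
      unfold V Q
      simp
    rw [h1] at hR
    have h2 : (0 : ℝ) ≤ 2 ^ K * ((0 : ℕ) : ℝ) ^ a := by positivity
    linarith
  have hRa : (1 : ℝ) ≤ (R : ℝ) ^ a := Real.one_le_rpow (by exact_mod_cast hR1) ha
  have hRK : (2 : ℝ) ^ K < R := by
    have : (2 : ℝ) ^ K * 1 ≤ 2 ^ K * (R : ℝ) ^ a := by gcongr
    linarith
  have hRK' : 2 ^ K < R := by exact_mod_cast hRK
  set k := Nat.log 2 R with hk
  have h1 : 2 ^ k ≤ R := Nat.pow_log_le_self 2 (by omega)
  have h2 : R < 2 ^ (k + 1) := Nat.lt_pow_succ_log_self (by norm_num) R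
  have hKk : K ≤ k := by
    rw [hk]
    exact (Nat.le_log_iff_pow_le (by norm_num) (by omega)).2 hRK'.le
  have h3 : thr a k < V b R x := by
    unfold thr
    have h4 : ((2 : ℝ) ^ k) ^ a ≤ (R : ℝ) ^ a := by
      apply Real.rpow_le_rpow (by positivity) _ ha
      exact_mod_cast h1
    have h5 : 1 * (R : ℝ) ^ a ≤ 2 ^ K * (R : ℝ) ^ a := by gcongr
    linarith
  -- the cell
  have hp : (0 : ℝ) < (2 : ℝ) ^ (k + 1) := by positivity
  obtain ⟨j, hj, hxj⟩ : ∃ j < 2 ^ (k + 1), x ∈ cell (k + 1) j := by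
    rcases lt_or_eq_of_le hx1 with hx | hx
    · refine ⟨⌊x * 2 ^ (k + 1)⌋₊, ?_, ?_⟩
      · rw [Nat.floor_lt (by positivity)]
        push_cast
        nlinarith
      · constructor
        · rw [div_le_iff₀ hp]
          exact Nat.floor_le (by positivity)
        · rw [le_div_iff₀ hp]
          exact (Nat.lt_floor_add_one _).le
    · refine ⟨2 ^ (k + 1) - 1, Nat.sub_lt (by positivity) one_pos, ?_⟩
      have e : ((2 ^ (k + 1) - 1 : ℕ) : ℝ) = 2 ^ (k + 1) - 1 := by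
        rw [Nat.cast_sub Nat.one_le_two_pow]
        push_cast
        ring
      unfold cell
      rw [e, hx]
      constructor
      · rw [div_le_iff₀ hp]
        linarith
      · rw [le_div_iff₀ hp]
        linarith
  refine ⟨k, hKk, j, ?_, hxj⟩
  unfold BB bad
  rw [Finset.mem_filter, Finset.mem_range]
  exact ⟨hj, x, hxj, R, h2.le, h3⟩

/-- summability -/
lemma summ (a D : ℝ) (hD : 2 - 2 * a < D) :
    Summable fun k : ℕ => 56 * ((k : ℝ) + 2) ^ 2 * ((2 : ℝ) ^ k) ^ (2 - 2 * a) * (1 / 2 ^ (k + 1)) ^ D := by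
  set r : ℝ := (2 : ℝ) ^ (2 - 2 * a - D) with hr
  have hr0 : 0 < r := by positivity
  have hr1 : r < 1 := Real.rpow_lt_one_of_one_lt_of_neg (by norm_num) (by linarith)
  have h1 : ∀ k : ℕ, 56 * ((k : ℝ) + 2) ^ 2 * ((2 : ℝ) ^ k) ^ (2 - 2 * a) * (1 / 2 ^ (k + 1)) ^ D =
      (56 * (1 / 2) ^ D) * (((k : ℝ) ^ 2 * r ^ k) + 4 * ((k : ℝ) ^ 1 * r ^ k) + 4 * ((k : ℝ) ^ 0 * r ^ k)) := by
    intro k
    have e1 : ((2 : ℝ) ^ k) ^ (2 - 2 * a) * (1 / 2 ^ (k + 1)) ^ D = (1 / 2) ^ D * r ^ k := by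
      have h2 : (1 / (2 : ℝ) ^ (k + 1)) ^ D = (1 / 2) ^ D * ((2 : ℝ) ^ k) ^ (-D) := by
        rw [Real.rpow_neg (by positivity), ← Real.inv_rpow (by positivity), ← Real.mul_rpow (by norm_num)
          (by positivity)]
        congr 1
        rw [pow_succ]
        field_simp
      rw [h2, hr, ← Real.rpow_natCast ((2 : ℝ) ^ (2 - 2 * a - D)) k, ← Real.rpow_mul (by norm_num),
        ← Real.rpow_natCast 2 k, ← Real.rpow_mul (by norm_num), ← Real.rpow_mul (by norm_num)]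
      have e3 : (2 : ℝ) ^ ((k : ℝ) * (2 - 2 * a)) * ((1 / 2) ^ D * 2 ^ ((k : ℝ) * -D)) =
          (1 / 2) ^ D * (2 ^ ((k : ℝ) * (2 - 2 * a)) * 2 ^ ((k : ℝ) * -D)) := by ring
      rw [e3, ← Real.rpow_add (by norm_num)]
      congr 2
      ring
    calc 56 * ((k : ℝ) + 2) ^ 2 * ((2 : ℝ) ^ k) ^ (2 - 2 * a) * (1 / 2 ^ (k + 1)) ^ D =
        56 * ((k : ℝ) + 2) ^ 2 * (((2 : ℝ) ^ k) ^ (2 - 2 * a) * (1 / 2 ^ (k + 1)) ^ D) := by ring
      _ = _ := by
        rw [e1]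
        ring
  simp only [h1]
  apply Summable.mul_left
  have hn : ‖r‖ < 1 := by rwa [Real.norm_of_nonneg hr0.le]
  exact ((summable_pow_mul_geometric_of_norm_lt_one 2 hn).add
    ((summable_pow_mul_geometric_of_norm_lt_one 1 hn).mul_left 4)).add
    ((summable_pow_mul_geometric_of_norm_lt_one 0 hn).mul_left 4)

lemma BB_summ (b : ℕ → ℂ) (hb : ∀ n, ‖b n‖ ≤ 1) (a D : ℝ) (hD : 2 - 2 * a < D) :
    Summable fun k : ℕ => ((BB b a k).card : ℝ) * (1 / 2 ^ (k + 1)) ^ D := by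
  refine Summable.of_nonneg_of_le (fun k => by positivity) (fun k => ?_) (summ a D hD)
  have := BB_card b hb a k
  gcongr

/-- **dimension** -/
theorem dim01 (b : ℕ → ℂ) (hb : ∀ n, ‖b n‖ ≤ 1) (a : ℝ) (ha : 0 ≤ a) (ha1 : a ≤ 1) :
    dimH {x : ℝ | 0 ≤ x ∧ x ≤ 1 ∧ ¬ Bd b a x} ≤ ENNReal.ofReal (2 * (1 - a)) := by
  have key : ∀ D : ℝ, 2 * (1 - a) < D → dimH {x : ℝ | 0 ≤ x ∧ x ≤ 1 ∧ ¬ Bd b a x} ≤ ENNReal.ofReal D := by
    intro D hD
    have hD0 : 0 < D := by linarith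
    have h1 := Pool.Agent.N220.CF.dimH_limsup (Y := ℝ) (ι := Σ k : ℕ, {j // j ∈ BB b a k})
      (fun i => cell (i.1 + 1) i.2) (fun i => 1 / 2 ^ (i.1 + 1)) (fun i => by positivity)
      (fun i => by
        unfold cell
        rw [Real.ediam_Icc]
        apply ENNReal.ofReal_le_ofReal
        rw [← sub_div, add_sub_cancel_left]) hD0 (by
        rw [summable_sigma_of_nonneg fun i => by positivity]
        refine ⟨fun k => Summable.of_finite, ?_⟩
        refine (BB_summ b hb a D (by linarith)).congr fun k => ?_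
        rw [tsum_fintype]
        simp only [Finset.sum_const, nsmul_eq_mul, Finset.card_univ, Fintype.card_coe])
    refine le_trans (dimH_mono fun x hx => ?_) h1
    obtain ⟨hx0, hx1, hx2⟩ := hx
    rw [Set.mem_ofPred_eq]
    by_contra hfin
    rw [Set.not_infinite] at hfin
    obtain ⟨K, hK⟩ := (hfin.image fun i : Σ k : ℕ, {j // j ∈ BB b a k} => i.1).bddAbove
    obtain ⟨k, hk, j, hj, hxj⟩ := often b hb a ha x hx0 hx1 hx2 (K + 1)
    have h3 := hK ⟨(⟨k, ⟨j, hj⟩⟩ : Σ k : ℕ, {j // j ∈ BB b a k}), hxj, rfl⟩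
    simp only at h3
    omega
  apply ENNReal.le_of_forall_pos_le_add
  intro ε hε _
  have h1 := key (2 * (1 - a) + ε) (by
    have : (0 : ℝ) < ε := hε
    linarith)
  rw [ENNReal.ofReal_add (by linarith) ε.coe_nonneg, ENNReal.ofReal_coe_nnreal] at h1
  exact h1

/-- **measures** -/
theorem meas01 (b : ℕ → ℂ) (hb : ∀ n, ‖b n‖ ≤ 1) (a : ℝ) (ha : 0 ≤ a) (ν : Measure ℝ) (C s ρ₀ : ℝ)
    (hρ₀ : 0 < ρ₀) (hν : ∀ x ρ : ℝ, 0 < ρ → ρ ≤ ρ₀ → ν (Metric.closedBall x ρ) ≤ ENNReal.ofReal (C * ρ ^ s))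
    (has : 2 - 2 * a < s) : ∀ᵐ x ∂ν, 0 ≤ x → x ≤ 1 → Bd b a x := by
  obtain ⟨k₀, hk₀⟩ : ∃ k₀ : ℕ, 1 / 2 ^ k₀ ≤ ρ₀ := by
    obtain ⟨n, hn⟩ := exists_pow_lt_of_lt_one hρ₀ (show (1 / 2 : ℝ) < 1 by norm_num)
    refine ⟨n, ?_⟩
    rw [one_div, ← inv_pow, ← one_div]
    exact hn.le
  set p : ℕ → ℝ → Prop := fun k x => k₀ ≤ k ∧ ∃ j ∈ BB b a k, x ∈ cell (k + 1) j with hp
  have hC : ∀ k, ν {x | p k x} ≤ ENNReal.ofReal (|C| * (((BB b a k).card : ℝ) * (1 / 2 ^ (k + 1)) ^ s)) := by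
    intro k
    by_cases hk : k₀ ≤ k
    · have h1 : {x | p k x} ⊆ ⋃ j ∈ BB b a k, cell (k + 1) j := by
        intro x hx
        obtain ⟨-, j, hj, hxj⟩ := hx
        rw [Set.mem_iUnion₂]
        exact ⟨j, hj, hxj⟩
      refine (measure_mono h1).trans ((measure_biUnion_finset_le _ _).trans ?_)
      have h2 : ∀ j ∈ BB b a k, ν (cell (k + 1) j) ≤ ENNReal.ofReal (|C| * (1 / 2 ^ (k + 1)) ^ s) := by
        intro j _
        have h3 : cell (k + 1) j ⊆ Metric.closedBall ((j : ℝ) / 2 ^ (k + 1)) (1 / 2 ^ (k + 1)) := by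
          intro x hx
          unfold cell at hx
          rw [Metric.mem_closedBall, Real.dist_eq, abs_le]
          have h4 : ((j : ℝ) + 1) / 2 ^ (k + 1) = j / 2 ^ (k + 1) + 1 / 2 ^ (k + 1) := add_div _ _ _
          have h5 : (0 : ℝ) < 1 / 2 ^ (k + 1) := by positivity
          constructor
          · linarith [hx.1]
          · linarith [hx.2]
        refine (measure_mono h3).trans ((hν _ _ (by positivity) ?_).trans ?_)
        · refine le_trans ?_ hk₀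
          apply one_div_le_one_div_of_le (by positivity)
          exact pow_le_pow_right₀ (by norm_num) (by omega)
        · apply ENNReal.ofReal_le_ofReal
          gcongr
          exact le_abs_self C
      refine (Finset.sum_le_sum h2).trans ?_
      rw [Finset.sum_const, nsmul_eq_mul, ← ENNReal.ofReal_natCast, ← ENNReal.ofReal_mul (by positivity)]
      apply ENNReal.ofReal_le_ofReal
      apply le_of_eq
      ring
    · have h1 : {x | p k x} = ∅ := by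
        ext x
        simp only [hp, Set.mem_ofPred_eq, Set.mem_empty_iff_false, iff_false]
        exact fun h => hk h.1
      rw [h1, measure_empty]
      exact zero_le
  have hsum : ∑' k, ν {x | p k x} ≠ ∞ := by
    refine ne_top_of_le_ne_top ?_ (ENNReal.tsum_le_tsum hC)
    rw [← ENNReal.ofReal_tsum_of_nonneg (fun k => by positivity) ((BB_summ b hb a s has).mul_left _)]
    exact ENNReal.ofReal_ne_top
  have h1 := measure_setOfPred_frequently_eq_zero hsum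
  have h2 : ∀ᵐ x ∂ν, ¬ ∃ᶠ k in atTop, p k x := by
    rw [ae_iff]
    simp only [not_not]
    exact h1
  filter_upwards [h2] with x hx hx0 hx1
  by_contra hc
  apply hx
  rw [Filter.frequently_atTop]
  intro K
  obtain ⟨k, hk, j, hj, hxj⟩ := often b hb a ha x hx0 hx1 hc (K + k₀)
  exact ⟨k, by omega, by omega, j, hj, hxj⟩

end Pool.Agent.T2h81.EA
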