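import Mathlib

/-! Project EA (helper81): generic continuous maps of the Cantor space to the line. -/

set_option autoImplicit false

open Filter Topology

namespace Pool.Agent.T2h81.EA

/-- the first `n` coordinates -/
def res (n : ℕ) (ξ : ℕ → Bool) : Fin n → Bool := fun i => ξ i

/-- extension by false -/
def ext (n : ℕ) (σ : Fin n → Bool) : ℕ → Bool := fun i => if h : i < n then σ ⟨i, h⟩ else false

lemma res_ext (n : ℕ) (σ : Fin n → Bool) : res n (ext n σ) = σ := by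
  funext i
  simp [res, ext]

lemma res_mono {m n : ℕ} (h : m ≤ n) {ξ ζ : ℕ → Bool} (e : res n ξ = res n ζ) : res m ξ = res m ζ := by
  funext i
  exact congrFun e ⟨i.1, i.2.trans_le h⟩

lemma res_cont (n : ℕ) : Continuous (res n) :=
  continuous_pi fun _ => continuous_apply _

/-- uniform continuity -/
lemma unif {M : Type*} [PseudoMetricSpace M] (f : (ℕ → Bool) → M) (hf : Continuous f) (ε : ℝ) (hε : 0 < ε) :
    ∃ n : ℕ, ∀ ξ ζ, res n ξ = res n ζ → dist (f ξ) (f ζ) < ε := by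
  have h1 : ∀ ξ : ℕ → Bool, ∃ n : ℕ, ∀ ζ ∈ PiNat.cylinder ξ n, dist (f ζ) (f ξ) < ε / 2 := by
    intro ξ
    have h2 : f ⁻¹' Metric.ball (f ξ) (ε / 2) ∈ 𝓝 ξ := hf.continuousAt (Metric.ball_mem_nhds _ (by positivity))
    obtain ⟨s, ⟨x, n, rfl⟩, hx, hs⟩ := (PiNat.isTopologicalBasis_cylinders (fun _ : ℕ => Bool)).mem_nhds_iff.1 h2
    refine ⟨n, fun ζ hζ => ?_⟩
    have h3 : ζ ∈ PiNat.cylinder x n := by
      rw [PiNat.mem_cylinder_iff_eq] at hx
      rwa [hx] at hζ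
    exact hs h3
  choose n hn using h1
  obtain ⟨t, ht⟩ := isCompact_univ.elim_finite_subcover (fun ξ : ℕ → Bool => PiNat.cylinder ξ (n ξ))
    (fun ξ => PiNat.isOpen_cylinder _ ξ (n ξ)) (fun ξ _ => Set.mem_iUnion.2 ⟨ξ, PiNat.self_mem_cylinder ξ _⟩)
  refine ⟨t.sup n, fun ξ ζ h => ?_⟩
  obtain ⟨x, hx⟩ := Set.mem_iUnion.1 (ht (Set.mem_univ ξ))
  obtain ⟨hxt, hx⟩ := Set.mem_iUnion.1 hx
  have h2 : ζ ∈ PiNat.cylinder x (n x) := by
    intro i hi
    have h3 : n x ≤ t.sup n := Finset.le_sup hxt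
    rw [← hx i hi]
    exact (congrFun h ⟨i, hi.trans_le h3⟩).symm
  have h4 := hn x ξ hx
  have h5 := hn x ζ h2
  have h6 := dist_triangle_right (f ξ) (f ζ) (f x)
  linarith

/-- locally constant maps -/
def lc (n : ℕ) (v : (Fin n → Bool) → ℝ) : C(ℕ → Bool, ℝ) :=
  ⟨fun ξ => v (res n ξ), continuous_of_discreteTopology.comp (res_cont n)⟩

/-- density from locally constant maps -/
lemma dense_of (S : Set C(ℕ → Bool, ℝ)) (n₀ : ℕ)
    (h : ∀ n, n₀ ≤ n → ∀ v : (Fin n → Bool) → ℝ, ∀ ε : ℝ, 0 < ε →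
      ∃ u : (Fin n → Bool) → ℝ, (∀ σ, |u σ - v σ| < ε) ∧ lc n u ∈ S) : Dense S := by
  rw [Metric.dense_iff]
  intro f r hr
  obtain ⟨n₁, hn₁⟩ := unif f f.continuous (r / 4) (by positivity)
  obtain ⟨u, hu, huS⟩ := h (max n₀ n₁) (le_max_left _ _) (fun σ => f (ext _ σ)) (r / 4) (by positivity)
  refine ⟨lc _ u, ?_, huS⟩
  rw [Metric.mem_ball]
  refine lt_of_le_of_lt ((ContinuousMap.dist_le (C := r / 2) (by positivity)).2 fun ξ => ?_) (by linarith)
  have h1 := hu (res (max n₀ n₁) ξ)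
  have h2 := hn₁ (ext (max n₀ n₁) (res (max n₀ n₁) ξ)) ξ (res_mono (le_max_right _ _) (res_ext _ _))
  rw [Real.dist_eq] at h2 ⊢
  have h3 := abs_sub_le (lc _ u ξ) (f (ext (max n₀ n₁) (res (max n₀ n₁) ξ))) (f ξ)
  have h4 : lc (max n₀ n₁) u ξ = u (res (max n₀ n₁) ξ) := rfl
  rw [h4] at h3 ⊢
  linarith

/-- the condition at all points is open -/
lemma open_of (H : (ℕ → Bool) → ℝ → ℝ) (hH : Continuous (Function.uncurry H)) :
    IsOpen {f : C(ℕ → Bool, ℝ) | ∀ ξ, 0 < H ξ (f ξ)} := by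
  let Ψ : C(ℕ → Bool, ℝ) → C(ℕ → Bool, ℝ) := fun f =>
    ⟨fun ξ => H ξ (f ξ), hH.comp (continuous_id.prodMk f.continuous)⟩
  have h1 : Continuous Ψ := by
    apply ContinuousMap.continuous_of_continuous_uncurry
    exact hH.comp (continuous_snd.prodMk continuous_eval)
  have h2 : {f : C(ℕ → Bool, ℝ) | ∀ ξ, 0 < H ξ (f ξ)} = Ψ ⁻¹' {g | Set.MapsTo g Set.univ (Set.Ioi 0)} := by
    ext f
    exact ⟨fun h ξ _ => h ξ, fun h ξ => h (Set.mem_univ ξ)⟩
  rw [h2]
  exact (ContinuousMap.isOpen_setOfPred_mapsTo isCompact_univ isOpen_Ioi).preimage h1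

/-- **generic maps** -/
theorem gen_map (m : ℕ) (G : (Fin m → Bool) → ℕ → ℝ → ℝ) (hG : ∀ τ T, Continuous (G τ T))
    (h : ∀ N : ℕ, ∀ l : ℝ, 0 < l → ∃ T : ℕ, N ≤ T ∧ ∀ τ : Fin m → Bool, ∀ α β : ℝ, α + l ≤ β →
      ∃ x ∈ Set.Ioo α β, 0 < G τ T x) :
    ∀ᶠ f in residual C(ℕ → Bool, ℝ), ∃ᶠ T : ℕ in atTop, ∀ ξ, 0 < G (res m ξ) T (f ξ) := by
  have h1 : ∀ N : ℕ, ∀ᶠ f in residual C(ℕ → Bool, ℝ), ∃ T, N ≤ T ∧ ∀ ξ, 0 < G (res m ξ) T (f ξ) := by
    intro N
    have hopen : IsOpen {f : C(ℕ → Bool, ℝ) | ∃ T, N ≤ T ∧ ∀ ξ, 0 < G (res m ξ) T (f ξ)} := by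
      have e : {f : C(ℕ → Bool, ℝ) | ∃ T, N ≤ T ∧ ∀ ξ, 0 < G (res m ξ) T (f ξ)} =
          ⋃ T : {T : ℕ // N ≤ T}, {f : C(ℕ → Bool, ℝ) | ∀ ξ, 0 < G (res m ξ) T.1 (f ξ)} := by
        ext f
        simp only [Set.mem_ofPred_eq, Set.mem_iUnion, Subtype.exists, exists_prop]
      rw [e]
      refine isOpen_iUnion fun T => open_of (fun ξ x => G (res m ξ) T.1 x) ?_
      have h2 : Continuous (Function.uncurry fun (τ : Fin m → Bool) (x : ℝ) => G τ T.1 x) :=
        continuous_prod_of_discrete_left.2 fun τ => hG τ T.1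
      exact h2.comp ((res_cont m).prodMap continuous_id)
    have hdense : Dense {f : C(ℕ → Bool, ℝ) | ∃ T, N ≤ T ∧ ∀ ξ, 0 < G (res m ξ) T (f ξ)} := by
      apply dense_of _ m
      intro n hn v ε hε
      obtain ⟨T, hT, hx⟩ := h N ε hε
      have h3 : ∀ σ : Fin n → Bool, ∃ x, |x - v σ| < ε ∧ 0 < G (res m (ext n σ)) T x := by
        intro σ
        obtain ⟨x, hx1, hx2⟩ := hx (res m (ext n σ)) (v σ - ε) (v σ + ε) (by linarith)
        refine ⟨x, ?_, hx2⟩
        rw [abs_lt]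
        exact ⟨by linarith [hx1.1], by linarith [hx1.2]⟩
      choose u hu hu2 using h3
      refine ⟨u, hu, T, hT, fun ξ => ?_⟩
      have h4 : res m ξ = res m (ext n (res n ξ)) := res_mono hn (res_ext n (res n ξ)).symm
      rw [h4]
      exact hu2 (res n ξ)
    exact residual_of_dense_open hopen hdense
  filter_upwards [eventually_countable_forall.2 h1] with f hf
  rw [frequently_atTop]
  intro N
  obtain ⟨T, hT, h2⟩ := hf N
  exact ⟨T, hT, h2⟩

/-- **generic maps are injective** -/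
theorem gen_inj : ∀ᶠ f : C(ℕ → Bool, ℝ) in residual C(ℕ → Bool, ℝ), Function.Injective f := by
  have h1 : ∀ (n : ℕ) (τ τ' : Fin n → Bool), ∀ᶠ f in residual C(ℕ → Bool, ℝ), τ ≠ τ' →
      ∀ ξ ζ, res n ξ = τ → res n ζ = τ' → f ξ ≠ f ζ := by
    intro n τ τ'
    by_cases hne : τ = τ'
    · exact Eventually.of_forall fun f h => absurd hne h
    have hcl : ∀ τ : Fin n → Bool, IsClosed {ξ | res n ξ = τ} := fun τ =>
      isClosed_eq (res_cont n) continuous_const
    have hopen : IsOpen {f : C(ℕ → Bool, ℝ) | ∀ ξ ζ, res n ξ = τ → res n ζ = τ' → f ξ ≠ f ζ} := by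
      let Ψ : C(ℕ → Bool, ℝ) → C((ℕ → Bool) × (ℕ → Bool), ℝ) := fun f =>
        ⟨fun p => f p.1 - f p.2, by fun_prop⟩
      have h1 : Continuous Ψ := by
        apply ContinuousMap.continuous_of_continuous_uncurry
        have h2 : Continuous fun q : C(ℕ → Bool, ℝ) × ((ℕ → Bool) × (ℕ → Bool)) => q.1 q.2.1 :=
          continuous_eval.comp (continuous_fst.prodMk (continuous_fst.comp continuous_snd))
        have h3 : Continuous fun q : C(ℕ → Bool, ℝ) × ((ℕ → Bool) × (ℕ → Bool)) => q.1 q.2.2 :=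
          continuous_eval.comp (continuous_fst.prodMk (continuous_snd.comp continuous_snd))
        exact h2.sub h3
      have h2 : {f : C(ℕ → Bool, ℝ) | ∀ ξ ζ, res n ξ = τ → res n ζ = τ' → f ξ ≠ f ζ} =
          Ψ ⁻¹' {g | Set.MapsTo g ({ξ | res n ξ = τ} ×ˢ {ζ | res n ζ = τ'}) {0}ᶜ} := by
        ext f
        constructor
        · rintro h ⟨ξ, ζ⟩ ⟨hξ, hζ⟩
          exact sub_ne_zero.2 (h ξ ζ hξ hζ)
        · intro h ξ ζ hξ hζ
          have h4 : f ξ - f ζ ≠ 0 := h (show (ξ, ζ) ∈ {ξ | res n ξ = τ} ×ˢ {ζ | res n ζ = τ'} from ⟨hξ, hζ⟩)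
          exact sub_ne_zero.1 h4
      rw [h2]
      exact (ContinuousMap.isOpen_setOfPred_mapsTo ((hcl τ).prod (hcl τ')).isCompact
        isOpen_compl_singleton).preimage h1
    have hdense : Dense {f : C(ℕ → Bool, ℝ) | ∀ ξ ζ, res n ξ = τ → res n ζ = τ' → f ξ ≠ f ζ} := by
      apply dense_of _ n
      intro n' hn v ε hε
      classical
      refine ⟨fun σ => ε / 2 * (round (v σ / (ε / 2)) : ℤ) +
        (if res n (ext n' σ) = τ' then ε / 4 else 0), fun σ => ?_, ?_⟩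
      · have h3 := abs_sub_round (v σ / (ε / 2))
        have h4 : |ε / 2 * (round (v σ / (ε / 2)) : ℤ) - v σ| ≤ ε / 4 := by
          have h5 : ε / 2 * (round (v σ / (ε / 2)) : ℤ) - v σ =
              -(ε / 2 * (v σ / (ε / 2) - (round (v σ / (ε / 2)) : ℤ))) := by
            field_simp
            ring
          rw [h5, abs_neg, abs_mul, abs_of_pos (by positivity : 0 < ε / 2)]
          nlinarith
        simp only
        split_ifs
        · rw [abs_le] at h4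
          rw [abs_lt]
          constructor <;> linarith [h4.1, h4.2]
        · rw [add_zero]
          linarith
      · intro ξ ζ hξ hζ
        have e1 : res n (ext n' (res n' ξ)) = τ := by
          rw [← hξ]
          exact res_mono hn (res_ext n' (res n' ξ))
        have e2 : res n (ext n' (res n' ζ)) = τ' := by
          rw [← hζ]
          exact res_mono hn (res_ext n' (res n' ζ))
        change ε / 2 * (round (v (res n' ξ) / (ε / 2)) : ℤ) + (if res n (ext n' (res n' ξ)) = τ' then ε / 4 else 0)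
          ≠ ε / 2 * (round (v (res n' ζ) / (ε / 2)) : ℤ) + (if res n (ext n' (res n' ζ)) = τ' then ε / 4 else 0)
        rw [e1, e2, if_neg hne, if_pos rfl]
        intro h
        have h5 : (2 * (round (v (res n' ξ) / (ε / 2)) - round (v (res n' ζ) / (ε / 2))) : ℝ) = 1 := by
          have : ε / 4 * (2 * (round (v (res n' ξ) / (ε / 2)) - round (v (res n' ζ) / (ε / 2))) : ℝ) = ε / 4 * 1 := by
            linarith
          exact mul_left_cancel₀ (by positivity : ε / 4 ≠ 0) this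
        have h6 : 2 * (round (v (res n' ξ) / (ε / 2)) - round (v (res n' ζ) / (ε / 2))) = 1 := by
          exact_mod_cast h5
        omega
    filter_upwards [residual_of_dense_open hopen hdense] with f hf _
    exact hf
  have h2 : ∀ᶠ f in residual C(ℕ → Bool, ℝ), ∀ (n : ℕ) (τ τ' : Fin n → Bool), τ ≠ τ' →
      ∀ ξ ζ, res n ξ = τ → res n ζ = τ' → f ξ ≠ f ζ :=
    eventually_countable_forall.2 fun n => eventually_countable_forall.2 fun τ =>
      eventually_countable_forall.2 fun τ' => h1 n τ τ'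
  filter_upwards [h2] with f hf ξ ζ hξζ
  by_contra hne
  obtain ⟨i, hi⟩ := Function.ne_iff.1 hne
  exact hf (i + 1) (res (i + 1) ξ) (res (i + 1) ζ)
    (fun h => hi (congrFun h ⟨i, Nat.lt_succ_self i⟩)) ξ ζ rfl rfl hξζ

end Pool.Agent.T2h81.EA
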