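import Pool.Agent.T2h81.EA.B4
import Pool.Agent.T2h81.EA.D1
import Pool.Agent.N806.HG.CHOW

/-! Project EA (helper81): large values in all directions, with a margin; generic maps of the Cantor space. -/

set_option autoImplicit false

open Filter Topology

namespace Pool.Agent.T2h81.EA

/-- The Möbius exponential sum `F_R(x) = ∑_{n=1}^R μ(n) e^{2πinx}`. -/
noncomputable def FM (R : ℕ) (x : ℝ) : ℂ :=
  ∑ n ∈ Finset.Icc 1 R, ((ArithmeticFunction.moebius n : ℤ) : ℂ) *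
    Complex.exp (2 * Real.pi * Complex.I * n * x)

/-- local Parseval -/
def LP (ε : ℝ) (R : ℕ) : Prop := ∀ α β : ℝ, α ≤ β → β ≤ α + 1 →
  |(∫ x in α..β, ‖FM R x‖ ^ 2) - 6 / Real.pi ^ 2 * (β - α) * R| ≤ ε * R ∧
  ∀ w : ℂ, ‖w‖ = 1 → |(∫ x in α..β, (w * FM R x).re ^ 2) - 3 / Real.pi ^ 2 * (β - α) * R| ≤ ε * R

lemma FM_eq (R : ℕ) (x : ℝ) : FM R x = F mu R x := by
  unfold FM F
  apply Finset.sum_congr rfl
  intro n _
  unfold mu
  push_cast
  rfl

lemma FM_cont (R : ℕ) : Continuous (FM R) := by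
  unfold FM
  fun_prop

lemma LP_of {ε η : ℝ} (hη : η ≤ ε / 2) (hη0 : 0 < η) {R : ℕ}
    (h : Equi mu (6 / Real.pi ^ 2) η R) : LP ε R := by
  intro α β hαβ hβ
  have hR0 : (0 : ℝ) ≤ R := Nat.cast_nonneg _
  constructor
  · have h1 := h.norm hαβ hβ
    simp only [← FM_eq] at h1
    refine h1.trans ?_
    nlinarith
  · intro w hw
    have h1 := h w hw α β hαβ hβ
    unfold En dir at h1
    simp only [← FM_eq] at h1
    rw [show 6 / Real.pi ^ 2 / 2 = 3 / Real.pi ^ 2 by ring] at h1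
    refine h1.trans ?_
    nlinarith

lemma LP_mono {η ε : ℝ} (h : η ≤ ε) {R : ℕ} (hR : LP η R) : LP ε R := by
  intro α β hαβ hβ
  have hR0 : (0 : ℝ) ≤ R := Nat.cast_nonneg _
  have h2 : η * (R : ℝ) ≤ ε * R := mul_le_mul_of_nonneg_right h hR0
  exact ⟨(hR α β hαβ hβ).1.trans h2, fun w hw => ((hR α β hαβ hβ).2 w hw).trans h2⟩

lemma gap_pos' {c s : ℝ} (hc : c < s) (hs : 0 < s) : 0 < s ^ 2 - (max c 0) ^ 2 := by
  have h1 : max c 0 < s := max_lt hc hs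
  have h2 : 0 ≤ max c 0 := le_max_right _ _
  nlinarith

/-- large absolute values -/
lemma big6 (c l : ℝ) (hc : c < Real.sqrt 6 / Real.pi) (hl : 0 < l) (hl1 : l ≤ 1) : ∃ η : ℝ, 0 < η ∧
    ∀ R : ℕ, 1 ≤ R → LP η R → ∀ α β : ℝ, α + l ≤ β →
      ∃ x ∈ Set.Ioo α β, c * Real.sqrt R < ‖FM R x‖ := by
  have s6 : 0 < Real.sqrt 6 / Real.pi := div_pos (Real.sqrt_pos.2 (by norm_num)) Real.pi_pos
  have h1 := mul_pos (gap_pos' hc s6) hl
  refine ⟨(((Real.sqrt 6 / Real.pi) ^ 2 - (max c 0) ^ 2) * l) / 2, by positivity, fun R hR h α β hβ => ?_⟩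
  have h2 := (h α (α + l) (by linarith) (by linarith)).1
  have sq6 : (Real.sqrt 6 / Real.pi) ^ 2 = 6 / Real.pi ^ 2 := by
    rw [div_pow, Real.sq_sqrt (by norm_num)]
  rw [← sq6] at h2
  obtain ⟨x, hx, hx2⟩ := large_of (g := fun x => ‖FM R x‖) (FM_cont R).norm (fun _ => norm_nonneg _)
    (by linarith) hR h2 (c := max c 0) (by rw [add_sub_cancel_left]; linarith)
  refine ⟨x, ⟨hx.1, lt_of_lt_of_le hx.2 hβ⟩, lt_of_le_of_lt ?_ hx2⟩
  exact mul_le_mul_of_nonneg_right (le_max_left _ _) (Real.sqrt_nonneg _)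

/-- **large real parts with a margin** -/
lemma cone (c : ℝ) (hc : c < Real.sqrt 3 / Real.pi) : ∃ δ : ℝ, 0 < δ ∧ ∀ l : ℝ, 0 < l → l ≤ 1 →
    ∃ η : ℝ, 0 < η ∧ ∀ R : ℕ, 1 ≤ R → LP η R → ∀ α β : ℝ, α + l ≤ β → ∀ w : ℂ, ‖w‖ = 1 →
      ∃ x ∈ Set.Ioo α β, c * Real.sqrt R + δ * ‖FM R x‖ < |(w * FM R x).re| := by
  have s3 : 0 < Real.sqrt 3 / Real.pi := div_pos (Real.sqrt_pos.2 (by norm_num)) Real.pi_pos
  have sq3 : (Real.sqrt 3 / Real.pi) ^ 2 = 3 / Real.pi ^ 2 := by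
    rw [div_pow, Real.sq_sqrt (by norm_num)]
  have hg := gap_pos' hc s3
  rw [sq3] at hg
  set c' := max c 0 with hc'
  have hc0 : 0 ≤ c' := le_max_right _ _
  set g := 3 / Real.pi ^ 2 - c' ^ 2 with hgdef
  set D := c' ^ 2 + 12 / Real.pi ^ 2 with hD
  have hDpos : 0 < D := by positivity
  set δ := min 1 (g / (2 * D)) with hδ
  have hδ0 : 0 < δ := lt_min one_pos (by positivity)
  have hδ1 : δ ≤ 1 := min_le_left _ _
  have hδD : δ * D ≤ g / 2 := by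
    have h1 : δ ≤ g / (2 * D) := min_le_right _ _
    calc δ * D ≤ g / (2 * D) * D := by gcongr
      _ = g / 2 := by field_simp
  refine ⟨δ, hδ0, fun l hl hl1 => ⟨l * g / 8, by positivity, fun R hR h α β hβ w hw => ?_⟩⟩
  by_contra hcon
  push Not at hcon
  have hR0 : (0 : ℝ) < R := by exact_mod_cast hR
  obtain ⟨h1, h2⟩ := h α (α + l) (by linarith) (by linarith)
  have h3 := h2 w hw
  rw [add_sub_cancel_left] at h1 h3
  have hcF : Continuous fun x => ‖FM R x‖ ^ 2 := (FM_cont R).norm.pow 2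
  have h4 : (∫ x in α..(α + l), (w * FM R x).re ^ 2) ≤
      ∫ x in α..(α + l), ((1 + δ) * c' ^ 2 * R + (δ + δ ^ 2) * ‖FM R x‖ ^ 2) := by
    apply intervalIntegral.integral_mono_on_of_le_Ioo (by linarith)
    · exact ((Complex.continuous_re.comp (continuous_const.mul (FM_cont R))).pow 2).intervalIntegrable _ _
    · exact (continuous_const.add (continuous_const.mul hcF)).intervalIntegrable _ _
    · intro x hx
      have h5 := hcon x ⟨hx.1, lt_of_lt_of_le hx.2 hβ⟩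
      have h6 : |(w * FM R x).re| ≤ c' * Real.sqrt R + δ * ‖FM R x‖ := by
        refine h5.trans ?_
        gcongr
        exact le_max_left _ _
      have h7 : (w * FM R x).re ^ 2 ≤ (c' * Real.sqrt R + δ * ‖FM R x‖) ^ 2 := by
        rw [← sq_abs]
        gcongr
      refine h7.trans ?_
      have h8 : Real.sqrt R ^ 2 = R := Real.sq_sqrt hR0.le
      have h9 : (1 + δ) * c' ^ 2 * R + (δ + δ ^ 2) * ‖FM R x‖ ^ 2 - (c' * Real.sqrt R + δ * ‖FM R x‖) ^ 2 =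
          δ * (c' * Real.sqrt R - ‖FM R x‖) ^ 2 := by
        linear_combination (-(1 + δ) * c' ^ 2) * h8
      have h10 := mul_nonneg hδ0.le (sq_nonneg (c' * Real.sqrt R - ‖FM R x‖))
      linarith
  have i1 : IntervalIntegrable (fun _ : ℝ => (1 + δ) * c' ^ 2 * (R : ℝ)) MeasureTheory.volume α (α + l) :=
    continuous_const.intervalIntegrable _ _
  have i2 : IntervalIntegrable (fun x : ℝ => (δ + δ ^ 2) * ‖FM R x‖ ^ 2) MeasureTheory.volume α (α + l) :=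
    (continuous_const.mul hcF).intervalIntegrable _ _
  rw [intervalIntegral.integral_add i1 i2, intervalIntegral.integral_const,
    intervalIntegral.integral_const_mul, smul_eq_mul, add_sub_cancel_left] at h4
  set I := ∫ x in α..(α + l), ‖FM R x‖ ^ 2 with hI
  have h5 := (abs_le.1 h1).2
  have h6 := (abs_le.1 h3).1
  have hδ2 : δ ^ 2 ≤ δ := by nlinarith
  have h7 : (δ + δ ^ 2) * I ≤ (δ + δ ^ 2) * (6 / Real.pi ^ 2 * l * R + l * g / 8 * R) := by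
    apply mul_le_mul_of_nonneg_left (by linarith) (by positivity)
  have h8 : (δ + δ ^ 2) * (6 / Real.pi ^ 2 * l * R + l * g / 8 * R) ≤
      (2 * δ) * (6 / Real.pi ^ 2 * l * R) + 2 * (l * g / 8 * R) := by
    have e1 : 0 ≤ 6 / Real.pi ^ 2 * l * R := by positivity
    have e2 : 0 ≤ l * g / 8 * R := by positivity
    nlinarith
  have h9 : l * R * (3 / Real.pi ^ 2) - l * g / 8 * R ≤ l * ((1 + δ) * c' ^ 2 * R) +
      ((2 * δ) * (6 / Real.pi ^ 2 * l * R) + 2 * (l * g / 8 * R)) := by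
    nlinarith
  have h10 : l * R * g ≤ l * R * (δ * D) + 3 * (l * g / 8 * R) := by
    rw [hgdef, hD]
    rw [hgdef] at h9
    ring_nf at h9 ⊢
    linarith
  have h11 : l * R * (δ * D) ≤ l * R * (g / 2) := by gcongr
  have h12 : 0 < l * R * g := by positivity
  nlinarith

/-- intervals and affine maps -/
lemma aff {r s u v l : ℝ} (hr : r ≠ 0) (huv : u + l ≤ v) : ∃ α β : ℝ, α + |r| * l ≤ β ∧
    ∀ y ∈ Set.Ioo α β, ∃ x ∈ Set.Ioo u v, r * x + s = y := by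
  rcases lt_or_gt_of_ne hr with h | h
  · refine ⟨r * v + s, r * u + s, ?_, fun y hy => ⟨(y - s) / r, ⟨?_, ?_⟩, by field_simp; ring⟩⟩
    · rw [abs_of_neg h]
      nlinarith
    · rw [lt_div_iff_of_neg h]
      linarith [hy.2]
    · rw [div_lt_iff_of_neg h]
      linarith [hy.1]
  · refine ⟨r * u + s, r * v + s, ?_, fun y hy => ⟨(y - s) / r, ⟨?_, ?_⟩, by field_simp; ring⟩⟩
    · rw [abs_of_pos h]
      nlinarith
    · rw [lt_div_iff₀ h]
      linarith [hy.1]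
    · rw [div_lt_iff₀ h]
      linarith [hy.2]

/-- good scales -/
lemma good_scale (η : ℝ) (hη : 0 < η) (K N : ℕ) : ∃ T : ℕ, N ≤ T ∧ 1 ≤ T ∧
    ∀ k : ℕ, 1 ≤ k → k ≤ K → LP η (k * T) := by
  obtain ⟨B, T0, -, h⟩ := equi_win K (η / 2) (by positivity)
  obtain ⟨T', h1, -, h3⟩ := h (T0 + N) (by omega)
  refine ⟨T', by omega, by omega, fun k hk hkK => LP_of le_rfl (by positivity) (h3 (k * T') ?_ ?_)⟩
  · exact Nat.le_mul_of_pos_left _ hk
  · push_cast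
    gcongr
    have h4 := Real.add_one_le_exp (K : ℝ)
    have h5 : (k : ℝ) ≤ K := by exact_mod_cast hkK
    linarith

/-- **generic maps for a family of conditions** -/
theorem gen_fam (m : ℕ) (κ : (Fin m → Bool) → ℕ) (hκ : ∀ τ, 1 ≤ κ τ) (P : (Fin m → Bool) → ℕ → ℝ → ℝ)
    (hP : ∀ τ R, Continuous (P τ R)) (r s : ℝ) (hr : r ≠ 0)
    (h : ∀ l : ℝ, 0 < l → l ≤ 1 → ∃ η : ℝ, 0 < η ∧ ∀ R : ℕ, 1 ≤ R → LP η R → ∀ τ, ∀ α β : ℝ, α + l ≤ β →
      ∃ x ∈ Set.Ioo α β, 0 < P τ R x) :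
    ∀ᶠ f in residual C(ℕ → Bool, ℝ), ∃ᶠ T : ℕ in atTop, ∀ ξ,
      0 < P (res m ξ) (κ (res m ξ) * T) (r * f ξ + s) := by
  refine gen_map m (fun τ T x => P τ (κ τ * T) (r * x + s)) (fun τ T => (hP τ _).comp (by fun_prop)) ?_
  intro N l hl
  have hr0 : 0 < |r| := abs_pos.2 hr
  obtain ⟨η, hη, h1⟩ := h (min (|r| * l) 1) (lt_min (by positivity) one_pos) (min_le_right _ _)
  obtain ⟨T, hTN, hT1, hT⟩ := good_scale η hη (Finset.univ.sup κ) N
  refine ⟨T, hTN, fun τ α β hαβ => ?_⟩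
  obtain ⟨α', β', h2, h3⟩ := aff (s := s) hr hαβ
  have h4 : κ τ ≤ Finset.univ.sup κ := Finset.le_sup (Finset.mem_univ τ)
  obtain ⟨y, hy, hy2⟩ := h1 (κ τ * T) (Nat.mul_pos (hκ τ) hT1) (hT (κ τ) (hκ τ) h4) τ α' β'
    (by have := min_le_left (|r| * l) 1; linarith)
  obtain ⟨x, hx, hxy⟩ := h3 y hy
  refine ⟨x, hx, ?_⟩
  rw [hxy]
  exact hy2

end Pool.Agent.T2h81.EA
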