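import Pool.Agent.T2h81.EA.D2

/-! Project EA (helper81): simultaneous large values at the points of a Cantor set. -/

set_option autoImplicit false

open Filter Topology

namespace Pool.Agent.T2h81.EA

/-- values near the root mean square -/
lemma near6 (ε l : ℝ) (hε : 0 < ε) (hl : 0 < l) (hl1 : l ≤ 1) : ∃ η : ℝ, 0 < η ∧
    ∀ R : ℕ, 1 ≤ R → LP η R → ∀ α β : ℝ, α + l ≤ β →
      ∃ x ∈ Set.Ioo α β, |‖FM R x‖ - Real.sqrt 6 / Real.pi * Real.sqrt R| < ε * Real.sqrt R := by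
  have s6 : 0 < Real.sqrt 6 / Real.pi := div_pos (Real.sqrt_pos.2 (by norm_num)) Real.pi_pos
  have sq6 : (Real.sqrt 6 / Real.pi) ^ 2 = 6 / Real.pi ^ 2 := by
    rw [div_pow, Real.sq_sqrt (by norm_num)]
  set S := Real.sqrt 6 / Real.pi with hS
  obtain ⟨η₁, hη₁, h1⟩ := big6 (S - ε) l (by linarith) hl hl1
  refine ⟨min η₁ (S * ε * l), lt_min hη₁ (by positivity), fun R hR h α β hβ => ?_⟩
  have hR0 : (0 : ℝ) < R := by exact_mod_cast hR
  have hsR : 0 < Real.sqrt R := Real.sqrt_pos.2 hR0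
  obtain ⟨x₁, hx₁, hx₁'⟩ := h1 R hR (LP_mono (min_le_left _ _) h) α β hβ
  have h2 : ∃ x ∈ Set.Ioo α β, ‖FM R x‖ < (S + ε) * Real.sqrt R := by
    by_contra hcon
    push Not at hcon
    have h3 := (h α (α + l) (by linarith) (by linarith)).1
    rw [add_sub_cancel_left, ← sq6] at h3
    have h4 : (∫ _x in α..(α + l), (S + ε) ^ 2 * (R : ℝ)) ≤ ∫ x in α..(α + l), ‖FM R x‖ ^ 2 := by
      apply intervalIntegral.integral_mono_on_of_le_Ioo (by linarith)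
      · exact continuous_const.intervalIntegrable _ _
      · exact ((FM_cont R).norm.pow 2).intervalIntegrable _ _
      · intro x hx
        have h5 := hcon x ⟨hx.1, lt_of_lt_of_le hx.2 hβ⟩
        have h6 : ((S + ε) * Real.sqrt R) ^ 2 ≤ ‖FM R x‖ ^ 2 := by gcongr
        rwa [mul_pow, Real.sq_sqrt hR0.le] at h6
    rw [intervalIntegral.integral_const, smul_eq_mul, add_sub_cancel_left] at h4
    have h5 := (abs_le.1 h3).2
    have h6 : min η₁ (S * ε * l) * (R : ℝ) ≤ S * ε * l * R :=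
      mul_le_mul_of_nonneg_right (min_le_right _ _) hR0.le
    have h7 : 0 < S * ε * l * R := by positivity
    have h8 : 0 < ε ^ 2 * l * R := by positivity
    nlinarith
  obtain ⟨x₂, hx₂, hx₂'⟩ := h2
  by_cases h3 : ‖FM R x₁‖ < (S + ε) * Real.sqrt R
  · refine ⟨x₁, hx₁, ?_⟩
    rw [abs_lt]
    constructor <;> linarith
  by_cases h4 : (S - ε) * Real.sqrt R < ‖FM R x₂‖
  · refine ⟨x₂, hx₂, ?_⟩
    rw [abs_lt]
    constructor <;> linarith
  push Not at h3 h4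
  have h5 : S * Real.sqrt R ∈ Set.Icc ‖FM R x₂‖ ‖FM R x₁‖ := by
    have : 0 < ε * Real.sqrt R := by positivity
    constructor <;> linarith
  obtain ⟨x, hx, hx2⟩ := isPreconnected_Ioo.intermediate_value hx₂ hx₁ (FM_cont R).norm.continuousOn h5
  refine ⟨x, hx, ?_⟩
  simp only at hx2
  rw [hx2, sub_self, abs_zero]
  positivity

/-- the generic property, absolute values -/
lemma famA (m : ℕ) (κ : (Fin m → Bool) → ℕ) (hκ : ∀ τ, 1 ≤ κ τ) (r s ε : ℝ) (hr : r ≠ 0) (hε : 0 < ε) :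
    ∀ᶠ f in residual C(ℕ → Bool, ℝ), ∃ᶠ T : ℕ in atTop, ∀ ξ,
      |‖FM (κ (res m ξ) * T) (r * f ξ + s)‖ - Real.sqrt 6 / Real.pi * Real.sqrt ((κ (res m ξ) * T : ℕ) : ℝ)| <
        ε * Real.sqrt ((κ (res m ξ) * T : ℕ) : ℝ) := by
  have h := gen_fam m κ hκ (fun _ R x => ε * Real.sqrt R -
    |‖FM R x‖ - Real.sqrt 6 / Real.pi * Real.sqrt R|)
    (fun _ R => continuous_const.sub ((FM_cont R).norm.sub continuous_const).abs) r s hr (fun l hl hl1 => by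
      obtain ⟨η, hη, h1⟩ := near6 ε l hε hl hl1
      refine ⟨η, hη, fun R hR hLP _ α β hβ => ?_⟩
      obtain ⟨x, hx, hx2⟩ := h1 R hR hLP α β hβ
      exact ⟨x, hx, sub_pos.2 hx2⟩)
  filter_upwards [h] with f hf
  exact hf.mono fun T hT ξ => sub_pos.1 (hT ξ)

/-- the generic property, directions -/
lemma famB (m : ℕ) (κ : (Fin m → Bool) → ℕ) (hκ : ∀ τ, 1 ≤ κ τ) (w : (Fin m → Bool) → ℂ) (hw : ∀ τ, ‖w τ‖ = 1)
    (r s c δ : ℝ) (hr : r ≠ 0)
    (hδ : ∀ l : ℝ, 0 < l → l ≤ 1 →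
      ∃ η : ℝ, 0 < η ∧ ∀ R : ℕ, 1 ≤ R → LP η R → ∀ α β : ℝ, α + l ≤ β → ∀ w : ℂ, ‖w‖ = 1 →
        ∃ x ∈ Set.Ioo α β, c * Real.sqrt R + δ * ‖FM R x‖ < |(w * FM R x).re|) :
    ∀ᶠ f in residual C(ℕ → Bool, ℝ), ∃ᶠ T : ℕ in atTop, ∀ ξ,
      c * Real.sqrt ((κ (res m ξ) * T : ℕ) : ℝ) + δ * ‖FM (κ (res m ξ) * T) (r * f ξ + s)‖ <
        |(w (res m ξ) * FM (κ (res m ξ) * T) (r * f ξ + s)).re| := by
  have h := gen_fam m κ hκ (fun τ R x => |(w τ * FM R x).re| - (c * Real.sqrt R + δ * ‖FM R x‖))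
    (fun τ R => (Complex.continuous_re.comp (continuous_const.mul (FM_cont R))).abs.sub
      (continuous_const.add (continuous_const.mul (FM_cont R).norm))) r s hr (fun l hl hl1 => by
      obtain ⟨η, hη, h1⟩ := hδ l hl hl1
      refine ⟨η, hη, fun R hR hLP τ α β hβ => ?_⟩
      obtain ⟨x, hx, hx2⟩ := h1 R hR hLP α β hβ (w τ) (hw τ)
      exact ⟨x, hx, sub_pos.2 hx2⟩)
  filter_upwards [h] with f hf
  exact hf.mono fun T hT ξ => sub_pos.1 (hT ξ)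

/-- the unit complex number with the argument `2πθ` -/
noncomputable def un (θ : ℝ) : ℂ := Complex.exp (((2 * Real.pi * θ : ℝ) : ℂ) * Complex.I)

lemma un_norm (θ : ℝ) : ‖un θ‖ = 1 := Complex.norm_exp_ofReal_mul_I _

/-- approximation by rational directions -/
lemma un_approx (w : ℂ) (hw : ‖w‖ = 1) (ε : ℝ) (hε : 0 < ε) : ∃ θ : ℚ, ‖un θ - w‖ < ε := by
  have h1 : un (Complex.arg w / (2 * Real.pi)) = w := by
    unfold un
    rw [mul_div_cancel₀ _ (by positivity : (2 * Real.pi) ≠ 0)]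
    have := Complex.norm_mul_exp_arg_mul_I w
    rwa [hw, Complex.ofReal_one, one_mul] at this
  have h2 : Continuous fun θ : ℝ => un θ := by
    unfold un
    fun_prop
  have h3 : IsOpen {θ : ℝ | ‖un θ - w‖ < ε} := isOpen_lt (h2.sub continuous_const).norm continuous_const
  obtain ⟨θ, hθ⟩ := (Rat.denseRange_cast (𝕜 := ℝ)).exists_mem_open h3 ⟨Complex.arg w / (2 * Real.pi), by
    rw [Set.mem_ofPred_eq, h1, sub_self, norm_zero]
    exact hε⟩
  exact ⟨θ, hθ⟩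

/-- the generic property -/
def Gen (f : C(ℕ → Bool, ℝ)) : Prop := ∀ r s : ℚ, r ≠ 0 → ∀ κ : (ℕ → Bool) → ℕ, Continuous κ → (∀ ξ, 1 ≤ κ ξ) →
  (∀ ε : ℝ, 0 < ε → ∃ᶠ T : ℕ in atTop, ∀ ξ,
    |‖FM (κ ξ * T) (r * f ξ + s)‖ - Real.sqrt 6 / Real.pi * Real.sqrt ((κ ξ * T : ℕ) : ℝ)| <
      ε * Real.sqrt ((κ ξ * T : ℕ) : ℝ)) ∧
  (∀ w : (ℕ → Bool) → ℂ, Continuous w → (∀ ξ, ‖w ξ‖ = 1) → ∀ c : ℝ, c < Real.sqrt 3 / Real.pi →
    ∃ᶠ T : ℕ in atTop, ∀ ξ, c * Real.sqrt ((κ ξ * T : ℕ) : ℝ) < |(w ξ * FM (κ ξ * T) (r * f ξ + s)).re|)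

/-- a continuous map to the natural numbers depends on finitely many coordinates -/
lemma nat_unif (κ : (ℕ → Bool) → ℕ) (hκ : Continuous κ) : ∃ n : ℕ, ∀ ξ ζ, res n ξ = res n ζ → κ ξ = κ ζ := by
  obtain ⟨n, hn⟩ := unif κ hκ 1 one_pos
  refine ⟨n, fun ξ ζ h => ?_⟩
  have h1 := hn ξ ζ h
  rw [Nat.dist_eq] at h1
  have h2 : |(κ ξ : ℤ) - κ ζ| < 1 := by exact_mod_cast h1
  have h3 := abs_lt.1 h2
  omega

/-- **generic maps have the property** -/
theorem gen_all : ∀ᶠ f in residual C(ℕ → Bool, ℝ), Gen f := by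
  have hcone : ∀ c : ℝ, ∃ δ : ℝ, 0 < δ ∧ (c < Real.sqrt 3 / Real.pi → ∀ l : ℝ, 0 < l → l ≤ 1 →
      ∃ η : ℝ, 0 < η ∧ ∀ R : ℕ, 1 ≤ R → LP η R → ∀ α β : ℝ, α + l ≤ β → ∀ w : ℂ, ‖w‖ = 1 →
        ∃ x ∈ Set.Ioo α β, c * Real.sqrt R + δ * ‖FM R x‖ < |(w * FM R x).re|) := by
    intro c
    by_cases hc : c < Real.sqrt 3 / Real.pi
    · obtain ⟨δ, hδ, h⟩ := cone c hc
      exact ⟨δ, hδ, fun _ => h⟩
    · exact ⟨1, one_pos, fun h => absurd h hc⟩
  choose δ hδ0 hδ using hcone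
  have hA : ∀ (m : ℕ) (κ : (Fin m → Bool) → ℕ) (r s q : ℚ), ∀ᶠ f in residual C(ℕ → Bool, ℝ),
      (∀ τ, 1 ≤ κ τ) → r ≠ 0 → 0 < q → ∃ᶠ T : ℕ in atTop, ∀ ξ,
      |‖FM (κ (res m ξ) * T) (r * f ξ + s)‖ - Real.sqrt 6 / Real.pi * Real.sqrt ((κ (res m ξ) * T : ℕ) : ℝ)| <
        q * Real.sqrt ((κ (res m ξ) * T : ℕ) : ℝ) := by
    intro m κ r s q
    by_cases h : (∀ τ, 1 ≤ κ τ) ∧ r ≠ 0 ∧ 0 < q
    · have h1 := famA m κ h.1 r s q (by exact_mod_cast h.2.1) (by exact_mod_cast h.2.2)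
      filter_upwards [h1] with f hf _ _ _
      exact hf
    · exact Eventually.of_forall fun f h1 h2 h3 => absurd ⟨h1, h2, h3⟩ h
  have hB : ∀ (m : ℕ) (κ : (Fin m → Bool) → ℕ) (θ : (Fin m → Bool) → ℚ) (r s q : ℚ),
      ∀ᶠ f in residual C(ℕ → Bool, ℝ), (∀ τ, 1 ≤ κ τ) → r ≠ 0 → (q : ℝ) < Real.sqrt 3 / Real.pi →
      ∃ᶠ T : ℕ in atTop, ∀ ξ,
      q * Real.sqrt ((κ (res m ξ) * T : ℕ) : ℝ) + δ q * ‖FM (κ (res m ξ) * T) (r * f ξ + s)‖ <
        |(un (θ (res m ξ)) * FM (κ (res m ξ) * T) (r * f ξ + s)).re| := by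
    intro m κ θ r s q
    by_cases h : (∀ τ, 1 ≤ κ τ) ∧ r ≠ 0 ∧ (q : ℝ) < Real.sqrt 3 / Real.pi
    · have h1 := famB m κ h.1 (fun τ => un (θ τ)) (fun τ => un_norm _) r s q (δ q) (by exact_mod_cast h.2.1)
        (hδ q h.2.2)
      filter_upwards [h1] with f hf _ _ _
      exact hf
    · exact Eventually.of_forall fun f h1 h2 h3 => absurd ⟨h1, h2, h3⟩ h
  have hA' := eventually_countable_forall.2 fun m => eventually_countable_forall.2 fun κ =>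
    eventually_countable_forall.2 fun r => eventually_countable_forall.2 fun s =>
      eventually_countable_forall.2 fun q => hA m κ r s q
  have hB' := eventually_countable_forall.2 fun m => eventually_countable_forall.2 fun κ =>
    eventually_countable_forall.2 fun θ => eventually_countable_forall.2 fun r =>
      eventually_countable_forall.2 fun s => eventually_countable_forall.2 fun q => hB m κ θ r s q
  filter_upwards [hA', hB'] with f hfA hfB r s hr κ hκ hκ1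
  obtain ⟨n₁, hn₁⟩ := nat_unif κ hκ
  refine ⟨fun ε hε => ?_, fun w hw hw1 c hc => ?_⟩
  · obtain ⟨q, hq0, hq⟩ := exists_rat_btwn hε
    have h1 := hfA n₁ (fun τ => κ (ext n₁ τ)) r s q (fun τ => hκ1 _) hr (by exact_mod_cast hq0)
    refine h1.mono fun T hT ξ => ?_
    have h2 := hT ξ
    have e : κ (ext n₁ (res n₁ ξ)) = κ ξ := hn₁ _ _ (res_ext _ _)
    simp only [e] at h2
    refine h2.trans_le ?_
    exact mul_le_mul_of_nonneg_right hq.le (Real.sqrt_nonneg _)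
  · obtain ⟨q, hq1, hq2⟩ := exists_rat_btwn hc
    obtain ⟨n₂, hn₂⟩ := unif w hw (δ q / 2) (half_pos (hδ0 q))
    have h3 : ∀ τ : Fin (max n₁ n₂) → Bool, ∃ θ : ℚ, ‖un θ - w (ext _ τ)‖ < δ q / 2 := fun τ =>
      un_approx _ (hw1 _) _ (half_pos (hδ0 q))
    choose θ hθ using h3
    have h1 := hfB (max n₁ n₂) (fun τ => κ (ext _ τ)) θ r s q (fun τ => hκ1 _) hr hq2
    refine h1.mono fun T hT ξ => ?_
    have h2 := hT ξ
    have e : κ (ext (max n₁ n₂) (res (max n₁ n₂) ξ)) = κ ξ :=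
      hn₁ _ _ (res_mono (le_max_left _ _) (res_ext _ _))
    simp only [e] at h2
    set Z := FM (κ ξ * T) (r * f ξ + s) with hZ
    have h4 : ‖un (θ (res (max n₁ n₂) ξ)) - w ξ‖ < δ q := by
      have h5 := hθ (res (max n₁ n₂) ξ)
      have h6 := hn₂ (ext (max n₁ n₂) (res (max n₁ n₂) ξ)) ξ (res_mono (le_max_right _ _) (res_ext _ _))
      rw [dist_eq_norm] at h6
      have h7 := norm_sub_le_norm_sub_add_norm_sub (un (θ (res (max n₁ n₂) ξ)))
        (w (ext (max n₁ n₂) (res (max n₁ n₂) ξ))) (w ξ)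
      linarith
    have h8 : |(un (θ (res (max n₁ n₂) ξ)) * Z).re| ≤ |(w ξ * Z).re| + δ q * ‖Z‖ := by
      have e1 : (un (θ (res (max n₁ n₂) ξ)) * Z).re =
          (w ξ * Z).re + ((un (θ (res (max n₁ n₂) ξ)) - w ξ) * Z).re := by
        rw [← Complex.add_re]
        congr 1
        ring
      rw [e1]
      refine (abs_add_le _ _).trans ?_
      gcongr
      refine (Complex.abs_re_le_norm _).trans ?_
      rw [norm_mul]
      gcongr
    have h9 : c * Real.sqrt ((κ ξ * T : ℕ) : ℝ) ≤ q * Real.sqrt ((κ ξ * T : ℕ) : ℝ) :=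
      mul_le_mul_of_nonneg_right hq1.le (Real.sqrt_nonneg _)
    linarith

/-- the image of an injective map is perfect -/
lemma perf (f : C(ℕ → Bool, ℝ)) (hf : Function.Injective f) : Perfect (Set.range f) := by
  refine ⟨(isCompact_range f.continuous).isClosed, ?_⟩
  rintro _ ⟨ξ, rfl⟩
  rw [accPt_iff_nhds]
  intro U hU
  have h1 : f ⁻¹' U ∈ 𝓝 ξ := f.continuous.continuousAt hU
  obtain ⟨s, ⟨x, n, rfl⟩, hx, hs⟩ := (PiNat.isTopologicalBasis_cylinders (fun _ : ℕ => Bool)).mem_nhds_iff.1 h1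
  refine ⟨f (Function.update ξ n (!ξ n)), ⟨hs fun i hi => ?_, ⟨_, rfl⟩⟩, fun h => ?_⟩
  · rw [Function.update_of_ne hi.ne]
    exact hx i hi
  · have h2 := congrFun (hf h) n
    rw [Function.update_self] at h2
    simp at h2

/-- maps with values in an interval -/
lemma exists_in (a b : ℝ) (hab : a < b) : ∃ f : C(ℕ → Bool, ℝ), Function.Injective f ∧ Gen f ∧
    ∀ ξ, a < f ξ ∧ f ξ < b := by
  have h1 : ∀ᶠ f : C(ℕ → Bool, ℝ) in residual C(ℕ → Bool, ℝ), Function.Injective f ∧ Gen f :=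
    gen_inj.and gen_all
  have h2 : Dense {f : C(ℕ → Bool, ℝ) | Function.Injective f ∧ Gen f} := dense_of_mem_residual h1
  have h3 : IsOpen {f : C(ℕ → Bool, ℝ) | Set.MapsTo f Set.univ (Set.Ioo a b)} :=
    ContinuousMap.isOpen_setOfPred_mapsTo isCompact_univ isOpen_Ioo
  obtain ⟨f, hf, hf2⟩ := h2.inter_open_nonempty _ h3 ⟨ContinuousMap.const _ ((a + b) / 2), fun ξ _ => by
    rw [ContinuousMap.const_apply]
    constructor <;> linarith⟩
  exact ⟨f, hf2.1, hf2.2, fun ξ => hf (Set.mem_univ ξ)⟩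

end Pool.Agent.T2h81.EA
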